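import Mathlib
import Pool.Agent.U218.LD.Bad

/-! # Energies of finite sets of algebraic integers -/

set_option autoImplicit false
set_option linter.all false

open Finset Module NumberField

namespace Pool.Agent.U218.RA

open Pool.Agent.H388SL Pool.Agent.U218.LD

variable {M : Type*} [Field M] [NumberField M]

/-- the logarithm of the absolute value of the norm -/
noncomputable def lN (a : M) : ℝ := ∑ σ : M →ₐ[ℚ] ℂ, Real.log ‖σ a‖

lemma lN_eq {a : M} (h0 : a ≠ 0) : lN a = Real.log (∏ σ : M →ₐ[ℚ] ℂ, ‖σ a‖) := by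
  rw [lN, Real.log_prod]
  intro σ _
  exact norm_ne_zero_iff.mpr ((map_ne_zero _).mpr h0)

lemma lN_mul {a b : M} (ha : a ≠ 0) (hb : b ≠ 0) : lN (a * b) = lN a + lN b := by
  rw [lN, lN, lN, ← Finset.sum_add_distrib]
  refine Finset.sum_congr rfl fun σ _ => ?_
  rw [map_mul, norm_mul, Real.log_mul]
  · exact norm_ne_zero_iff.mpr ((map_ne_zero _).mpr ha)
  · exact norm_ne_zero_iff.mpr ((map_ne_zero _).mpr hb)

lemma lN_pow (a : M) (n : ℕ) : lN (a ^ n) = n * lN a := by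
  rw [lN, lN, Finset.mul_sum]
  refine Finset.sum_congr rfl fun σ _ => ?_
  rw [map_pow, norm_pow, Real.log_pow]

lemma lN_nonneg {a : M} (ha : IsIntegral ℤ a) : 0 ≤ lN a := by
  by_cases h0 : a = 0
  · rw [h0, lN]; simp
  rw [lN_eq h0]
  exact Real.log_nonneg (one_le_prod_norm ha h0)

lemma lN_natCast (p : ℕ) : lN (p : M) = finrank ℚ M * Real.log p := by
  rw [lN]
  have : ∀ σ : M →ₐ[ℚ] ℂ, Real.log ‖σ (p : M)‖ = Real.log p := by
    intro σ
    rw [map_natCast, Complex.norm_natCast]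
  rw [Finset.sum_congr rfl (fun σ _ => this σ), Finset.sum_const, nsmul_eq_mul, Finset.card_univ,
    AlgHom.card ℚ M ℂ]

lemma lN_prod {κ : Type*} (s : Finset κ) (f : κ → M) (h : ∀ i ∈ s, f i ≠ 0) :
    lN (∏ i ∈ s, f i) = ∑ i ∈ s, lN (f i) := by
  classical
  induction s using Finset.induction_on with
  | empty => rw [Finset.prod_empty, Finset.sum_empty, lN]; simp
  | insert i s hi ih =>
    rw [Finset.prod_insert hi, Finset.sum_insert hi,
      lN_mul (h i (Finset.mem_insert_self _ _)) (Finset.prod_ne_zero_iff.mpr fun j hj =>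
        h j (Finset.mem_insert_of_mem hj)), ih fun j hj => h j (Finset.mem_insert_of_mem hj)]

/-- norms of elements which are divisible by `p` up to a power -/
lemma le_lN_of_pow {a : M} (h0 : a ≠ 0) {e p : ℕ} (he : 0 < e) {b : M} (hb : IsIntegral ℤ b)
    (h : a ^ e = p * b) : Real.log p / e * finrank ℚ M ≤ lN a := by
  have hab : a ^ e ≠ 0 := pow_ne_zero _ h0
  have hp : (p : M) ≠ 0 := by
    intro hp
    rw [h, hp, zero_mul] at hab
    exact hab rfl
  have hb0 : b ≠ 0 := by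
    intro hb0
    rw [h, hb0, mul_zero] at hab
    exact hab rfl
  have h1 := lN_pow a e
  rw [h, lN_mul hp hb0, lN_natCast] at h1
  have h2 := lN_nonneg hb
  have he' : (0 : ℝ) < e := by exact_mod_cast he
  rw [div_mul_eq_mul_div, div_le_iff₀ he']
  linarith

lemma lam_algEquiv (g : M ≃ₐ[ℚ] M) (a : M) : lam (g a) = lam a := by
  rw [lam, lam]
  refine Fintype.sum_bijective (fun σ : M →ₐ[ℚ] ℂ => σ.comp (g : M →ₐ[ℚ] M)) ?_ _ _ fun σ => rfl
  constructor
  · intro σ τ h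
    ext x
    have := DFunLike.congr_fun h (g.symm x)
    simpa using this
  · intro σ
    refine ⟨σ.comp (g.symm : M →ₐ[ℚ] M), ?_⟩
    ext x
    simp

/-- the energy inequality, summed over the embeddings -/
theorem energy_sum {ι : Type*} [DecidableEq ι] (S : Finset ι) (w : ι → ℝ)
    (hw : ∀ i ∈ S, 0 ≤ w i) (y : ι → M) (hinj : ∀ i ∈ S, ∀ j ∈ S, i ≠ j → y i ≠ y j)
    {N : ℝ} (hN : 1 ≤ N) :
    ∑ i ∈ S, ∑ j ∈ S, (if i = j then 0 else w i * w j * lN (y i - y j)) ≤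
      2 * (∑ i ∈ S, w i) * (∑ i ∈ S, w i * lam (y i)) +
        finrank ℚ M * ((∑ i ∈ S, w i) ^ 2 / N + (∑ i ∈ S, w i ^ 2) * Real.log N) := by
  have hN0 : 0 < N := by linarith
  have ht0 : 0 ≤ 1 - 1 / N := by
    rw [sub_nonneg, div_le_one (by linarith)]; exact hN
  have ht1 : 1 - 1 / N < 1 := by
    have : 0 < 1 / N := by positivity
    linarith
  have e1 : 1 / (1 - (1 - 1 / N)) = N := by
    field_simp; ring
  have e2 : Real.log (2 / (1 + (1 - 1 / N))) ≤ 1 / N := by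
    have h1 : 1 + (1 - 1 / N) = (2 * N - 1) / N := by field_simp; ring
    have h2 : 2 / (1 + (1 - 1 / N)) = 1 + 1 / (2 * N - 1) := by
      rw [h1]
      have : 2 * N - 1 ≠ 0 := by nlinarith
      field_simp; ring
    rw [h2]
    have h3 : 0 < 1 / (2 * N - 1) := by apply div_pos one_pos; nlinarith
    have h4 := Real.log_le_sub_one_of_pos (show 0 < 1 + 1 / (2 * N - 1) by linarith)
    have h5 : 1 / (2 * N - 1) ≤ 1 / N := by
      apply one_div_le_one_div_of_le hN0; linarith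
    linarith
  have key : ∀ σ : M →ₐ[ℚ] ℂ, ∑ i ∈ S, ∑ j ∈ S,
      (if i = j then 0 else w i * w j * Real.log ‖σ (y i) - σ (y j)‖) ≤
      2 * (∑ i ∈ S, w i) * (∑ i ∈ S, w i * Real.log (max 1 ‖σ (y i)‖)) +
        ((∑ i ∈ S, w i) ^ 2 / N + (∑ i ∈ S, w i ^ 2) * Real.log N) := by
    intro σ
    have h := energy S w hw (fun i => σ (y i)) (fun i hi j hj hij h =>
      hinj i hi j hj hij (σ.injective h)) ht0 ht1
    rw [e1] at h
    have h6 : 0 ≤ (1 - 1 / N) * ‖∑ i ∈ S, (w i : ℂ) * Pool.Agent.H388SL.refl (σ (y i))‖ ^ 2 := by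
      positivity
    have h7 : (∑ i ∈ S, w i) ^ 2 * Real.log (2 / (1 + (1 - 1 / N))) ≤
        (∑ i ∈ S, w i) ^ 2 * (1 / N) := mul_le_mul_of_nonneg_left e2 (by positivity)
    have h8 : (∑ i ∈ S, w i) ^ 2 / N = (∑ i ∈ S, w i) ^ 2 * (1 / N) := by ring
    rw [h8]
    linarith
  have h1 := Finset.sum_le_sum fun σ (_ : σ ∈ (Finset.univ : Finset (M →ₐ[ℚ] ℂ))) => key σ
  rw [Finset.sum_add_distrib, ← Finset.mul_sum, Finset.sum_const, nsmul_eq_mul, Finset.card_univ,
    AlgHom.card ℚ M ℂ] at h1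
  have e3 : ∑ σ : M →ₐ[ℚ] ℂ, ∑ i ∈ S, ∑ j ∈ S,
      (if i = j then 0 else w i * w j * Real.log ‖σ (y i) - σ (y j)‖) =
      ∑ i ∈ S, ∑ j ∈ S, (if i = j then 0 else w i * w j * lN (y i - y j)) := by
    rw [Finset.sum_comm]
    refine Finset.sum_congr rfl fun i _ => ?_
    rw [Finset.sum_comm]
    refine Finset.sum_congr rfl fun j _ => ?_
    split_ifs
    · simp
    · rw [lN, Finset.mul_sum]
      refine Finset.sum_congr rfl fun σ _ => ?_
      rw [map_sub]
  have e4 : ∑ σ : M →ₐ[ℚ] ℂ, ∑ i ∈ S, w i * Real.log (max 1 ‖σ (y i)‖) =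
      ∑ i ∈ S, w i * lam (y i) := by
    rw [Finset.sum_comm]
    refine Finset.sum_congr rfl fun i _ => ?_
    rw [lam, Finset.mul_sum]
  rw [e3, e4] at h1
  exact h1

/-- the inequality for twisted powers of the elements of a finite set `O` -/
theorem main_ineq {κ : Type*} [DecidableEq κ] [DecidableEq M] (I : Finset κ) (w : κ → ℝ)
    (hw : ∀ i ∈ I, 0 ≤ w i) (O : Finset M) (hO : ∀ x ∈ O, IsIntegral ℤ x) (hO0 : O.Nonempty)
    (a : κ → (M ≃ₐ[ℚ] M)) (b : κ → ℕ) {ℓ : ℝ} (hlam : ∀ x ∈ O, lam x = ℓ)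
    (hinj : ∀ i ∈ I, ∀ j ∈ I, ∀ x ∈ O, ∀ x' ∈ O, (i ≠ j ∨ x ≠ x') → a i x ^ b i ≠ a j x' ^ b j)
    (L : κ → κ → ℝ) (hL : ∀ i ∈ I, ∀ j ∈ I, i ≠ j →
      O.card * (L i j * finrank ℚ M) ≤ ∑ x ∈ O, ∑ x' ∈ O, lN (a i x ^ b i - a j x' ^ b j))
    {N : ℝ} (hN : 1 ≤ N) :
    ∑ i ∈ I, ∑ j ∈ I, (if i = j then 0 else w i * w j * L i j) ≤
      2 * (∑ i ∈ I, w i) * (∑ i ∈ I, w i * b i) * (O.card * (ℓ / finrank ℚ M)) +
        (O.card * (∑ i ∈ I, w i) ^ 2 / N + (∑ i ∈ I, w i ^ 2) * Real.log N) := by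
  have hd : (0 : ℝ) < finrank ℚ M := by
    have : 0 < finrank ℚ M := finrank_pos
    exact_mod_cast this
  have hD : (0 : ℝ) < O.card := by exact_mod_cast hO0.card_pos
  have h := energy_sum (I ×ˢ O) (fun k => w k.1) (fun k hk => hw _ (Finset.mem_product.mp hk).1)
    (fun k => a k.1 k.2 ^ b k.1) (by
      rintro ⟨i, x⟩ hi ⟨j, x'⟩ hj hij
      rw [Finset.mem_product] at hi hj
      refine hinj i hi.1 j hj.1 x hi.2 x' hj.2 ?_
      by_contra hc
      push Not at hc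
      exact hij (by rw [hc.1, hc.2])) hN
  have s1 : ∑ k ∈ I ×ˢ O, w k.1 = O.card * ∑ i ∈ I, w i := by
    rw [Finset.sum_product, Finset.mul_sum]
    refine Finset.sum_congr rfl fun i _ => ?_
    dsimp only
    rw [Finset.sum_const, nsmul_eq_mul]
  have s2 : ∑ k ∈ I ×ˢ O, w k.1 ^ 2 = O.card * ∑ i ∈ I, w i ^ 2 := by
    rw [Finset.sum_product, Finset.mul_sum]
    refine Finset.sum_congr rfl fun i _ => ?_
    dsimp only
    rw [Finset.sum_const, nsmul_eq_mul]
  have s3 : ∑ k ∈ I ×ˢ O, w k.1 * lam (a k.1 k.2 ^ b k.1) = O.card * ℓ * ∑ i ∈ I, w i * b i := by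
    rw [Finset.sum_product, Finset.mul_sum]
    refine Finset.sum_congr rfl fun i _ => ?_
    have : ∀ x ∈ O, w i * lam (a i x ^ b i) = w i * b i * ℓ := by
      intro x hx
      rw [lam_pow, lam_algEquiv, hlam x hx]
      ring
    rw [Finset.sum_congr rfl this, Finset.sum_const, nsmul_eq_mul]
    ring
  rw [s1, s2, s3] at h
  have hint : ∀ i ∈ I, ∀ x ∈ O, IsIntegral ℤ (a i x ^ b i) := by
    intro i _ x hx
    exact ((hO x hx).map (a i)).pow _
  have low : O.card * (finrank ℚ M * ∑ i ∈ I, ∑ j ∈ I, (if i = j then 0 else w i * w j * L i j)) ≤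
      ∑ k ∈ I ×ˢ O, ∑ k' ∈ I ×ˢ O, (if k = k' then 0 else
        w k.1 * w k'.1 * lN (a k.1 k.2 ^ b k.1 - a k'.1 k'.2 ^ b k'.1)) := by
    have e0 : ∑ k ∈ I ×ˢ O, ∑ k' ∈ I ×ˢ O, (if k = k' then 0 else
        w k.1 * w k'.1 * lN (a k.1 k.2 ^ b k.1 - a k'.1 k'.2 ^ b k'.1)) =
        ∑ i ∈ I, ∑ j ∈ I, ∑ x ∈ O, ∑ x' ∈ O, (if (i, x) = (j, x') then 0 else
        w i * w j * lN (a i x ^ b i - a j x' ^ b j)) := by
      rw [Finset.sum_product]
      refine Finset.sum_congr rfl fun i _ => ?_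
      rw [Finset.sum_comm]
      rw [Finset.sum_product]
      refine Finset.sum_congr rfl fun j _ => ?_
      rw [Finset.sum_comm]
    have e5 : O.card * (finrank ℚ M * ∑ i ∈ I, ∑ j ∈ I, (if i = j then 0 else w i * w j * L i j)) =
        ∑ i ∈ I, ∑ j ∈ I, (if i = j then 0 else w i * w j * (O.card * (L i j * finrank ℚ M))) := by
      rw [Finset.mul_sum, Finset.mul_sum]
      refine Finset.sum_congr rfl fun i _ => ?_
      rw [Finset.mul_sum, Finset.mul_sum]
      refine Finset.sum_congr rfl fun j _ => ?_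
      split_ifs
      · ring
      · ring
    rw [e0, e5]
    refine Finset.sum_le_sum fun i hi => Finset.sum_le_sum fun j hj => ?_
    by_cases hij : i = j
    · rw [if_pos hij]
      refine Finset.sum_nonneg fun x hx => Finset.sum_nonneg fun x' hx' => ?_
      split_ifs
      · exact le_rfl
      · exact mul_nonneg (mul_nonneg (hw _ hi) (hw _ hj))
          (lN_nonneg ((hint i hi x hx).sub (hint j hj x' hx')))
    · rw [if_neg hij]
      have e6 : ∑ x ∈ O, ∑ x' ∈ O, (if (i, x) = (j, x') then 0 else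
          w i * w j * lN (a i x ^ b i - a j x' ^ b j)) =
          w i * w j * ∑ x ∈ O, ∑ x' ∈ O, lN (a i x ^ b i - a j x' ^ b j) := by
        rw [Finset.mul_sum]
        refine Finset.sum_congr rfl fun x _ => ?_
        rw [Finset.mul_sum]
        refine Finset.sum_congr rfl fun x' _ => ?_
        rw [if_neg]
        intro h
        exact hij (Prod.ext_iff.mp h).1
      rw [e6]
      exact mul_le_mul_of_nonneg_left (hL i hi j hj hij) (mul_nonneg (hw _ hi) (hw _ hj))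
  have h2 := low.trans h
  have e7 : 2 * (O.card * ∑ i ∈ I, w i) * (O.card * ℓ * ∑ i ∈ I, w i * b i) +
      finrank ℚ M * ((O.card * ∑ i ∈ I, w i) ^ 2 / N + O.card * (∑ i ∈ I, w i ^ 2) * Real.log N) =
      O.card * (finrank ℚ M * (2 * (∑ i ∈ I, w i) * (∑ i ∈ I, w i * b i) *
        (O.card * (ℓ / finrank ℚ M)) +
        (O.card * (∑ i ∈ I, w i) ^ 2 / N + (∑ i ∈ I, w i ^ 2) * Real.log N))) := by
    field_simp
  rw [e7] at h2
  exact le_of_mul_le_mul_left (le_of_mul_le_mul_left h2 hD) hd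

lemma lN_neg (a : M) : lN (-a) = lN a := by
  rw [lN, lN]
  refine Finset.sum_congr rfl fun σ _ => ?_
  rw [map_neg, norm_neg]

lemma lN_sub_comm (a b : M) : lN (a - b) = lN (b - a) := by
  rw [← lN_neg, neg_sub]

end Pool.Agent.U218.RA
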