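import Mathlib
import Pool.Agent.U218.RA.En

/-! # Congruences -/

set_option autoImplicit false
set_option linter.all false

open Finset Module NumberField Polynomial

namespace Pool.Agent.U218.RA

open Pool.Agent.H388SL Pool.Agent.U218.LD

lemma charP_quot {R : Type*} [CommRing R] {p : ℕ} (hp : p.Prime) (J : Ideal R) (hJ : J ≠ ⊤)
    (h : (p : R) ∈ J) : CharP (R ⧸ J) p := by
  have hnt : Nontrivial (R ⧸ J) := Ideal.Quotient.nontrivial_iff.2 hJ
  have h1 : ringChar (R ⧸ J) = p := CharP.ringChar_of_prime_eq_zero hp (by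
    rw [← map_natCast (Ideal.Quotient.mk J)]
    exact Ideal.Quotient.eq_zero_iff_mem.2 h)
  exact h1 ▸ ringChar.charP (R ⧸ J)

/-- the Frobenius congruence -/
lemma frob_eval {R : Type*} [CommRing R] {p : ℕ} (hp : p.Prime) (J : Ideal R)
    (h : (p : R) ∈ J) (n : ℕ) (f g : R[X]) (hfg : ∀ k, g.coeff k ^ p ^ n - f.coeff k ∈ J)
    {y : R} (hy : g.eval y = 0) : f.eval (y ^ p ^ n) ∈ J := by
  by_cases hJ : J = ⊤
  · rw [hJ]; trivial
  have := charP_quot hp J hJ h
  have : Fact p.Prime := ⟨hp⟩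
  set N := max f.natDegree g.natDegree + 1
  have h1 : g.eval y = ∑ k ∈ Finset.range N, g.coeff k * y ^ k :=
    Polynomial.eval_eq_sum_range' (Nat.lt_succ_of_le (le_max_right _ _)) y
  have h2 : f.eval (y ^ p ^ n) = ∑ k ∈ Finset.range N, f.coeff k * (y ^ p ^ n) ^ k :=
    Polynomial.eval_eq_sum_range' (Nat.lt_succ_of_le (le_max_left _ _)) _
  rw [← Ideal.Quotient.eq_zero_iff_mem, h2, map_sum]
  have h3 : ∀ k ∈ Finset.range N, (Ideal.Quotient.mk J) (f.coeff k * (y ^ p ^ n) ^ k) =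
      ((Ideal.Quotient.mk J) (g.coeff k * y ^ k)) ^ p ^ n := by
    intro k _
    have h4 := hfg k
    rw [← Ideal.Quotient.eq, map_pow] at h4
    rw [map_mul, ← h4, map_mul, mul_pow, map_pow, map_pow, map_pow, ← pow_mul, ← pow_mul,
      mul_comm k]
  rw [Finset.sum_congr rfl h3, ← sum_pow_char_pow p, ← map_sum, ← h1, hy, map_zero, zero_pow]
  exact pow_ne_zero _ hp.ne_zero

/-- congruence of the polynomials of the `q`-th powers -/
lemma pow_eval {R : Type*} [CommRing R] {p : ℕ} (hp : p.Prime) (n : ℕ) (J : Ideal R) {ι : Type*}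
    (s : Finset ι) (y z : ι → R)
    (h : ∀ k, (∏ i ∈ s, (X - C (z i))).coeff k - (∏ i ∈ s, (X - C (y i))).coeff k ∈ J)
    {i : ι} (hi : i ∈ s) : ∃ u ∈ J ^ p ^ n, ∏ j ∈ s, (y i ^ p ^ n - z j ^ p ^ n) - u ∈
      Ideal.span {(p : R)} := by
  by_cases hJ : (Ideal.span {(p : R)}) = ⊤
  · exact ⟨0, zero_mem _, by rw [hJ]; trivial⟩
  have := charP_quot hp _ hJ (Ideal.mem_span_singleton_self _)
  have : Fact p.Prime := ⟨hp⟩
  set I := Ideal.span {(p : R)} with hI
  set F := ∏ i ∈ s, (X - C (y i)) with hF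
  set G := ∏ i ∈ s, (X - C (z i)) with hG
  set N := max F.natDegree G.natDegree + 1 with hN
  set w := y i ^ p ^ n with hw
  refine ⟨∑ k ∈ Finset.range N, (G.coeff k - F.coeff k) ^ p ^ n * w ^ k,
    Submodule.sum_mem _ fun k _ => Ideal.mul_mem_right _ _ (Ideal.pow_mem_pow (h k) _), ?_⟩
  rw [← Ideal.Quotient.eq_zero_iff_mem, map_sub, sub_eq_zero]
  have e : ∀ v : ι → R, (Ideal.Quotient.mk I) (∏ j ∈ s, (w - v j ^ p ^ n)) =
      ∑ k ∈ Finset.range (max (∏ j ∈ s, (X - C (v j))).natDegree N + 1),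
        ((Ideal.Quotient.mk I) ((∏ j ∈ s, (X - C (v j))).coeff k)) ^ p ^ n *
        (Ideal.Quotient.mk I w) ^ k := by
    intro v
    have e1 : (Ideal.Quotient.mk I) (∏ j ∈ s, (w - v j ^ p ^ n)) =
        (((∏ j ∈ s, (X - C (v j))).map (Ideal.Quotient.mk I)).map
          (iterateFrobenius (R ⧸ I) p n)).eval (Ideal.Quotient.mk I w) := by
      rw [Polynomial.map_prod, Polynomial.map_prod, Polynomial.eval_prod, map_prod]
      refine Finset.prod_congr rfl fun j _ => ?_
      simp [iterateFrobenius_def]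
    rw [e1, Polynomial.eval_eq_sum_range' (n := max (∏ j ∈ s, (X - C (v j))).natDegree N + 1)]
    · refine Finset.sum_congr rfl fun k _ => ?_
      rw [Polynomial.coeff_map, Polynomial.coeff_map, iterateFrobenius_def]
    · refine Nat.lt_succ_of_le (le_trans natDegree_map_le (natDegree_map_le.trans (le_max_left _ _)))
  have e' : ∀ v : ι → R, (∏ j ∈ s, (X - C (v j))).natDegree < N →
      (Ideal.Quotient.mk I) (∏ j ∈ s, (w - v j ^ p ^ n)) =
      ∑ k ∈ Finset.range N,
        ((Ideal.Quotient.mk I) ((∏ j ∈ s, (X - C (v j))).coeff k)) ^ p ^ n *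
        (Ideal.Quotient.mk I w) ^ k := by
    intro v hv
    rw [e v]
    symm
    apply Finset.sum_subset
    · apply Finset.range_mono
      exact (le_max_right _ _).trans (Nat.le_succ _)
    · intro k _ hk
      rw [Finset.mem_range, not_lt] at hk
      rw [Polynomial.coeff_eq_zero_of_natDegree_lt (lt_of_lt_of_le hv hk), map_zero, zero_pow
        (pow_ne_zero _ hp.ne_zero), zero_mul]
  have hz := e' z (Nat.lt_succ_of_le (le_max_right _ _))
  have hy := e' y (Nat.lt_succ_of_le (le_max_left _ _))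
  have hy0 : ∏ j ∈ s, (w - y j ^ p ^ n) = 0 := Finset.prod_eq_zero hi (by rw [hw, sub_self])
  rw [hy0, map_zero] at hy
  rw [hz, ← sub_zero (∑ k ∈ Finset.range N, _), hy, ← Finset.sum_sub_distrib, map_sum]
  refine Finset.sum_congr rfl fun k _ => ?_
  have h5 : (Ideal.Quotient.mk I) ((G.coeff k - F.coeff k) ^ p ^ n) =
      (Ideal.Quotient.mk I) (G.coeff k) ^ p ^ n - (Ideal.Quotient.mk I) (F.coeff k) ^ p ^ n := by
    rw [map_pow, map_sub, sub_pow_char_pow]
  rw [map_mul (Ideal.Quotient.mk I) ((G.coeff k - F.coeff k) ^ p ^ n), h5,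
    map_pow (Ideal.Quotient.mk I) w k, sub_mul]

end Pool.Agent.U218.RA
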