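import Mathlib
import Pool.Agent.U218.RA.Cg

/-! # The two inequalities -/

set_option autoImplicit false
set_option linter.all false

open Finset Module NumberField Polynomial

namespace Pool.Agent.U218.RA

open Pool.Agent.H388SL Pool.Agent.U218.LD

variable {M : Type*} [Field M] [NumberField M]

/-- the action on the ring of integers -/
noncomputable def rg (s : M ≃ₐ[ℚ] M) : 𝓞 M ≃ₐ[ℤ] 𝓞 M := galRestrict ℤ ℚ M (𝓞 M) s

lemma rg_coe (s : M ≃ₐ[ℚ] M) (x : 𝓞 M) : ((rg s x : 𝓞 M) : M) = s (x : M) :=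
  algebraMap_galRestrict_apply (A := ℤ) (K := ℚ) (σ := s) x

lemma rg_mul (s t : M ≃ₐ[ℚ] M) (x : 𝓞 M) : rg (s * t) x = rg s (rg t x) := by
  apply RingOfIntegers.coe_injective
  show ((rg (s * t) x : 𝓞 M) : M) = ((rg s (rg t x) : 𝓞 M) : M)
  rw [rg_coe, rg_coe, rg_coe, AlgEquiv.mul_apply]

lemma rg_one (x : 𝓞 M) : rg (1 : M ≃ₐ[ℚ] M) x = x := by
  apply RingOfIntegers.coe_injective
  show ((rg (1 : M ≃ₐ[ℚ] M) x : 𝓞 M) : M) = (x : M)
  rw [rg_coe, AlgEquiv.one_apply]

/-- the polynomial with the set `O` of zeros -/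
noncomputable def pol (O : Finset (𝓞 M)) : (𝓞 M)[X] := ∏ x ∈ O, (X - C x)

lemma pol_eval {O : Finset (𝓞 M)} {x : 𝓞 M} (hx : x ∈ O) : (pol O).eval x = 0 := by
  rw [pol, eval_prod]
  exact Finset.prod_eq_zero hx (by simp)

lemma pol_map (O : Finset (𝓞 M)) (s : M ≃ₐ[ℚ] M) :
    (pol O).map (rg s : 𝓞 M →+* 𝓞 M) = ∏ x ∈ O, (X - C (rg s x)) := by
  rw [pol, Polynomial.map_prod]
  simp

lemma pol_map_eval {O : Finset (𝓞 M)} (s : M ≃ₐ[ℚ] M) {x : 𝓞 M} (hx : x ∈ O) :
    ((pol O).map (rg s : 𝓞 M →+* 𝓞 M)).eval (rg s x) = 0 := by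
  rw [pol_map, eval_prod]
  exact Finset.prod_eq_zero hx (by simp)

/-- the coefficients of the polynomial are fixed by the automorphisms which preserve `O` -/
lemma pol_coeff [DecidableEq (𝓞 M)] {O : Finset (𝓞 M)} {g : M ≃ₐ[ℚ] M}
    (hg : O.image (rg g) = O) (k : ℕ) :
    rg g ((pol O).coeff k) = (pol O).coeff k := by
  have h1 := pol_map O g
  have h2 : ∏ x ∈ O, (X - C (rg g x)) = pol O := by
    conv_rhs => rw [pol, ← hg]
    rw [Finset.prod_image]
    intro x _ y _ h
    exact (rg g).injective h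
  rw [h2] at h1
  have h3 := congrArg (fun f => f.coeff k) h1
  simpa [Polynomial.coeff_map] using h3

lemma lN_prod_ge {p e : ℕ} (he : 0 < e) (O : Finset (𝓞 M)) (f : 𝓞 M → 𝓞 M) (z : 𝓞 M)
    (hne : ∀ x ∈ O, z ≠ f x) (h : (∏ x ∈ O, (z - f x)) ^ e ∈ Ideal.span {(p : 𝓞 M)}) :
    Real.log p / e * finrank ℚ M ≤ ∑ x ∈ O, lN ((z : M) - (f x : M)) := by
  obtain ⟨b, hb⟩ := Ideal.mem_span_singleton'.mp h
  have hne' : ∀ x ∈ O, (z : M) - (f x : M) ≠ 0 := by
    intro x hx h0
    exact hne x hx (RingOfIntegers.coe_injective (sub_eq_zero.mp h0))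
  rw [← lN_prod O _ hne']
  refine le_lN_of_pow (Finset.prod_ne_zero_iff.mpr hne') he (b := (b : M))
    (RingOfIntegers.isIntegral_coe b) ?_
  have h1 := congrArg (fun t : 𝓞 M => (t : M)) hb
  simp only [map_mul, map_pow, map_prod, map_sub, map_natCast] at h1
  rw [← h1, mul_comm]

open Classical in
/-- **many primes** -/
theorem stageA {O : Finset (𝓞 M)} (hO0 : O.Nonempty) {ℓ : ℝ} (hlam : ∀ x ∈ O, lam (x : M) = ℓ)
    (H : Subgroup (M ≃ₐ[ℚ] M)) (hHn : H.Normal) (hH : ∀ g ∈ H, O.image (rg g) = O)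
    (n : ℕ) (P : Finset ℕ) (hP : ∀ p ∈ P, p.Prime) (s : ℕ → (M ≃ₐ[ℚ] M))
    (J : ℕ → Ideal (𝓞 M)) {e : ℕ} (he : 0 < e)
    (hJp : ∀ p ∈ P, (p : 𝓞 M) ∈ J p)
    (hJ : ∀ p ∈ P, J p ^ e ≤ Ideal.span {(p : 𝓞 M)})
    (hA : ∀ p ∈ P, ∀ c : 𝓞 M, (∀ g ∈ H, rg g c = c) → c ^ p ^ n - rg (s p) c ∈ J p)
    (hinj : ∀ p ∈ P, ∀ x ∈ O, ∀ x' ∈ O, x ^ p ^ n = x' ^ p ^ n → x = x')
    (hne : ∀ g : M ≃ₐ[ℚ] M, ∀ a b : ℕ, a ≠ b → ∀ x ∈ O, ∀ x' ∈ O, (x : M) ^ a ≠ (g x') ^ b)
    (hn : n ≠ 0)
    {A : ℝ} (hA0 : 0 ≤ A) {N : ℝ} (hN : 1 ≤ N) :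
    2 * A / e * ∑ p ∈ P, Real.log p ≤
      2 * (A + P.card) * (A + ∑ p ∈ P, (p : ℝ) ^ n) * (O.card * (ℓ / finrank ℚ M)) +
        (O.card * (A + P.card) ^ 2 / N + (A ^ 2 + P.card) * Real.log N) := by
  have h1P : 1 ∉ P := fun h => Nat.not_prime_one (hP 1 h)
  set Q : Finset ℕ := insert 1 P with hQ
  set w : ℕ → ℝ := fun i => if i = 1 then A else 1 with hw
  set a : ℕ → (M ≃ₐ[ℚ] M) := fun i => if i = 1 then 1 else (s i)⁻¹ with ha
  have hpn : ∀ i ∈ Q, ∀ j ∈ Q, i ≠ j → i ^ n ≠ j ^ n := by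
    intro i _ j _ hij h
    exact hij (Nat.pow_left_injective hn h)
  -- the images in `M`
  set O' : Finset M := O.image (fun x : 𝓞 M => (x : M)) with hO'
  have hinjc : Function.Injective (fun x : 𝓞 M => (x : M)) := RingOfIntegers.coe_injective
  have hcard : O'.card = O.card := Finset.card_image_of_injective _ hinjc
  have hsum : ∀ f : M → ℝ, ∑ x ∈ O', f x = ∑ x ∈ O, f x := by
    intro f
    rw [hO', Finset.sum_image (fun x _ y _ h => hinjc h)]
  set L : ℕ → ℕ → ℝ := fun i j =>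
    if i = 1 then Real.log j / e else if j = 1 then Real.log i / e else 0 with hL
  -- the crucial products
  have hprod : ∀ p ∈ P, ∀ x ∈ O, Real.log p / e * finrank ℚ M ≤
      ∑ x' ∈ O, lN (((s p)⁻¹ (x : M)) ^ p ^ n - (x' : M)) := by
    intro p hp x hx
    have h1 := lN_prod_ge (p := p) he O (fun x' => x') ((rg (s p)⁻¹ x) ^ p ^ n) (by
      intro x' hx' h
      have h2 := congrArg (fun t : 𝓞 M => s p (t : M)) h
      simp only [map_pow, rg_coe] at h2
      rw [← AlgEquiv.mul_apply, mul_inv_cancel, AlgEquiv.one_apply] at h2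
      refine hne (s p) (p ^ n) 1 ?_ x hx x' hx' (by rw [pow_one]; exact h2)
      intro h3
      exact (hP p hp).ne_one (by simpa [hn] using h3)) (by
      refine hJ p hp (Ideal.pow_mem_pow ?_ e)
      have h2 := frob_eval (hP p hp) (J p) (hJp p hp) n (pol O)
        ((pol O).map (rg (s p)⁻¹ : 𝓞 M →+* 𝓞 M)) (by
          intro k
          have h3 := hA p hp (rg (s p)⁻¹ ((pol O).coeff k)) (by
            intro g hg
            have h4 : s p * g * (s p)⁻¹ ∈ H := hHn.conj_mem g hg (s p)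
            have h5 := pol_coeff (hH _ h4) k
            rw [← rg_mul, show g * (s p)⁻¹ = (s p)⁻¹ * (s p * g * (s p)⁻¹) by group, rg_mul, h5])
          rw [← rg_mul, mul_inv_cancel, rg_one] at h3
          rw [Polynomial.coeff_map]
          exact h3) (y := rg (s p)⁻¹ x) (pol_map_eval _ hx)
      rw [pol, eval_prod] at h2
      simpa using h2)
    simpa [rg_coe] using h1
  have hO'1 : O'.Nonempty := hO0.image _
  have hmem : ∀ x ∈ O', ∃ y ∈ O, (y : M) = x := by
    intro x hx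
    rw [hO', Finset.mem_image] at hx
    exact hx
  have ha1 : a 1 = 1 := by simp [ha]
  have hap : ∀ p ∈ P, a p = (s p)⁻¹ := by
    intro p hp
    simp [ha, (hP p hp).ne_one]
  have hw1 : w 1 = A := by simp [hw]
  have hwp : ∀ p ∈ P, w p = 1 := by
    intro p hp
    simp [hw, (hP p hp).ne_one]
  have hwnn : ∀ i ∈ Q, 0 ≤ w i := by
    intro i _
    rw [hw]; dsimp only; split_ifs
    · exact hA0
    · exact zero_le_one
  have main := main_ineq Q w hwnn O' (by
    intro x hx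
    obtain ⟨y, _, rfl⟩ := hmem x hx
    exact RingOfIntegers.isIntegral_coe y) hO'1 a (fun i => i ^ n) (ℓ := ℓ) (by
    intro x hx
    obtain ⟨y, hy, rfl⟩ := hmem x hx
    exact hlam y hy) (by
    intro i hi j hj x hx x' hx' hor heq
    obtain ⟨y, hy, rfl⟩ := hmem x hx
    obtain ⟨y', hy', rfl⟩ := hmem x' hx'
    by_cases hij : i = j
    · subst hij
      have hxx : y ≠ y' := by
        rintro rfl
        simp at hor
      have h1 : (y : M) ^ i ^ n = (y' : M) ^ i ^ n := by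
        apply (a i).injective
        rw [map_pow, map_pow]
        exact heq
      rw [hQ, Finset.mem_insert] at hi
      rcases hi with rfl | hi
      · rw [one_pow, pow_one, pow_one] at h1
        exact hxx (hinjc h1)
      · refine hxx (hinj i hi y hy y' hy' (hinjc ?_))
        simpa using h1
    · have h1 := congrArg (fun t => ((a i)⁻¹ : M ≃ₐ[ℚ] M) t) heq
      simp only [map_pow] at h1
      rw [← AlgEquiv.mul_apply, ← AlgEquiv.mul_apply, inv_mul_cancel,
        AlgEquiv.one_apply] at h1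
      exact hne ((a i)⁻¹ * a j) _ _ (hpn i hi j hj hij) y hy y' hy' h1) L (by
    intro i hi j hj hij
    rw [hcard, hsum]
    have e1 : ∀ x : 𝓞 M, ∑ x' ∈ O', lN (a i (x : M) ^ i ^ n - a j x' ^ j ^ n) =
        ∑ x' ∈ O, lN (a i (x : M) ^ i ^ n - a j (x' : M) ^ j ^ n) := fun x => hsum _
    rw [Finset.sum_congr rfl (fun x _ => e1 x)]
    rw [hQ, Finset.mem_insert] at hi hj
    rcases hi with rfl | hi
    · rcases hj with rfl | hj
      · exact absurd rfl hij
      · have e2 : L 1 j = Real.log j / e := by simp [hL]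
        rw [e2, Finset.sum_comm, ← nsmul_eq_mul]
        apply Finset.card_nsmul_le_sum
        intro x hx
        refine (hprod j hj x hx).trans (le_of_eq ?_)
        refine Finset.sum_congr rfl fun x' _ => ?_
        rw [lN_sub_comm, ha1, hap j hj, AlgEquiv.one_apply, one_pow, pow_one]
    · rcases hj with rfl | hj
      · have e2 : L i 1 = Real.log i / e := by simp [hL, (hP i hi).ne_one]
        rw [e2, ← nsmul_eq_mul]
        apply Finset.card_nsmul_le_sum
        intro x hx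
        refine (hprod i hi x hx).trans (le_of_eq ?_)
        refine Finset.sum_congr rfl fun x' _ => ?_
        rw [ha1, hap i hi, AlgEquiv.one_apply, one_pow, pow_one]
      · have e2 : L i j = 0 := by simp [hL, (hP i hi).ne_one, (hP j hj).ne_one]
        rw [e2, zero_mul, mul_zero]
        refine Finset.sum_nonneg fun x _ => Finset.sum_nonneg fun x' _ => lN_nonneg ?_
        exact (((RingOfIntegers.isIntegral_coe x).map (a i)).pow _).sub
          (((RingOfIntegers.isIntegral_coe x').map (a j)).pow _)) hN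
  have s1 : ∑ i ∈ Q, w i = A + P.card := by
    rw [hQ, Finset.sum_insert h1P, hw1, Finset.sum_congr rfl hwp]
    simp
  have s2 : ∑ i ∈ Q, w i ^ 2 = A ^ 2 + P.card := by
    rw [hQ, Finset.sum_insert h1P, hw1, Finset.sum_congr rfl (fun p hp => by rw [hwp p hp])]
    simp
  have s3 : ∑ i ∈ Q, w i * ((i ^ n : ℕ) : ℝ) = A + ∑ p ∈ P, (p : ℝ) ^ n := by
    rw [hQ, Finset.sum_insert h1P, hw1, Finset.sum_congr rfl (fun p hp => by rw [hwp p hp])]
    simp
  rw [s1, s2, s3, hcard] at main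
  refine le_trans (le_of_eq ?_) main
  rw [hQ, Finset.sum_insert h1P, Finset.sum_insert h1P, if_pos rfl, zero_add]
  have e3 : ∀ p ∈ P, (if 1 = p then 0 else w 1 * w p * L 1 p) = A * (Real.log p / e) := by
    intro p hp
    rw [if_neg (hP p hp).ne_one.symm, hw1, hwp p hp]
    simp [hL]
  have e4 : ∀ p ∈ P, ∑ j ∈ insert 1 P, (if p = j then 0 else w p * w j * L p j) =
      A * (Real.log p / e) := by
    intro p hp
    rw [Finset.sum_insert h1P, if_neg (hP p hp).ne_one, hw1, hwp p hp, Finset.sum_eq_zero]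
    · simp [hL, (hP p hp).ne_one]
    · intro q hq
      split_ifs with h
      · rfl
      · simp [hL, (hP p hp).ne_one, (hP q hq).ne_one]
  rw [Finset.sum_congr rfl e3, Finset.sum_congr rfl e4, ← Finset.mul_sum, ← Finset.sum_div]
  ring

open Classical in
/-- **one prime** -/
theorem stageB {O : Finset (𝓞 M)} (hO0 : O.Nonempty) {ℓ : ℝ} (hlam : ∀ x ∈ O, lam (x : M) = ℓ)
    {p : ℕ} (hp : p.Prime) (u : ℕ) (c : M ≃ₐ[ℚ] M) (t : ℕ) (J : Ideal (𝓞 M)) {m : ℕ} (hm : 0 < m)
    (hJ : J ^ (p ^ u * m) ≤ Ideal.span {(p : 𝓞 M)})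
    (hc : ∀ i < t, ∀ j < t, ∀ k, rg (c ^ i) ((pol O).coeff k) - rg (c ^ j) ((pol O).coeff k) ∈ J)
    (hinj : ∀ i < t, ∀ j < t, ∀ x ∈ O, ∀ x' ∈ O,
      rg (c ^ i) x ^ p ^ u = rg (c ^ j) x' ^ p ^ u → i = j ∧ x = x')
    {N : ℝ} (hN : 1 ≤ N) :
    t * (t - 1) * (Real.log p / m) ≤
      2 * t * (t * p ^ u) * (O.card * (ℓ / finrank ℚ M)) +
        (O.card * t ^ 2 / N + t * Real.log N) := by
  set O' : Finset M := O.image (fun x : 𝓞 M => (x : M)) with hO'
  have hinjc : Function.Injective (fun x : 𝓞 M => (x : M)) := RingOfIntegers.coe_injective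
  have hcard : O'.card = O.card := Finset.card_image_of_injective _ hinjc
  have hsum : ∀ f : M → ℝ, ∑ x ∈ O', f x = ∑ x ∈ O, f x := by
    intro f
    rw [hO', Finset.sum_image (fun x _ y _ h => hinjc h)]
  have hO'1 : O'.Nonempty := hO0.image _
  have hmem : ∀ x ∈ O', ∃ y ∈ O, (y : M) = x := by
    intro x hx
    rw [hO', Finset.mem_image] at hx
    exact hx
  have hmain : ∀ i < t, ∀ j < t, i ≠ j → ∀ x ∈ O, Real.log p / m * finrank ℚ M ≤
      ∑ x' ∈ O, lN ((c ^ i) (x : M) ^ p ^ u - (c ^ j) (x' : M) ^ p ^ u) := by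
    intro i hi j hj hij x hx
    have h1 := lN_prod_ge (p := p) hm O (fun x' => rg (c ^ j) x' ^ p ^ u) (rg (c ^ i) x ^ p ^ u)
      (by
        intro x' hx' h
        exact hij (hinj i hi j hj x hx x' hx' h).1) (by
        obtain ⟨v, hv, hv2⟩ := pow_eval hp u J O (fun x' => rg (c ^ i) x')
          (fun x' => rg (c ^ j) x') (by
            intro k
            have h2 := hc j hj i hi k
            have e1 := pol_map O (c ^ i)
            have e2 := pol_map O (c ^ j)
            rw [← e1, ← e2, Polynomial.coeff_map, Polynomial.coeff_map]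
            exact h2) hx
        set z := ∏ x' ∈ O, (rg (c ^ i) x ^ p ^ u - rg (c ^ j) x' ^ p ^ u) with hz
        have h3 : z ^ m - v ^ m ∈ Ideal.span {(p : 𝓞 M)} :=
          Ideal.mem_of_dvd _ (sub_dvd_pow_sub_pow z v m) hv2
        have h4 : v ^ m ∈ Ideal.span {(p : 𝓞 M)} := by
          apply hJ
          rw [pow_mul]
          exact Ideal.pow_mem_pow hv m
        have h5 := Ideal.add_mem _ h3 h4
        rwa [sub_add_cancel] at h5)
    simpa [rg_coe] using h1
  have main := main_ineq (Finset.range t) (fun _ => (1 : ℝ)) (fun _ _ => zero_le_one) O' (by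
    intro x hx
    obtain ⟨y, _, rfl⟩ := hmem x hx
    exact RingOfIntegers.isIntegral_coe y) hO'1 (fun i => c ^ i) (fun _ => p ^ u) (ℓ := ℓ) (by
    intro x hx
    obtain ⟨y, hy, rfl⟩ := hmem x hx
    exact hlam y hy) (by
    intro i hi j hj x hx x' hx' hor heq
    obtain ⟨y, hy, rfl⟩ := hmem x hx
    obtain ⟨y', hy', rfl⟩ := hmem x' hx'
    have h1 := hinj i (Finset.mem_range.mp hi) j (Finset.mem_range.mp hj) y hy y' hy' (by
      apply hinjc
      simpa [rg_coe] using heq)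
    rcases hor with h | h
    · exact h h1.1
    · exact h (by rw [h1.2])) (fun _ _ => Real.log p / m) (by
    intro i hi j hj hij
    rw [hcard, hsum, ← nsmul_eq_mul]
    apply Finset.card_nsmul_le_sum
    intro x hx
    rw [hsum]
    exact hmain i (Finset.mem_range.mp hi) j (Finset.mem_range.mp hj) hij x hx) hN
  rw [hcard] at main
  refine le_trans (le_of_eq ?_) (main.trans (le_of_eq ?_))
  · have e1 : ∀ i ∈ Finset.range t, ∑ j ∈ Finset.range t,
        (if i = j then (0 : ℝ) else 1 * 1 * (Real.log p / m)) = (t - 1) * (Real.log p / m) := by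
      intro i hi
      rw [← Finset.add_sum_erase _ _ hi, if_pos rfl, zero_add]
      rw [Finset.sum_congr rfl (g := fun _ => Real.log p / m) (by
        intro j hj
        rw [if_neg (Finset.ne_of_mem_erase hj).symm]; ring), Finset.sum_const,
        Finset.card_erase_of_mem hi, Finset.card_range, nsmul_eq_mul]
      have : 1 ≤ t := by have := Finset.mem_range.mp hi; omega
      push_cast [Nat.cast_sub this]
      ring
    rw [Finset.sum_congr rfl e1, Finset.sum_const, Finset.card_range, nsmul_eq_mul]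
    ring
  · simp only [Finset.sum_const, Finset.card_range, nsmul_eq_mul, one_pow, mul_one, one_mul]
    push_cast
    ring

end Pool.Agent.U218.RA
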