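import Mathlib
import Pool.Agent.U218.RA.St

/-! # Orbits and roots of unity -/

set_option autoImplicit false
set_option linter.all false

open Finset Module NumberField Polynomial

namespace Pool.Agent.U218.RA

variable {M : Type*} [Field M] [NumberField M]

/-- `x` is fixed by all `m`-th powers of automorphisms -/
def F0 (m : ℕ) (x : M) : Prop := ∀ τ : M ≃ₐ[ℚ] M, (τ ^ m) x = x

variable (M) in
/-- the automorphisms which fix the elements with `F0` and the `N`-th roots of unity -/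
def Fx (m N : ℕ) : Subgroup (M ≃ₐ[ℚ] M) where
  carrier := {g | (∀ x : M, F0 m x → g x = x) ∧ ∀ ζ : M, ζ ^ N = 1 → g ζ = ζ}
  mul_mem' := by
    rintro g h ⟨hg1, hg2⟩ ⟨hh1, hh2⟩
    refine ⟨fun x hx => ?_, fun ζ hζ => ?_⟩
    · rw [AlgEquiv.mul_apply, hh1 x hx, hg1 x hx]
    · rw [AlgEquiv.mul_apply, hh2 ζ hζ, hg2 ζ hζ]
  one_mem' := ⟨fun _ _ => rfl, fun _ _ => rfl⟩
  inv_mem' := by
    rintro g ⟨hg1, hg2⟩
    refine ⟨fun x hx => ?_, fun ζ hζ => ?_⟩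
    · conv_lhs => rw [← hg1 x hx]
      rw [← AlgEquiv.mul_apply, inv_mul_cancel, AlgEquiv.one_apply]
    · conv_lhs => rw [← hg2 ζ hζ]
      rw [← AlgEquiv.mul_apply, inv_mul_cancel, AlgEquiv.one_apply]

lemma mem_Fx {m N : ℕ} {g : M ≃ₐ[ℚ] M} : g ∈ Fx M m N ↔
    (∀ x : M, F0 m x → g x = x) ∧ ∀ ζ : M, ζ ^ N = 1 → g ζ = ζ := Iff.rfl

lemma F0_map {m : ℕ} {x : M} (hx : F0 m x) (h : M ≃ₐ[ℚ] M) : F0 m (h x) := by
  intro τ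
  have h1 := hx (h⁻¹ * τ * h)
  rw [show (h⁻¹ * τ * h) ^ m = h⁻¹ * τ ^ m * h by
    have := conj_pow (i := m) (a := h⁻¹) (b := τ)
    rwa [inv_inv] at this] at h1
  rw [AlgEquiv.mul_apply, AlgEquiv.mul_apply] at h1
  have h2 := congrArg h h1
  rwa [← AlgEquiv.mul_apply, mul_inv_cancel, AlgEquiv.one_apply] at h2

instance Fx_normal (m N : ℕ) : (Fx M m N).Normal := by
  constructor
  rintro g ⟨hg1, hg2⟩ h
  refine ⟨fun x hx => ?_, fun ζ hζ => ?_⟩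
  · rw [AlgEquiv.mul_apply, AlgEquiv.mul_apply, hg1 _ (F0_map hx h⁻¹), ← AlgEquiv.mul_apply,
      mul_inv_cancel, AlgEquiv.one_apply]
  · rw [AlgEquiv.mul_apply, AlgEquiv.mul_apply, hg2 (h⁻¹ ζ) (by rw [← map_pow, hζ, map_one]),
      ← AlgEquiv.mul_apply, mul_inv_cancel, AlgEquiv.one_apply]

lemma Fx_mono {m N N' : ℕ} (h : N ∣ N') : Fx M m N' ≤ Fx M m N := by
  rintro g ⟨hg1, hg2⟩
  refine ⟨hg1, fun ζ hζ => hg2 ζ ?_⟩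
  obtain ⟨k, rfl⟩ := h
  rw [pow_mul, hζ, one_pow]

lemma comm_root {N : ℕ} (hN : 0 < N) {ζ : M} (hζ : ζ ^ N = 1) (g h : M ≃ₐ[ℚ] M) :
    h (g ζ) = g (h ζ) := by
  have h1 := IsPrimitiveRoot.orderOf ζ
  have hpos : 0 < orderOf ζ := orderOf_pos_iff.mpr (isOfFinOrder_iff_pow_eq_one.mpr ⟨N, hN, hζ⟩)
  have : NeZero (orderOf ζ) := ⟨hpos.ne'⟩
  obtain ⟨a, _, ha⟩ := h1.eq_pow_of_pow_eq_one (ξ := g ζ) (by rw [← map_pow, pow_orderOf_eq_one, map_one])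
  obtain ⟨b, _, hb⟩ := h1.eq_pow_of_pow_eq_one (ξ := h ζ) (by rw [← map_pow, pow_orderOf_eq_one, map_one])
  rw [← ha, ← hb, map_pow, map_pow, ← hb, ← ha, ← pow_mul, ← pow_mul, mul_comm]

/-- automorphisms which fix the elements with `F0` are central modulo `Fx` -/
lemma comm_mem {m N : ℕ} (hN : 0 < N) {g : M ≃ₐ[ℚ] M} (hg : ∀ x : M, F0 m x → g x = x)
    (h : M ≃ₐ[ℚ] M) : g⁻¹ * (h * g * h⁻¹) ∈ Fx M m N := by
  have hgi : ∀ x : M, F0 m x → g⁻¹ x = x := by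
    intro x hx
    conv_lhs => rw [← hg x hx]
    rw [← AlgEquiv.mul_apply, inv_mul_cancel, AlgEquiv.one_apply]
  refine ⟨fun x hx => ?_, fun ζ hζ => ?_⟩
  · rw [AlgEquiv.mul_apply, AlgEquiv.mul_apply, AlgEquiv.mul_apply, hg _ (F0_map hx h⁻¹),
      ← AlgEquiv.mul_apply h, mul_inv_cancel, AlgEquiv.one_apply, hgi x hx]
  · rw [AlgEquiv.mul_apply, AlgEquiv.mul_apply, AlgEquiv.mul_apply,
      comm_root hN (ζ := h⁻¹ ζ) (by rw [← map_pow, hζ, map_one]) g h, ← AlgEquiv.mul_apply h,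
      mul_inv_cancel, AlgEquiv.one_apply, ← AlgEquiv.mul_apply, inv_mul_cancel, AlgEquiv.one_apply]

lemma exists_aut [IsGalois ℚ M] {n a : ℕ} (hn : 0 < n) {θ : M} (h : IsPrimitiveRoot θ n)
    (ha : a.Coprime n) : ∃ τ : M ≃ₐ[ℚ] M, τ θ = θ ^ a := by
  have h1 : minpoly ℚ θ = minpoly ℚ (θ ^ a) := by
    rw [← cyclotomic_eq_minpoly_rat h hn, ← cyclotomic_eq_minpoly_rat (h.pow_of_coprime a ha) hn]
  have h2 : IsConjRoot ℚ (θ ^ a) θ := h1.symm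
  obtain ⟨τ, hτ⟩ := isConjRoot_iff_exists_algEquiv.mp h2
  exact ⟨τ, hτ⟩

open Classical in
/-- the image of a finite set under an automorphism -/
noncomputable def act (g : M ≃ₐ[ℚ] M) (O : Finset (𝓞 M)) : Finset (𝓞 M) := O.image (rg g)

open Classical in
/-- the product of a finite set with a number -/
noncomputable def tw (ζ : 𝓞 M) (O : Finset (𝓞 M)) : Finset (𝓞 M) := O.image (fun x => ζ * x)

open Classical in
/-- the orbit -/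
noncomputable def orb (H : Subgroup (M ≃ₐ[ℚ] M)) (x : 𝓞 M) : Finset (𝓞 M) :=
  (Finset.univ.filter (· ∈ H)).image (fun g => rg g x)

lemma mem_orb {H : Subgroup (M ≃ₐ[ℚ] M)} {x y : 𝓞 M} : y ∈ orb H x ↔ ∃ g ∈ H, rg g x = y := by
  simp [orb]

lemma mem_act {g : M ≃ₐ[ℚ] M} {O : Finset (𝓞 M)} {y : 𝓞 M} : y ∈ act g O ↔ ∃ x ∈ O, rg g x = y := by
  simp [act]

lemma mem_tw {ζ : 𝓞 M} {O : Finset (𝓞 M)} {y : 𝓞 M} : y ∈ tw ζ O ↔ ∃ x ∈ O, ζ * x = y := by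
  simp [tw]

lemma act_mul (g h : M ≃ₐ[ℚ] M) (O : Finset (𝓞 M)) : act (g * h) O = act g (act h O) := by
  ext y
  simp only [mem_act]
  constructor
  · rintro ⟨x, hx, rfl⟩
    exact ⟨rg h x, ⟨x, hx, rfl⟩, (rg_mul g h x).symm⟩
  · rintro ⟨_, ⟨x, hx, rfl⟩, rfl⟩
    exact ⟨x, hx, rg_mul g h x⟩

lemma act_one (O : Finset (𝓞 M)) : act 1 O = O := by
  ext y
  simp [mem_act, rg_one]

lemma tw_one (O : Finset (𝓞 M)) : tw 1 O = O := by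
  ext y
  simp [mem_tw]

lemma tw_tw (ζ ξ : 𝓞 M) (O : Finset (𝓞 M)) : tw ζ (tw ξ O) = tw (ζ * ξ) O := by
  ext y
  simp only [mem_tw]
  constructor
  · rintro ⟨_, ⟨x, hx, rfl⟩, rfl⟩
    exact ⟨x, hx, by ring⟩
  · rintro ⟨x, hx, rfl⟩
    exact ⟨ξ * x, ⟨x, hx, rfl⟩, by ring⟩

lemma act_tw (g : M ≃ₐ[ℚ] M) (ζ : 𝓞 M) (O : Finset (𝓞 M)) :
    act g (tw ζ O) = tw (rg g ζ) (act g O) := by
  ext y
  simp only [mem_tw, mem_act]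
  constructor
  · rintro ⟨_, ⟨x, hx, rfl⟩, rfl⟩
    exact ⟨rg g x, ⟨x, hx, rfl⟩, by rw [map_mul]⟩
  · rintro ⟨_, ⟨x, hx, rfl⟩, rfl⟩
    exact ⟨ζ * x, ⟨x, hx, rfl⟩, by rw [map_mul]⟩

lemma act_card (g : M ≃ₐ[ℚ] M) (O : Finset (𝓞 M)) : (act g O).card = O.card := by
  classical
  rw [act]
  exact Finset.card_image_of_injective _ (rg g).injective

lemma tw_card {ζ : 𝓞 M} (hζ : ζ ≠ 0) (O : Finset (𝓞 M)) : (tw ζ O).card = O.card := by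
  classical
  rw [tw]
  exact Finset.card_image_of_injective _ (mul_right_injective₀ hζ)

lemma self_mem_orb (H : Subgroup (M ≃ₐ[ℚ] M)) (x : 𝓞 M) : x ∈ orb H x :=
  mem_orb.2 ⟨1, H.one_mem, rg_one x⟩

lemma orb_eq {H : Subgroup (M ≃ₐ[ℚ] M)} {x y : 𝓞 M} (h : y ∈ orb H x) : orb H y = orb H x := by
  obtain ⟨g, hg, rfl⟩ := mem_orb.1 h
  ext z
  rw [mem_orb, mem_orb]
  constructor
  · rintro ⟨k, hk, rfl⟩
    exact ⟨k * g, H.mul_mem hk hg, rg_mul k g x⟩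
  · rintro ⟨k, hk, rfl⟩
    refine ⟨k * g⁻¹, H.mul_mem hk (H.inv_mem hg), ?_⟩
    rw [← rg_mul, inv_mul_cancel_right]

lemma orb_mono {H H' : Subgroup (M ≃ₐ[ℚ] M)} (h : H ≤ H') (x : 𝓞 M) : orb H x ⊆ orb H' x := by
  intro y hy
  obtain ⟨g, hg, rfl⟩ := mem_orb.1 hy
  exact mem_orb.2 ⟨g, h hg, rfl⟩

lemma act_orb {H : Subgroup (M ≃ₐ[ℚ] M)} [H.Normal] (g : M ≃ₐ[ℚ] M) (x : 𝓞 M) :
    act g (orb H x) = orb H (rg g x) := by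
  ext y
  rw [mem_act, mem_orb]
  constructor
  · rintro ⟨z, hz, rfl⟩
    obtain ⟨k, hk, rfl⟩ := mem_orb.1 hz
    refine ⟨g * k * g⁻¹, Subgroup.Normal.conj_mem inferInstance k hk g, ?_⟩
    rw [← rg_mul, ← rg_mul, inv_mul_cancel_right]
  · rintro ⟨k, hk, rfl⟩
    refine ⟨rg (g⁻¹ * k * g) x, mem_orb.2 ⟨g⁻¹ * k * g, ?_, rfl⟩, ?_⟩
    · have := Subgroup.Normal.conj_mem inferInstance k hk g⁻¹
      rwa [inv_inv] at this
    · rw [← rg_mul, ← rg_mul]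
      congr 1
      group

lemma tw_orb {H : Subgroup (M ≃ₐ[ℚ] M)} {ζ : 𝓞 M} (hζ : ∀ g ∈ H, rg g ζ = ζ) (x : 𝓞 M) :
    tw ζ (orb H x) = orb H (ζ * x) := by
  ext y
  rw [mem_tw, mem_orb]
  constructor
  · rintro ⟨z, hz, rfl⟩
    obtain ⟨k, hk, rfl⟩ := mem_orb.1 hz
    exact ⟨k, hk, by rw [map_mul, hζ k hk]⟩
  · rintro ⟨k, hk, rfl⟩
    exact ⟨rg k x, mem_orb.2 ⟨k, hk, rfl⟩, by rw [map_mul, hζ k hk]⟩

lemma act_orb_self {H : Subgroup (M ≃ₐ[ℚ] M)} {g : M ≃ₐ[ℚ] M} (hg : g ∈ H) (x : 𝓞 M) :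
    act g (orb H x) = orb H x := by
  ext y
  rw [mem_act, mem_orb]
  constructor
  · rintro ⟨z, hz, rfl⟩
    obtain ⟨k, hk, rfl⟩ := mem_orb.1 hz
    exact ⟨g * k, H.mul_mem hg hk, rg_mul g k x⟩
  · rintro ⟨k, hk, rfl⟩
    refine ⟨rg (g⁻¹ * k) x, mem_orb.2 ⟨_, H.mul_mem (H.inv_mem hg) hk, rfl⟩, ?_⟩
    rw [← rg_mul, mul_inv_cancel_left]

lemma rg_root {m N : ℕ} {g : M ≃ₐ[ℚ] M} (hg : g ∈ Fx M m N) {ζ : 𝓞 M} (hζ : ζ ^ N = 1) :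
    rg g ζ = ζ := by
  apply RingOfIntegers.coe_injective
  show ((rg g ζ : 𝓞 M) : M) = (ζ : M)
  rw [rg_coe]
  apply hg.2
  have := congrArg (fun t : 𝓞 M => (t : M)) hζ
  simpa using this

end Pool.Agent.U218.RA
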