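import Mathlib
import Pool.Agent.U218.RA.Orb

/-! # Orbits and roots of unity: the choice of the level, and the consequences of minimality -/

set_option autoImplicit false
set_option linter.all false

open Finset Module NumberField Polynomial

namespace Pool.Agent.U218.RA

variable {M : Type*} [Field M] [NumberField M]

/-- no root of unity of order `p` preserves `O` -/
def Gd (p : ℕ) (O : Finset (𝓞 M)) : Prop := ∀ ζ : 𝓞 M, ζ ^ p = 1 → tw ζ O = O → ζ = 1

lemma tw_pow {ζ : 𝓞 M} {O : Finset (𝓞 M)} (h : tw ζ O = O) (j : ℕ) : tw (ζ ^ j) O = O := by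
  induction j with
  | zero => rw [pow_zero, tw_one]
  | succ j ih => rw [pow_succ, ← tw_tw, h, ih]

lemma Gd.pow {p : ℕ} {O : Finset (𝓞 M)} (hg : Gd p O) (k : ℕ) : ∀ ζ : 𝓞 M, ζ ^ p ^ k = 1 →
    tw ζ O = O → ζ = 1 := by
  induction k with
  | zero => intro ζ h _; simpa using h
  | succ k ih =>
    intro ζ h h2
    refine hg ζ ?_ h2
    refine ih (ζ ^ p) ?_ (tw_pow h2 p)
    rw [← pow_mul, ← pow_succ']
    exact h

lemma Gd.tw {p : ℕ} {O : Finset (𝓞 M)} (hg : Gd p O) {ω ω' : 𝓞 M} (h : ω' * ω = 1) :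
    Gd p (Pool.Agent.U218.RA.tw ω O) := by
  intro ζ hζ h2
  refine hg ζ hζ ?_
  have h3 := congrArg (Pool.Agent.U218.RA.tw ω') h2
  rw [tw_tw, tw_tw, tw_tw, show ω' * ζ * ω = ζ * (ω' * ω) by ring, h, mul_one, tw_one] at h3
  exact h3

lemma card_bad {O : Finset (𝓞 M)} (hO : O.Nonempty) (h0 : (0 : 𝓞 M) ∉ O) (B : Finset ℕ)
    (hB : ∀ p ∈ B, p.Prime ∧ ¬ Gd p O) : 2 ^ B.card ≤ O.card := by
  classical
  obtain ⟨x0, hx0⟩ := hO
  have hx00 : x0 ≠ 0 := fun h => h0 (h ▸ hx0)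
  let S : Subgroup (𝓞 M)ˣ :=
    { carrier := {u | tw (u : 𝓞 M) O = O}
      mul_mem' := by
        intro u v hu hv
        show tw ((u * v : (𝓞 M)ˣ) : 𝓞 M) O = O
        rw [Units.val_mul, ← tw_tw]
        rw [show tw (v : 𝓞 M) O = O from hv]
        exact hu
      one_mem' := by
        show tw ((1 : (𝓞 M)ˣ) : 𝓞 M) O = O
        rw [Units.val_one, tw_one]
      inv_mem' := by
        intro u hu
        show tw ((u⁻¹ : (𝓞 M)ˣ) : 𝓞 M) O = O
        have h1 : tw ((u⁻¹ : (𝓞 M)ˣ) : 𝓞 M) (tw (u : 𝓞 M) O) = O := by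
          rw [tw_tw, Units.inv_mul, tw_one]
        rwa [show tw (u : 𝓞 M) O = O from hu] at h1 }
  have hmem : ∀ u ∈ S, ((u : (𝓞 M)ˣ) : 𝓞 M) * x0 ∈ O := by
    intro u hu
    have h1 : tw (u : 𝓞 M) O = O := hu
    rw [← h1, mem_tw]
    exact ⟨x0, hx0, rfl⟩
  let f : S → O := fun u => ⟨((u : (𝓞 M)ˣ) : 𝓞 M) * x0, hmem u u.2⟩
  have hf : Function.Injective f := by
    intro u v h
    have h1 : ((u : (𝓞 M)ˣ) : 𝓞 M) * x0 = ((v : (𝓞 M)ˣ) : 𝓞 M) * x0 := congrArg Subtype.val h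
    exact Subtype.ext (Units.ext (mul_right_cancel₀ hx00 h1))
  have hfin : Finite S := Finite.of_injective f hf
  have hcard : Nat.card S ≤ O.card := by
    have h1 := Nat.card_le_card_of_injective f hf
    rwa [Nat.card_eq_fintype_card (α := O), Fintype.card_coe] at h1
  have hdvd : ∏ p ∈ B, p ∣ Nat.card S := by
    apply Finset.prod_primes_dvd
    · intro p hp
      exact (hB p hp).1.prime
    · intro p hp
      obtain ⟨hpp, hng⟩ := hB p hp
      rw [Gd] at hng
      push Not at hng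
      obtain ⟨ζ, hζ, hζO, hζ1⟩ := hng
      let u : (𝓞 M)ˣ := ⟨ζ, ζ ^ (p - 1), by
        rw [← pow_succ', Nat.sub_add_cancel hpp.one_lt.le, hζ], by
        rw [← pow_succ, Nat.sub_add_cancel hpp.one_lt.le, hζ]⟩
      have hu : u ∈ S := hζO
      have h1 : orderOf (⟨u, hu⟩ : S) = p := by
        have : Fact p.Prime := ⟨hpp⟩
        apply orderOf_eq_prime
        · apply Subtype.ext
          apply Units.ext
          show ζ ^ p = 1
          exact hζ
        · intro h
          apply hζ1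
          have := congrArg (fun t : S => (((t : (𝓞 M)ˣ)) : 𝓞 M)) h
          exact this
      rw [← h1]
      exact orderOf_dvd_natCard _
  have hpos : 0 < Nat.card S := Nat.card_pos
  calc 2 ^ B.card = ∏ _p ∈ B, 2 := by rw [Finset.prod_const]
    _ ≤ ∏ p ∈ B, p := Finset.prod_le_prod' fun p hp => (hB p hp).1.two_le
    _ ≤ Nat.card S := Nat.le_of_dvd hpos hdvd
    _ ≤ _ := hcard

/-- the choice of the level `N` and of the root of unity `ω` -/
theorem exists_min (m : ℕ) {N0 : ℕ} (hN0 : 0 < N0) (x0 : 𝓞 M) : ∃ N : ℕ, 0 < N ∧ N ∣ N0 ∧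
    ∃ ω : 𝓞 M, ω ^ N0 = 1 ∧
      orb (Fx M m N) (ω * x0) = orb (Fx M m N0) (ω * x0) ∧
      (∀ N' < N, 0 < N' → N' ∣ N0 → ∀ ω' : 𝓞 M, ω' ^ N0 = 1 →
        (orb (Fx M m N0) x0).card < (orb (Fx M m N') (ω' * x0)).card) := by
  classical
  have hone : (1 : 𝓞 M) ^ N0 = 1 := one_pow _
  have hex : ∃ N : ℕ, 0 < N ∧ N ∣ N0 ∧ ∃ ω : 𝓞 M, ω ^ N0 = 1 ∧
      (orb (Fx M m N) (ω * x0)).card ≤ (orb (Fx M m N0) x0).card :=
    ⟨N0, hN0, dvd_rfl, 1, hone, by rw [one_mul]⟩
  obtain ⟨h1, h2, ω, hω, h3⟩ := Nat.find_spec hex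
  refine ⟨Nat.find hex, h1, h2, ω, hω, ?_, ?_⟩
  · symm
    apply Finset.eq_of_subset_of_card_le (orb_mono (Fx_mono h2) _)
    have hω0 : ω ≠ 0 := by
      rintro rfl
      rw [zero_pow hN0.ne'] at hω
      exact zero_ne_one hω
    rw [← tw_orb (fun g hg => rg_root hg hω), tw_card hω0]
    exact h3
  · intro N' hN' hpos hdvd ω' hω'
    have := Nat.find_min hex hN'
    push Not at this
    exact this hpos hdvd ω' hω'

lemma one_add_pow {p N : ℕ} (h : p ∣ N) (m : ℕ) : ∃ t, (1 + N) ^ m = 1 + m * N + p * N * t := by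
  obtain ⟨k, hk⟩ := h
  induction m with
  | zero => exact ⟨0, by simp⟩
  | succ m ih =>
    obtain ⟨t, ht⟩ := ih
    refine ⟨t + m * k + N * t, ?_⟩
    rw [pow_succ, ht]
    have : N * N = p * N * k := by rw [hk]; ring
    calc (1 + m * N + p * N * t) * (1 + N) = 1 + (m + 1) * N + p * N * t + m * (N * N) +
        p * N * t * N := by ring
      _ = _ := by rw [this]; ring

/-- roots of unity which are fixed by `Fx M m N` -/
theorem fixed_root [IsGalois ℚ M] {m p N N0 : ℕ} (hp : p.Prime) (hpm : ¬ p ∣ m) (hN : 0 < N) (hN0 : 0 < N0)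
    (hNN : N ∣ N0) (hpN : p ∣ N) {θ : M} (hθ : IsPrimitiveRoot θ N0) (k : ℕ) :
    ∀ ζ : M, ζ ^ N0 = 1 → ζ ^ p ^ k = 1 → (∀ g ∈ Fx M m N, g ζ = ζ) → ζ ^ N = 1 := by
  induction k with
  | zero => intro ζ _ h _; rw [pow_zero, pow_one] at h; rw [h, one_pow]
  | succ k ih =>
    intro ζ hζ h hfix
    have h1 : ζ ^ (p * N) = 1 := by
      have := ih (ζ ^ p) (by rw [← pow_mul, mul_comm, pow_mul, hζ, one_pow])
        (by rw [← pow_mul, ← pow_succ']; exact h) (fun g hg => by rw [map_pow, hfix g hg])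
      rwa [← pow_mul] at this
    obtain ⟨r, hr⟩ := hNN
    by_cases hpr : p ∣ r
    · -- there is an automorphism which moves `ζ` unless `ζ ^ N = 1`
      obtain ⟨r', rfl⟩ := hpr
      have hr'0 : 0 < r' := by
        rcases Nat.eq_zero_or_pos r' with h0 | h0
        · rw [h0] at hr; simp at hr; omega
        · exact h0
      have hθ' : IsPrimitiveRoot (θ ^ r') (p * N) := hθ.pow hN0 (by rw [hr]; ring)
      have hpN0 : 0 < p * N := Nat.mul_pos hp.pos hN
      have hcop : (1 + N).Coprime (p * N) := by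
        have h2 : (1 + N).Coprime N := by simp
        exact Nat.Coprime.mul_right (Nat.Coprime.coprime_dvd_right hpN h2) h2
      obtain ⟨τ, hτ⟩ := exists_aut hpN0 hθ' hcop
      have hne : NeZero (p * N) := ⟨hpN0.ne'⟩
      have hact : ∀ ξ : M, ξ ^ (p * N) = 1 → τ ξ = ξ ^ (1 + N) := by
        intro ξ hξ
        obtain ⟨i, _, rfl⟩ := hθ'.eq_pow_of_pow_eq_one hξ
        rw [map_pow, hτ]
        exact pow_right_comm _ _ _
      have hactm : ∀ (j : ℕ) (ξ : M), ξ ^ (p * N) = 1 → (τ ^ j) ξ = ξ ^ ((1 + N) ^ j) := by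
        intro j
        induction j with
        | zero => intro ξ _; rw [pow_zero, pow_zero, pow_one]; rfl
        | succ j ih =>
          intro ξ hξ
          rw [pow_succ', AlgEquiv.mul_apply, ih ξ hξ, map_pow, hact ξ hξ, ← pow_mul, pow_succ,
            mul_comm]
      have hmem : τ ^ m ∈ Fx M m N := by
        refine ⟨fun x hx => hx τ, fun ξ hξ => ?_⟩
        have hξ' : ξ ^ (p * N) = 1 := by rw [mul_comm, pow_mul, hξ, one_pow]
        rw [hactm m ξ hξ']
        obtain ⟨t, ht⟩ := one_add_pow hpN m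
        rw [ht, show 1 + m * N + p * N * t = 1 + N * (m + p * t) by ring, pow_add, pow_one,
          pow_mul, hξ, one_pow, mul_one]
      have h3 := hfix _ hmem
      rw [hactm m ζ h1] at h3
      obtain ⟨t, ht⟩ := one_add_pow hpN m
      have hζ0 : ζ ≠ 0 := by
        rintro rfl
        rw [zero_pow hN0.ne'] at hζ
        exact zero_ne_one hζ
      rw [ht, show 1 + m * N + p * N * t = m * N + p * N * t + 1 by ring, pow_succ, pow_add,
        pow_mul ζ (p * N) t, h1, one_pow, mul_one] at h3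
      have h4 : ζ ^ (m * N) = 1 := mul_right_cancel₀ hζ0 (by rw [h3, one_mul])
      have h5 : (ζ ^ N) ^ m = 1 := by rw [← pow_mul, mul_comm]; exact h4
      have h6 : (ζ ^ N) ^ p = 1 := by rw [← pow_mul, mul_comm]; exact h1
      have h7 := orderOf_dvd_of_pow_eq_one h5
      have h8 := orderOf_dvd_of_pow_eq_one h6
      have h9 : orderOf (ζ ^ N) = 1 := by
        rcases (Nat.dvd_prime hp).1 h8 with h9 | h9
        · exact h9
        · exact absurd (h9 ▸ h7) hpm
      exact orderOf_eq_one_iff.1 h9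
    · have h2 : (ζ ^ N) ^ r = 1 := by rw [← pow_mul, ← hr]; exact hζ
      have h3 : (ζ ^ N) ^ p = 1 := by rw [← pow_mul, mul_comm]; exact h1
      have h7 := orderOf_dvd_of_pow_eq_one h2
      have h8 := orderOf_dvd_of_pow_eq_one h3
      have h9 : orderOf (ζ ^ N) = 1 := by
        rcases (Nat.dvd_prime hp).1 h8 with h9 | h9
        · exact h9
        · exact absurd (h9 ▸ h7) hpr
      exact orderOf_eq_one_iff.1 h9

end Pool.Agent.U218.RA
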