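import Mathlib
import Pool.Agent.U218.RA.Orb2

/-! # Orbits and roots of unity: wild and tame primes -/

set_option autoImplicit false
set_option linter.all false

open Finset Module NumberField Polynomial

namespace Pool.Agent.U218.RA

variable {M : Type*} [Field M] [NumberField M]

lemma act_eq_act {g : M ≃ₐ[ℚ] M} {O O' : Finset (𝓞 M)} (h : act g O = act g O') : O = O' := by
  have := congrArg (act g⁻¹) h
  rwa [← act_mul, ← act_mul, inv_mul_cancel, act_one, act_one] at this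

lemma tw_cancel {ζ ζ' : 𝓞 M} (hζ : ζ' * ζ = 1) {O O' : Finset (𝓞 M)} (h : tw ζ O = tw ζ O') :
    O = O' := by
  have := congrArg (tw ζ') h
  rwa [tw_tw, tw_tw, hζ, tw_one, tw_one] at this

lemma inv_root {N : ℕ} (hN : 0 < N) {ζ : 𝓞 M} (hζ : ζ ^ N = 1) : ζ ^ (N - 1) * ζ = 1 := by
  rw [← pow_succ, Nat.sub_add_cancel hN, hζ]

/-- if `γ O = ζ O` then `ζ` is fixed by `Fx M m N` -/
lemma fix_of_act {m N N0 p k : ℕ} (hN0 : 0 < N0) {O : Finset (𝓞 M)}
    (hO : ∀ g ∈ Fx M m N, act g O = O) (hgd : Gd p O) {γ : M ≃ₐ[ℚ] M} {ζ : 𝓞 M}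
    (hζ : ζ ^ N0 = 1) (hζp : ζ ^ p ^ k = 1) (h : act γ O = tw ζ O) :
    ∀ g ∈ Fx M m N, rg g ζ = ζ := by
  intro g hg
  have h1 : act g (act γ O) = act γ O := by
    have h2 : γ⁻¹ * g * γ ∈ Fx M m N := by
      have := Subgroup.Normal.conj_mem (H := Fx M m N) inferInstance g hg γ⁻¹
      rwa [inv_inv] at this
    have h3 := hO _ h2
    calc act g (act γ O) = act γ (act (γ⁻¹ * g * γ) O) := by
          rw [← act_mul, ← act_mul]; congr 1; group
      _ = act γ O := by rw [h3]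
  rw [h, act_tw, hO g hg] at h1
  set ζ' := ζ ^ (N0 - 1) with hζ'
  have hinv : ζ' * ζ = 1 := inv_root hN0 hζ
  have h2 := congrArg (tw ζ') h1
  rw [tw_tw, tw_tw, hinv, tw_one] at h2
  have h3 : (ζ' * rg g ζ) ^ p ^ k = 1 := by
    rw [mul_pow, ← map_pow, hζp, map_one, mul_one, hζ', ← pow_mul, mul_comm, pow_mul, hζp, one_pow]
  have h4 := hgd.pow k _ h3 h2
  calc rg g ζ = (ζ' * ζ) * rg g ζ := by rw [hinv, one_mul]
    _ = ζ * (ζ' * rg g ζ) := by ring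
    _ = ζ := by rw [h4, mul_one]

lemma coe_pow_eq_one {x : 𝓞 M} {n : ℕ} : (x : M) ^ n = 1 ↔ x ^ n = 1 := by
  constructor
  · intro h
    apply RingOfIntegers.coe_injective
    simpa using h
  · intro h
    have := congrArg (fun t : 𝓞 M => (t : M)) h
    simpa using this

lemma coe_rg_eq {g : M ≃ₐ[ℚ] M} {x : 𝓞 M} : g (x : M) = x ↔ rg g x = x := by
  constructor
  · intro h
    apply RingOfIntegers.coe_injective
    show ((rg g x : 𝓞 M) : M) = (x : M)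
    rw [rg_coe, h]
  · intro h
    rw [← rg_coe, h]

/-- if `γ O = ζ O` then `ζ ^ N = 1` -/
lemma root_of_act [IsGalois ℚ M] {m N N0 p k : ℕ} (hp : p.Prime) (hpm : ¬ p ∣ m) (hN : 0 < N)
    (hN0 : 0 < N0) (hNN : N ∣ N0) (hpN : p ∣ N) {θ : M} (hθ : IsPrimitiveRoot θ N0)
    {O : Finset (𝓞 M)}
    (hO : ∀ g ∈ Fx M m N, act g O = O) (hgd : Gd p O) {γ : M ≃ₐ[ℚ] M} {ζ : 𝓞 M}
    (hζ : ζ ^ N0 = 1) (hζp : ζ ^ p ^ k = 1) (h : act γ O = tw ζ O) : ζ ^ N = 1 := by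
  rw [← coe_pow_eq_one]
  refine fixed_root hp hpm hN hN0 hNN hpN hθ k (ζ : M) (coe_pow_eq_one.2 hζ) (coe_pow_eq_one.2 hζp)
    fun g hg => ?_
  rw [coe_rg_eq]
  exact fix_of_act hN0 hO hgd hζ hζp h g hg

/-- **wild primes**: the conjugates of `O` are essentially different -/
theorem wild [IsGalois ℚ M] {m N N0 p k : ℕ} (hp : p.Prime) (hp2 : p ≠ 2) (hpm : ¬ p ∣ m)
    (hN : 0 < N) (hN0 : 0 < N0) (hNN : N ∣ N0) (hpN : p ^ 2 ∣ N) {θ : M}
    (hθ : IsPrimitiveRoot θ N0) {x : 𝓞 M} (hx : orb (Fx M m N) x = orb (Fx M m N0) x)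
    (hmin : ∀ ω : 𝓞 M, ω ^ N0 = 1 → (orb (Fx M m N0) x).card < (orb (Fx M m (N / p)) (ω * x)).card)
    (hgd : Gd p (orb (Fx M m N0) x)) {γ : M ≃ₐ[ℚ] M} (hγ1 : γ ∈ Fx M m (N / p))
    (hγ2 : γ ∉ Fx M m N) {ζ : 𝓞 M} (hζ : ζ ^ N0 = 1) (hζp : ζ ^ p ^ k = 1) :
    act γ (orb (Fx M m N0) x) ≠ tw ζ (orb (Fx M m N0) x) := by
  intro hact
  set O := orb (Fx M m N0) x with hOdef
  have hpN1 : p ∣ N := (dvd_pow_self p two_ne_zero).trans hpN
  have hO : ∀ g ∈ Fx M m N, act g O = O := by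
    intro g hg
    rw [← hx]
    exact act_orb_self hg x
  have hζN : ζ ^ N = 1 := root_of_act hp hpm hN hN0 hNN hpN1 hθ hO hgd hζ hζp hact
  -- a primitive `N`-th root of unity
  obtain ⟨r, hr⟩ := hNN
  have hηM : IsPrimitiveRoot (θ ^ r) N := hθ.pow hN0 (by rw [hr, mul_comm])
  have hηint : IsIntegral ℤ (θ ^ r) := ⟨X ^ N - 1, monic_X_pow_sub_C 1 hN.ne', by
    simp [hηM.pow_eq_one]⟩
  obtain ⟨η, hη'⟩ : ∃ η : 𝓞 M, (η : M) = θ ^ r := ⟨⟨θ ^ r, hηint⟩, rfl⟩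
  have hη : IsPrimitiveRoot η N := by
    rw [← hη'] at hηM
    exact IsPrimitiveRoot.of_map_of_injective hηM RingOfIntegers.coe_injective
  have hηN : η ^ N = 1 := hη.pow_eq_one
  have hne : NeZero N := ⟨hN.ne'⟩
  set η' := η ^ (N - 1) with hη'def
  have hηinv : η' * η = 1 := inv_root hN hηN
  have hη'N : η' ^ N = 1 := by rw [hη'def, ← pow_mul, mul_comm, pow_mul, hηN, one_pow]
  have hNp : p * (N / p) = N := Nat.mul_div_cancel' hpN1
  have hpNp : p ∣ N / p := by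
    obtain ⟨j, hj⟩ := hpN
    refine ⟨j, ?_⟩
    rw [hj, pow_two, mul_assoc, Nat.mul_div_cancel_left _ hp.pos]
  have hNp0 : 0 < N / p := Nat.div_pos (Nat.le_of_dvd hN hpN1) hp.pos
  -- the action on `η`
  have hmove : ∀ g ∈ Fx M m (N / p), (η' * rg g η) ^ p = 1 := by
    intro g hg
    have h1 : rg g (η ^ p) = η ^ p := rg_root hg (by rw [← pow_mul, hNp, hηN])
    rw [mul_pow, ← map_pow, h1, ← mul_pow, hηinv, one_pow]
  have hmove2 : ∀ g : M ≃ₐ[ℚ] M, rg g η = η * (η' * rg g η) := by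
    intro g
    calc rg g η = (η' * η) * rg g η := by rw [hηinv, one_mul]
      _ = _ := by ring
  set ε := η' * rg γ η with hε
  have hεp : ε ^ p = 1 := hmove γ hγ1
  have hγη : rg γ η = η * ε := hmove2 γ
  have hroots : ∀ g : M ≃ₐ[ℚ] M, rg g η = η → ∀ ξ : M, ξ ^ N = 1 → g ξ = ξ := by
    intro g hg ξ hξ
    obtain ⟨i, _, hi⟩ := hηM.eq_pow_of_pow_eq_one hξ
    rw [← hi, ← hη', map_pow, coe_rg_eq.2 hg]
  have hε1 : ε ≠ 1 := by
    intro h
    apply hγ2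
    exact ⟨hγ1.1, hroots γ (by rw [hγη, h, mul_one])⟩
  have hεprim : IsPrimitiveRoot ε p := by
    have h1 : orderOf ε = p := by
      have : Fact p.Prime := ⟨hp⟩
      exact orderOf_eq_prime hεp hε1
    rw [← h1]; exact IsPrimitiveRoot.orderOf ε
  have hnp : NeZero p := ⟨hp.ne_zero⟩
  have hfixε : ∀ g ∈ Fx M m (N / p), rg g ε = ε := by
    intro g hg
    apply rg_root hg
    obtain ⟨j, hj⟩ := hpNp
    rw [hj, pow_mul, hεp, one_pow]
  obtain ⟨l, _, hl⟩ := hη.eq_pow_of_pow_eq_one hζN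
  have hγζ : rg γ ζ = ζ * ε ^ l := by
    rw [← hl, map_pow, hγη, mul_pow]
  -- powers of `γ`
  have hpowact : ∀ i : ℕ, act (γ ^ i) O = tw (ζ ^ i * ε ^ (l * i.choose 2)) O := by
    intro i
    induction i with
    | zero => simp [act_one, tw_one]
    | succ i ih =>
      rw [pow_succ', act_mul, ih, act_tw, hact, tw_tw]
      congr 1
      rw [map_mul, map_pow, map_pow, hγζ, hfixε γ hγ1, Nat.choose_succ_succ' i 1,
        Nat.choose_one_right]
      ring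
  have hpowη : ∀ i : ℕ, rg (γ ^ i) η = η * ε ^ i := by
    intro i
    induction i with
    | zero => rw [pow_zero, rg_one, pow_zero, mul_one]
    | succ i ih =>
      rw [pow_succ', rg_mul, ih, map_mul, map_pow, hfixε γ hγ1, hγη]
      ring
  have hγp : γ ^ p ∈ Fx M m N := by
    refine ⟨(Subgroup.pow_mem _ hγ1 p).1, hroots _ ?_⟩
    rw [hpowη p, hεp, mul_one]
  have hζp1 : ζ ^ p = 1 := by
    have h1 := hpowact p
    rw [hO _ hγp] at h1
    have h2 : p ∣ p.choose 2 := hp.dvd_choose_self two_ne_zero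
      (lt_of_le_of_ne hp.two_le (Ne.symm hp2))
    obtain ⟨j, hj⟩ := h2
    rw [hj, show l * (p * j) = p * (l * j) by ring, pow_mul, hεp, one_pow, mul_one] at h1
    refine hgd.pow k (ζ ^ p) ?_ h1.symm
    rw [← pow_mul, mul_comm, pow_mul, hζp, one_pow]
  obtain ⟨j, _, hj⟩ := hεprim.eq_pow_of_pow_eq_one hζp1
  -- the twist
  set ω := η ^ j with hω
  set ω' := η' ^ j with hω'
  have hωω : ω' * ω = 1 := by rw [hω, hω', ← mul_pow, hηinv, one_pow]
  have hω'N : ω' ^ N = 1 := by rw [hω', ← pow_mul, mul_comm, pow_mul, hη'N, one_pow]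
  have hγω : rg γ ω = ω * ζ := by rw [hω, map_pow, hγη, mul_pow, hj]
  have hω0 : ω ≠ 0 := right_ne_zero_of_mul (hωω ▸ one_ne_zero)
  have h5 : rg γ ω' * ζ = ω' := by
    have h6 : rg γ ω' * rg γ ω = 1 := by rw [← map_mul, hωω, map_one]
    rw [hγω] at h6
    apply mul_right_cancel₀ hω0
    rw [hωω, ← h6]; ring
  set O' := tw ω' O with hO'
  have hγO' : act γ O' = O' := by
    rw [hO', act_tw, hact, tw_tw, h5]
  have hall : ∀ g ∈ Fx M m (N / p), act g O' = O' := by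
    intro g hg
    obtain ⟨i, _, hi⟩ := hεprim.eq_pow_of_pow_eq_one (hmove g hg)
    have h1 : (γ ^ i)⁻¹ * g ∈ Fx M m N := by
      refine ⟨(Subgroup.mul_mem _ (Subgroup.inv_mem _ (Subgroup.pow_mem _ hγ1 i)) hg).1,
        hroots _ ?_⟩
      rw [rg_mul, hmove2 g, ← hi, ← hpowη i, ← rg_mul, inv_mul_cancel, rg_one]
    have h2 : act ((γ ^ i)⁻¹ * g) O' = O' := by
      rw [hO', act_tw, rg_root h1 hω'N, hO _ h1]
    have h3 : ∀ i : ℕ, act (γ ^ i) O' = O' := by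
      intro i
      induction i with
      | zero => rw [pow_zero, act_one]
      | succ i ih => rw [pow_succ, act_mul, hγO', ih]
    calc act g O' = act (γ ^ i) (act ((γ ^ i)⁻¹ * g) O') := by
          rw [← act_mul, mul_inv_cancel_left]
      _ = O' := by rw [h2, h3]
  have hxO' : ω' * x ∈ O' := mem_tw.2 ⟨x, self_mem_orb _ _, rfl⟩
  have hsub : orb (Fx M m (N / p)) (ω' * x) ⊆ O' := by
    intro y hy
    obtain ⟨g, hg, rfl⟩ := mem_orb.1 hy
    rw [← hall g hg]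
    exact mem_act.2 ⟨_, hxO', rfl⟩
  have hcard := Finset.card_le_card hsub
  have hω'0 : ω' ≠ 0 := left_ne_zero_of_mul (hωω ▸ one_ne_zero)
  rw [hO', tw_card hω'0] at hcard
  have h7 := hmin ω' (by rw [hr, pow_mul, hω'N, one_pow])
  omega

/-- **tame primes**: the coincidence of two conjugates of `O` can be made precise by a twist -/
theorem tame_twist [IsGalois ℚ M] {m N N0 p k a : ℕ} (hp : p.Prime) (hpm : ¬ p ∣ m)
    (hN : 0 < N) (hN0 : 0 < N0) (hNN : N ∣ N0) (hpN : p ∣ N) (hpN2 : ¬ p ^ 2 ∣ N) {θ : M}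
    (hθ : IsPrimitiveRoot θ N0) {O : Finset (𝓞 M)} (hO : ∀ g ∈ Fx M m N, act g O = O)
    (hgd : Gd p O) {γ : M ≃ₐ[ℚ] M} {π : 𝓞 M} (hπ : IsPrimitiveRoot π p) (hγπ : rg γ π = π ^ a)
    (ha : ¬ a ≡ 1 [MOD p])
    {ζ : 𝓞 M} (hζ : ζ ^ N0 = 1) (hζp : ζ ^ p ^ k = 1) (h : act γ O = tw ζ O) :
    ∃ ω : 𝓞 M, ω ^ p = 1 ∧ act γ (tw ω O) = tw ω O := by
  have hζN : ζ ^ N = 1 := root_of_act hp hpm hN hN0 hNN hpN hθ hO hgd hζ hζp h
  have hnp : NeZero p := ⟨hp.ne_zero⟩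
  have hζp1 : ζ ^ p = 1 := by
    have h1 : orderOf ζ ∣ N := orderOf_dvd_of_pow_eq_one hζN
    have h2 : orderOf ζ ∣ p ^ k := orderOf_dvd_of_pow_eq_one hζp
    obtain ⟨j, _, hj⟩ := (Nat.dvd_prime_pow hp).1 h2
    have h3 : j ≤ 1 := by
      by_contra hc
      apply hpN2
      refine dvd_trans ?_ (hj ▸ h1)
      exact pow_dvd_pow p (by omega)
    rw [← orderOf_dvd_iff_pow_eq_one, hj]
    exact (pow_dvd_pow p h3).trans (by rw [pow_one])
  obtain ⟨l, _, hl⟩ := hπ.eq_pow_of_pow_eq_one hζp1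
  -- solve `a j + l = j` modulo `p`
  obtain ⟨j, hj⟩ : ∃ j : ℕ, a * j + l ≡ j [MOD p] := by
    have : Fact p.Prime := ⟨hp⟩
    have h1 : ((a : ZMod p) - 1) ≠ 0 := by
      intro h0
      apply ha
      rw [← ZMod.natCast_eq_natCast_iff]
      push_cast
      exact sub_eq_zero.1 h0
    refine ⟨((-(l : ZMod p)) / ((a : ZMod p) - 1)).val, ?_⟩
    rw [← ZMod.natCast_eq_natCast_iff]
    push_cast
    rw [ZMod.natCast_val, ZMod.cast_id]
    field_simp
    ring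
  refine ⟨π ^ j, by rw [← pow_mul, mul_comm, pow_mul, hπ.pow_eq_one, one_pow], ?_⟩
  rw [act_tw, h, tw_tw, map_pow, hγπ, ← hl, ← pow_mul, ← pow_add]
  congr 1
  have h2 : ∀ i : ℕ, π ^ i = π ^ (i % p) := by
    intro i
    conv_lhs => rw [← Nat.div_add_mod i p, pow_add, pow_mul, hπ.pow_eq_one, one_pow, one_mul]
  rw [h2, h2 j]
  congr 1

/-- distinctness of the powers -/
theorem distinct {m N0 p u t : ℕ} (hN0 : 0 < N0) (hpu : p ^ u ∣ N0) {x0 : 𝓞 M} (hx0 : x0 ≠ 0)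
    (hgd : Gd p (orb (Fx M m N0) x0)) (c : M ≃ₐ[ℚ] M)
    (hc : ∀ k, 0 < k → k < t → ∀ ζ : 𝓞 M, ζ ^ N0 = 1 → ζ ^ p ^ u = 1 →
      act (c ^ k) (orb (Fx M m N0) x0) ≠ tw ζ (orb (Fx M m N0) x0))
    (i j : ℕ) (hi : i < t) (hj : j < t) (x x' : 𝓞 M) (hx : x ∈ orb (Fx M m N0) x0)
    (hx' : x' ∈ orb (Fx M m N0) x0) (h : rg (c ^ i) x ^ p ^ u = rg (c ^ j) x' ^ p ^ u) :
    i = j ∧ x = x' := by
  -- the statement for `j ≤ i`
  have key : ∀ i j : ℕ, i < t → j ≤ i → ∀ x x' : 𝓞 M, x ∈ orb (Fx M m N0) x0 →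
      x' ∈ orb (Fx M m N0) x0 → rg (c ^ i) x ^ p ^ u = rg (c ^ j) x' ^ p ^ u → i = j ∧ x = x' := by
    clear h hx hx' x x' hi hj i j
    intro i j hi hji x x' hx hx' h
    set O := orb (Fx M m N0) x0 with hO
    have hxx : orb (Fx M m N0) x = O := orb_eq hx
    have hxx' : orb (Fx M m N0) x' = O := orb_eq hx'
    have hne0 : ∀ y ∈ O, y ≠ 0 := by
      intro y hy h0
      obtain ⟨g, _, hg⟩ := mem_orb.1 hy
      rw [h0] at hg
      exact hx0 ((map_eq_zero_iff _ (rg g).injective).1 hg)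
    set A := rg (c ^ i) x with hA
    set B := rg (c ^ j) x' with hB
    have hB0 : B ≠ 0 := by
      rw [hB]
      exact (map_ne_zero_iff _ (rg (c ^ j)).injective).2 (hne0 x' hx')
    have hBM : (B : M) ≠ 0 := fun h0 => hB0 (RingOfIntegers.coe_injective (by simpa using h0))
    have hpos : 0 < p ^ u := Nat.pos_of_dvd_of_pos hpu hN0
    have hζM : ((A : M) / B) ^ p ^ u = 1 := by
      rw [div_pow, div_eq_one_iff_eq (pow_ne_zero _ hBM)]
      have := congrArg (fun t : 𝓞 M => (t : M)) h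
      simpa using this
    have hζint : IsIntegral ℤ ((A : M) / B) := ⟨X ^ (p ^ u) - 1, monic_X_pow_sub_C 1 hpos.ne', by
      simp [hζM]⟩
    obtain ⟨ζ, hζ⟩ : ∃ ζ : 𝓞 M, (ζ : M) = (A : M) / B := ⟨⟨_, hζint⟩, rfl⟩
    have hζB : A = ζ * B := by
      apply RingOfIntegers.coe_injective
      show (A : M) = (ζ : M) * (B : M)
      rw [hζ, div_mul_cancel₀ _ hBM]
    have hζp : ζ ^ p ^ u = 1 := by
      rw [← coe_pow_eq_one, hζ]; exact hζM
    have hζN : ζ ^ N0 = 1 := by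
      obtain ⟨r, hr⟩ := hpu
      rw [hr, pow_mul, hζp, one_pow]
    have h1 : act (c ^ i) O = tw ζ (act (c ^ j) O) := by
      have e1 : act (c ^ i) O = orb (Fx M m N0) A := by rw [← hxx, act_orb]
      have e2 : act (c ^ j) O = orb (Fx M m N0) B := by rw [← hxx', act_orb]
      rw [e1, e2, tw_orb (fun g hg => rg_root hg hζN), ← hζB]
    have h2 : act (c ^ (i - j)) O = tw (rg (c ^ j)⁻¹ ζ) O := by
      have h3 := congrArg (act (c ^ j)⁻¹) h1
      rw [act_tw, ← act_mul, ← act_mul, inv_mul_cancel, act_one] at h3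
      rw [← h3]
      congr 1
      rw [eq_inv_mul_iff_mul_eq, ← pow_add]
      congr 1
      omega
    have hz1 : (rg (c ^ j)⁻¹ ζ) ^ N0 = 1 := by rw [← map_pow, hζN, map_one]
    have hz2 : (rg (c ^ j)⁻¹ ζ) ^ p ^ u = 1 := by rw [← map_pow, hζp, map_one]
    rcases Nat.eq_zero_or_pos (i - j) with h3 | h3
    · have hij : i = j := by omega
      subst hij
      rw [Nat.sub_self, pow_zero, act_one] at h2
      have h4 := hgd.pow u _ hz2 h2.symm
      have h5 : ζ = 1 := by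
        apply (rg (c ^ i)⁻¹).injective
        rw [h4, map_one]
      refine ⟨rfl, ?_⟩
      rw [h5, one_mul] at hζB
      exact (rg (c ^ i)).injective hζB
    · exact absurd h2 (hc (i - j) h3 (by omega) _ hz1 hz2)
  rcases le_total j i with hji | hij
  · exact key i j hi hji x x' hx hx' h
  · obtain ⟨h1, h2⟩ := key j i hj hij x' x hx' hx h.symm
    exact ⟨h1.symm, h2.symm⟩

end Pool.Agent.U218.RA
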