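import Mathlib
import Pool.Agent.U218.RA.Orb2
import Pool.Agent.U218.UX.Tame
import Pool.Agent.U218.LD.Frob

/-! # Inertia groups and fixed elements -/

set_option autoImplicit false
set_option linter.all false

open Finset Module NumberField Polynomial IsDedekindDomain

namespace Pool.Agent.U218.RA

open Pool.Agent.U218.LD Pool.Agent.U218.UX

variable {K : Type*} [Field K] [NumberField K]

lemma smul_eq_rg (σ : K ≃ₐ[ℚ] K) (x : 𝓞 K) : σ • x = rg σ x := by
  apply RingOfIntegers.coe_injective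
  show ((σ • x : 𝓞 K) : K) = ((rg σ x : 𝓞 K) : K)
  rw [rg_coe]
  exact (algebraMap.smul' σ x K)

/-- the inertia group of `P` -/
abbrev In (P : Ideal (𝓞 K)) : Subgroup (K ≃ₐ[ℚ] K) := P.inertia (K ≃ₐ[ℚ] K)

lemma mem_In {P : Ideal (𝓞 K)} {σ : K ≃ₐ[ℚ] K} : σ ∈ In P ↔ ∀ x : 𝓞 K, rg σ x - x ∈ P := by
  constructor
  · intro h x
    have := h x
    rwa [smul_eq_rg] at this
  · intro h x
    have := h x
    rwa [← smul_eq_rg] at this

lemma ne_bot_of_mem {p : ℕ} (hp : p.Prime) {P : Ideal (𝓞 K)} (h : (p : 𝓞 K) ∈ P) : P ≠ ⊥ := by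
  rintro rfl
  rw [Ideal.mem_bot] at h
  exact hp.ne_zero (by exact_mod_cast h)

variable [IsGalois ℚ K]

lemma card_inter (U : Subgroup (K ≃ₐ[ℚ] K)) (P : Ideal (𝓞 K)) :
    Nat.card (P.inertia U) = Nat.card (U ⊓ In P : Subgroup (K ≃ₐ[ℚ] K)) := by
  refine Nat.card_congr
    { toFun := fun g => ⟨((g : U) : K ≃ₐ[ℚ] K), (g : U).2, fun x => g.2 x⟩
      invFun := fun g => ⟨⟨(g : K ≃ₐ[ℚ] K), g.2.1⟩, fun x => g.2.2 x⟩
      left_inv := fun g => rfl
      right_inv := fun g => rfl }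

lemma card_ram (U : Subgroup (K ≃ₐ[ℚ] K)) (P : Ideal (𝓞 K)) [hP : P.IsPrime] (hP0 : P ≠ ⊥) :
    Nat.card (U ⊓ In P : Subgroup (K ≃ₐ[ℚ] K)) =
      (P.under (𝓞 (FixedPoints.intermediateField U : IntermediateField ℚ K))).ramificationIdx' P := by
  set E : IntermediateField ℚ K := FixedPoints.intermediateField U with hE
  have hg : IsGaloisGroup U E K := IsGaloisGroup.subgroup (K ≃ₐ[ℚ] K) ℚ K U
  have hg2 : IsGaloisGroup U (𝓞 E) (𝓞 K) := IsGaloisGroup.of_isFractionRing U (𝓞 E) (𝓞 K) E K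
  have hq0 : P.under (𝓞 E) ≠ ⊥ := Ideal.under_ne_bot (𝓞 E) hP0
  have hmax : (P.under (𝓞 E)).IsMaximal := Ideal.IsPrime.isMaximal inferInstance hq0
  have hfin : Finite (𝓞 E ⧸ P.under (𝓞 E)) := Ideal.finiteQuotientOfFreeOfNeBot _ hq0
  have hfinres : Finite (P.under (𝓞 E)).ResidueField :=
    Finite.of_surjective _ (P.under (𝓞 E)).bijective_algebraMap_quotient_residueField.surjective
  have h1 := Ideal.card_inertia_eq_ramificationIdxIn (G := U) (P.under (𝓞 E)) P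
  rw [Ideal.ramificationIdxIn_eq_ramificationIdx (P.under (𝓞 E)) P U,
    ← Ideal.ramificationIdx'_eq_ramificationIdx (P.under (𝓞 E)) P hq0] at h1
  rw [← h1, card_inter]

/-- elements which are fixed by `U` are divisible by high powers of `P` -/
theorem lemA (U : Subgroup (K ≃ₐ[ℚ] K)) (P : Ideal (𝓞 K)) [hP : P.IsPrime] (hP0 : P ≠ ⊥)
    (b : 𝓞 K) (hb : b ∈ P) (hfix : ∀ g ∈ U, rg g b = b) :
    b ∈ P ^ Nat.card (U ⊓ In P : Subgroup (K ≃ₐ[ℚ] K)) := by
  rw [card_ram U P hP0]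
  set E : IntermediateField ℚ K := FixedPoints.intermediateField U with hE
  have hbE : (b : K) ∈ E := by
    rw [hE]
    intro g
    have := congrArg (fun t : 𝓞 K => (t : K)) (hfix g g.2)
    simp only [rg_coe] at this
    exact this
  have hint : IsIntegral ℤ (⟨(b : K), hbE⟩ : E) := by
    rw [← isIntegral_algebraMap_iff (B := K) (algebraMap E K).injective]
    exact RingOfIntegers.isIntegral_coe b
  let b' : 𝓞 E := ⟨⟨(b : K), hbE⟩, hint⟩
  have hb' : algebraMap (𝓞 E) (𝓞 K) b' = b := by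
    apply RingOfIntegers.coe_injective
    rfl
  have h1 : b' ∈ P.under (𝓞 E) := by
    rw [Ideal.under_def, Ideal.mem_comap, hb']
    exact hb
  rw [← hb']
  exact Ideal.le_pow_ramificationIdx' (Ideal.mem_map_of_mem _ h1)

lemma intVal_p {p : ℕ} (hp : p.Prime) (w : HeightOneSpectrum (𝓞 K)) (h : (p : 𝓞 K) ∈ w.asIdeal) :
    w.intValuation (p : 𝓞 K) = WithZero.exp (-(Nat.card (In w.asIdeal) : ℤ)) := by
  have hpr := w.isPrime
  have hu := under_eq hp w.asIdeal h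
  let v : HeightOneSpectrum ℤ := ⟨w.asIdeal.under ℤ, inferInstance, by
    rw [hu]
    intro h0
    rw [Ideal.span_singleton_eq_bot] at h0
    exact hp.ne_zero (by exact_mod_cast h0)⟩
  have hl : w.asIdeal.LiesOver v.asIdeal := ⟨rfl⟩
  have hv : v.asIdeal = Ideal.span {(p : ℤ)} := hu
  have hfin : Finite (ℤ ⧸ v.asIdeal) := Ideal.finiteQuotientOfFreeOfNeBot _ v.ne_bot
  have hmax : v.asIdeal.IsMaximal := v.isMaximal
  have hfinres : Finite v.asIdeal.ResidueField :=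
    Finite.of_surjective _ v.asIdeal.bijective_algebraMap_quotient_residueField.surjective
  have h1 := Ideal.card_inertia_eq_ramificationIdxIn (G := K ≃ₐ[ℚ] K) v.asIdeal w.asIdeal
  rw [Ideal.ramificationIdxIn_eq_ramificationIdx v.asIdeal w.asIdeal (K ≃ₐ[ℚ] K),
    ← Ideal.ramificationIdx'_eq_ramificationIdx v.asIdeal w.asIdeal v.ne_bot] at h1
  have h3 := HeightOneSpectrum.intValuation_liesOver v w (p : ℤ)
  have h4 : v.intValuation (p : ℤ) = WithZero.exp (-1 : ℤ) := by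
    have := v.intValuation_singleton (r := (p : ℤ)) (by exact_mod_cast hp.ne_zero) hv
    exact this
  rw [h4, map_natCast, ← h1] at h3
  rw [← h3, ← WithZero.exp_nsmul]
  simp

/-- the valuation of `p` at `P` is the order of the inertia group -/
theorem lemB {p : ℕ} (hp : p.Prime) (P : Ideal (𝓞 K)) [hP : P.IsPrime] (h : (p : 𝓞 K) ∈ P) :
    (p : 𝓞 K) ∉ P ^ (Nat.card (In P) + 1) := by
  let w : HeightOneSpectrum (𝓞 K) := ⟨P, hP, ne_bot_of_mem hp h⟩
  have h1 := intVal_p hp w h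
  have h2 : (p : 𝓞 K) ∉ w.asIdeal ^ (Nat.card (In P) + 1) := by
    rw [← w.intValuation_le_pow_iff_mem, not_le, h1, WithZero.exp_lt_exp]
    push_cast
    linarith
  exact h2

theorem lemB' {p : ℕ} (hp : p.Prime) {x : 𝓞 K}
    (hx : ∀ P : Ideal (𝓞 K), P.IsPrime → (p : 𝓞 K) ∈ P → x ∈ P ^ Nat.card (In P)) :
    x ∈ Ideal.span {(p : 𝓞 K)} := by
  have hp0 : (p : 𝓞 K) ≠ 0 := by exact_mod_cast hp.ne_zero
  have hp0' : algebraMap (𝓞 K) K (p : 𝓞 K) ≠ 0 := by
    rw [map_natCast]; exact_mod_cast hp.ne_zero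
  have key : ∀ w : HeightOneSpectrum (𝓞 K), w.intValuation x ≤ w.intValuation (p : 𝓞 K) := by
    intro w
    by_cases h : (p : 𝓞 K) ∈ w.asIdeal
    · rw [intVal_p hp w h, w.intValuation_le_pow_iff_mem]
      exact hx w.asIdeal w.isPrime h
    · have h1 : w.intValuation (p : 𝓞 K) = 1 := by
        refine le_antisymm (w.intValuation_le_one _) (not_lt.1 fun h2 => h ?_)
        exact (w.intValuation_lt_one_iff_mem _).1 h2
      rw [h1]
      exact w.intValuation_le_one _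
  have h2 : algebraMap (𝓞 K) K x / algebraMap (𝓞 K) K (p : 𝓞 K) ∈ (algebraMap (𝓞 K) K).range := by
    refine HeightOneSpectrum.mem_integers_of_valuation_le_one K _ fun w => ?_
    rw [map_div₀, w.valuation_of_algebraMap, w.valuation_of_algebraMap]
    exact div_le_one_of_le₀ (key w) zero_le
  obtain ⟨y, hy⟩ := h2
  rw [Ideal.mem_span_singleton]
  refine ⟨y, ?_⟩
  apply (IsFractionRing.injective (𝓞 K) K)
  rw [map_mul, hy]
  field_simp

variable (K) in
/-- the intersection of the `n`-th powers of the primes above `p` -/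
def Jn (p n : ℕ) : Ideal (𝓞 K) := sInf {Q | ∃ P : Ideal (𝓞 K), P.IsPrime ∧ (p : 𝓞 K) ∈ P ∧ Q = P ^ n}

omit [IsGalois ℚ K] in
lemma mem_Jn {p n : ℕ} {x : 𝓞 K} : x ∈ Jn K p n ↔
    ∀ P : Ideal (𝓞 K), P.IsPrime → (p : 𝓞 K) ∈ P → x ∈ P ^ n := by
  rw [Jn, Ideal.mem_sInf]
  constructor
  · intro h P hP hpP
    exact h ⟨P, hP, hpP, rfl⟩
  · rintro h Q ⟨P, hP, hpP, rfl⟩
    exact h P hP hpP

theorem Jn_pow {p : ℕ} (hp : p.Prime) {n E : ℕ}
    (h : ∀ P : Ideal (𝓞 K), P.IsPrime → (p : 𝓞 K) ∈ P → Nat.card (In P) ≤ n * E) :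
    Jn K p n ^ E ≤ Ideal.span {(p : 𝓞 K)} := by
  intro x hx
  refine lemB' hp fun P hP hpP => ?_
  have h1 : Jn K p n ≤ P ^ n := fun y hy => mem_Jn.1 hy P hP hpP
  have h2 : Jn K p n ^ E ≤ (P ^ n) ^ E := Ideal.pow_right_mono h1 E
  rw [← pow_mul] at h2
  exact Ideal.pow_le_pow_right (h P hP hpP) (h2 hx)

end Pool.Agent.U218.RA
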