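import Mathlib
import Pool.Agent.U218.RA.Ram1

/-! # Frobenius elements and inertia groups -/

set_option autoImplicit false
set_option linter.all false

open Finset Module NumberField Polynomial IsDedekindDomain

namespace Pool.Agent.U218.RA

open Pool.Agent.U218.LD Pool.Agent.U218.UX

variable {K : Type*} [Field K] [NumberField K]

lemma cent {m N : ℕ} (hN : 0 < N) (hFx : Fx K m N = ⊥) {g : K ≃ₐ[ℚ] K}
    (hg : ∀ x : K, F0 m x → g x = x) (h : K ≃ₐ[ℚ] K) : h * g * h⁻¹ = g := by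
  have h1 := comm_mem (m := m) hN hg h
  rw [hFx, Subgroup.mem_bot, inv_mul_eq_one] at h1
  exact h1.symm

variable [IsGalois ℚ K]

lemma exists_conj {p : ℕ} (hp : p.Prime) (P P' : Ideal (𝓞 K)) [hP : P.IsPrime] [hP' : P'.IsPrime]
    (h : (p : 𝓞 K) ∈ P) (h' : (p : 𝓞 K) ∈ P') :
    ∃ g : K ≃ₐ[ℚ] K, ∀ x, x ∈ P' ↔ rg g⁻¹ x ∈ P := by
  have hl : P.LiesOver (Ideal.span {(p : ℤ)}) := ⟨(under_eq hp P h).symm⟩
  have hl' : P'.LiesOver (Ideal.span {(p : ℤ)}) := ⟨(under_eq hp P' h').symm⟩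
  obtain ⟨g, hg⟩ := Ideal.exists_smul_eq_of_isGaloisGroup (Ideal.span {(p : ℤ)}) P P' (K ≃ₐ[ℚ] K)
  refine ⟨g, fun x => ?_⟩
  rw [← hg, Ideal.mem_pointwise_smul_iff_inv_smul_mem, smul_eq_rg]

lemma In_all {m N p : ℕ} (hN : 0 < N) (hFx : Fx K m N = ⊥) (hp : p.Prime) {P : Ideal (𝓞 K)}
    [hP : P.IsPrime] (hpP : (p : 𝓞 K) ∈ P) {c : K ≃ₐ[ℚ] K} (hc : ∀ x : K, F0 m x → c x = x)
    (hcI : c ∈ In P) (P' : Ideal (𝓞 K)) (hP' : P'.IsPrime) (hpP' : (p : 𝓞 K) ∈ P') : c ∈ In P' := by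
  obtain ⟨g, hg⟩ := exists_conj hp P P' hpP hpP'
  rw [mem_In]
  intro x
  rw [hg, map_sub, ← rg_mul]
  have h1 : g⁻¹ * c = c * g⁻¹ := by
    have := cent hN hFx hc g⁻¹
    rw [inv_inv] at this
    calc g⁻¹ * c = (g⁻¹ * c * g) * g⁻¹ := by group
      _ = c * g⁻¹ := by rw [this]
  rw [h1, rg_mul]
  exact mem_In.1 hcI _

theorem frobK {m N p : ℕ} (hN : 0 < N) (hFx : Fx K m N = ⊥) (hp : p.Prime) :
    ∃ s : K ≃ₐ[ℚ] K, (∃ τ, s = τ ^ m) ∧ ∀ x : 𝓞 K, x ^ p ^ m - rg s x ∈ Jn K p 1 := by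
  by_cases hex : ∃ P : Ideal (𝓞 K), P.IsPrime ∧ (p : 𝓞 K) ∈ P
  · obtain ⟨P, hP, hpP⟩ := hex
    have hP0 := ne_bot_of_mem hp hpP
    have : Finite (𝓞 K ⧸ P) := Ideal.finiteQuotientOfFreeOfNeBot P hP0
    obtain ⟨σ, hσ⟩ := IsArithFrobAt.exists_of_isInvariant ℤ (K ≃ₐ[ℚ] K) P
    have hσ' : ∀ y : 𝓞 K, Ideal.Quotient.mk P (rg σ y) = (Ideal.Quotient.mk P y) ^ p := by
      intro y
      have h1 := hσ y
      rw [card_quot hp P hpP] at h1
      rw [← map_pow, Ideal.Quotient.eq, ← smul_eq_rg]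
      exact h1
    have h1 : ∀ (j : ℕ) (y : 𝓞 K), Ideal.Quotient.mk P (rg (σ ^ j) y) =
        (Ideal.Quotient.mk P y) ^ (p ^ j) := by
      intro j
      induction j with
      | zero => intro y; simp [rg_one]
      | succ j ih =>
        intro y
        rw [pow_succ', rg_mul, hσ', ih, ← pow_mul, pow_succ]
    refine ⟨σ ^ m, ⟨σ, rfl⟩, fun x => mem_Jn.2 fun P' hP' hpP' => ?_⟩
    rw [pow_one]
    obtain ⟨g, hg⟩ := exists_conj hp P P' hpP hpP'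
    rw [hg, map_sub, map_pow, ← rg_mul]
    have h2 : g⁻¹ * σ ^ m = σ ^ m * g⁻¹ := by
      have := cent hN hFx (g := σ ^ m) (fun x hx => hx σ) g⁻¹
      rw [inv_inv] at this
      calc g⁻¹ * σ ^ m = (g⁻¹ * σ ^ m * g) * g⁻¹ := by group
        _ = σ ^ m * g⁻¹ := by rw [this]
    rw [h2, rg_mul, ← Ideal.Quotient.eq, h1, map_pow]
  · refine ⟨1, ⟨1, (one_pow m).symm⟩, fun x => mem_Jn.2 fun P hP hpP => ?_⟩
    exact absurd ⟨P, hP, hpP⟩ hex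

section cyc

variable {p v : ℕ}

omit [IsGalois ℚ K] in
lemma prod_one_sub (hp : p.Prime) {ζ : 𝓞 K} (hζ : IsPrimitiveRoot ζ (p ^ (v + 1))) :
    ∏ μ ∈ primitiveRoots (p ^ (v + 1)) (𝓞 K), (1 - μ) = (p : 𝓞 K) := by
  have : Fact p.Prime := ⟨hp⟩
  have h1 := eval_one_cyclotomic_prime_pow (R := 𝓞 K) (p := p) v
  rw [cyclotomic_eq_prod_X_sub_primitiveRoots hζ, eval_prod] at h1
  rw [← h1]
  exact Finset.prod_congr rfl fun μ _ => by simp

omit [IsGalois ℚ K] in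
lemma one_sub_mem (hp : p.Prime) {ζ : 𝓞 K} (hζ : IsPrimitiveRoot ζ (p ^ (v + 1)))
    (P : Ideal (𝓞 K)) [hP : P.IsPrime] (hpP : (p : 𝓞 K) ∈ P) (μ : 𝓞 K)
    (hμ : μ ^ p ^ (v + 1) = 1) : 1 - μ ∈ P := by
  have : Fact p.Prime := ⟨hp⟩
  have hchar : CharP (𝓞 K ⧸ P) p := by
    have hnt : Nontrivial (𝓞 K ⧸ P) := Ideal.Quotient.nontrivial_iff.2 hP.ne_top
    have h1 : ringChar (𝓞 K ⧸ P) = p := CharP.ringChar_of_prime_eq_zero hp (by
      rw [← map_natCast (Ideal.Quotient.mk P)]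
      exact Ideal.Quotient.eq_zero_iff_mem.2 hpP)
    exact h1 ▸ ringChar.charP (𝓞 K ⧸ P)
  rw [← Ideal.Quotient.eq_zero_iff_mem, map_sub, map_one]
  have h2 : (1 - Ideal.Quotient.mk P μ) ^ p ^ (v + 1) = 0 := by
    rw [sub_pow_char_pow, one_pow, ← map_pow, hμ, map_one, sub_self]
  exact pow_eq_zero_iff (pow_ne_zero _ hp.ne_zero) |>.1 h2

/-- the inertia group acts on the `p`-power roots of unity like the full Galois group -/
theorem inertia_surj (hp : p.Prime) {ζ : 𝓞 K} (hζ : IsPrimitiveRoot ζ (p ^ (v + 1)))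
    (P : Ideal (𝓞 K)) [hP : P.IsPrime] (hpP : (p : 𝓞 K) ∈ P) {u : ℕ} (hu : u.Coprime p) :
    ∃ σ ∈ In P, rg σ ζ = ζ ^ u := by
  classical
  by_contra hcon
  push Not at hcon
  set S : Finset (𝓞 K) := (primitiveRoots (p ^ (v + 1)) (𝓞 K)).filter
    (fun μ => ∃ σ ∈ In P, rg σ ζ = μ) with hS
  set T : Finset (𝓞 K) := (primitiveRoots (p ^ (v + 1)) (𝓞 K)).filter
    (fun μ => ¬ ∃ σ ∈ In P, rg σ ζ = μ) with hT
  have hpos : 0 < p ^ (v + 1) := pow_pos hp.pos _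
  have h1 : (∏ μ ∈ S, (1 - μ)) * ∏ μ ∈ T, (1 - μ) = (p : 𝓞 K) := by
    rw [← prod_one_sub hp hζ, hS, hT]
    exact Finset.prod_filter_mul_prod_filter_not _ _ _
  have hmemP : ∀ μ ∈ primitiveRoots (p ^ (v + 1)) (𝓞 K), 1 - μ ∈ P := by
    intro μ hμ
    exact one_sub_mem hp hζ P hpP μ ((mem_primitiveRoots hpos).1 hμ).pow_eq_one
  have hζS : ζ ∈ S := by
    rw [hS, Finset.mem_filter, mem_primitiveRoots hpos]
    exact ⟨hζ, 1, (In P).one_mem, rg_one ζ⟩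
  have huT : ζ ^ u ∈ T := by
    rw [hT, Finset.mem_filter, mem_primitiveRoots hpos]
    refine ⟨hζ.pow_of_coprime u (Nat.Coprime.pow_right _ hu), ?_⟩
    rintro ⟨σ, hσ, h⟩
    exact hcon σ hσ h
  have hTP : ∏ μ ∈ T, (1 - μ) ∈ P := by
    rw [← Finset.mul_prod_erase T _ huT]
    exact P.mul_mem_right _ (hmemP _ (Finset.mem_filter.1 huT).1)
  have hSP : ∏ μ ∈ S, (1 - μ) ∈ P := by
    rw [← Finset.mul_prod_erase S _ hζS]
    exact P.mul_mem_right _ (hmemP _ (Finset.mem_filter.1 hζS).1)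
  have hSfix : ∀ g ∈ In P, rg g (∏ μ ∈ S, (1 - μ)) = ∏ μ ∈ S, (1 - μ) := by
    intro g hg
    rw [map_prod]
    have hgS : S.image (rg g) = S := by
      apply Finset.eq_of_subset_of_card_le
      · intro y hy
        obtain ⟨μ, hμ, rfl⟩ := Finset.mem_image.1 hy
        rw [hS, Finset.mem_filter, mem_primitiveRoots hpos] at hμ ⊢
        obtain ⟨hμ1, σ, hσ, rfl⟩ := hμ
        refine ⟨hμ1.map_of_injective (rg g).injective, g * σ, (In P).mul_mem hg hσ, rg_mul _ _ _⟩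
      · rw [Finset.card_image_of_injective _ (rg g).injective]
    conv_rhs => rw [← hgS]
    rw [Finset.prod_image (fun x _ y _ h => (rg g).injective h)]
    exact Finset.prod_congr rfl fun μ _ => by rw [map_sub, map_one]
  have h2 := lemA (In P) P (ne_bot_of_mem hp hpP) _ hSP hSfix
  rw [inf_idem] at h2
  have h3 := Ideal.mul_mem_mul h2 hTP
  rw [h1, ← pow_succ] at h3
  exact lemB hp P hpP h3

omit [IsGalois ℚ K] in
/-- the inertia group fixes the roots of unity of order prime to `p` -/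
lemma In_root (hp : p.Prime) {P : Ideal (𝓞 K)} [hP : P.IsPrime] (hpP : (p : 𝓞 K) ∈ P) {n : ℕ}
    (hn : ¬ p ∣ n) {ξ : 𝓞 K} (hξ : ξ ^ n = 1) {σ : K ≃ₐ[ℚ] K} (hσ : σ ∈ In P) : rg σ ξ = ξ := by
  have hn0 : 0 < n := Nat.pos_of_ne_zero (fun h => hn (h ▸ dvd_zero p))
  have hinv : ξ ^ (n - 1) * ξ = 1 := by rw [← pow_succ, Nat.sub_add_cancel hn0, hξ]
  set ε := ξ ^ (n - 1) * rg σ ξ with hε
  have hεn : ε ^ n = 1 := by
    rw [hε, mul_pow, ← map_pow, hξ, map_one, mul_one, ← pow_mul, mul_comm, pow_mul, hξ, one_pow]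
  have hε1 : Ideal.Quotient.mk P ε = 1 := by
    have h1 : Ideal.Quotient.mk P (rg σ ξ) = Ideal.Quotient.mk P ξ := by
      rw [Ideal.Quotient.eq]
      exact mem_In.1 hσ ξ
    rw [hε, map_mul, h1, ← map_mul, hinv, map_one]
  have h2 : (ε - 1) * ∑ j ∈ Finset.range n, ε ^ j = 0 := by
    rw [mul_comm, geom_sum_mul, hεn, sub_self]
  have h3 : ∑ j ∈ Finset.range n, ε ^ j ≠ 0 := by
    intro h0
    have h4 := congrArg (Ideal.Quotient.mk P) h0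
    rw [map_sum, map_zero] at h4
    simp only [map_pow, hε1, one_pow, Finset.sum_const, Finset.card_range, nsmul_eq_mul,
      mul_one] at h4
    rw [← map_natCast (Ideal.Quotient.mk P), Ideal.Quotient.eq_zero_iff_mem] at h4
    apply hP.ne_top
    rw [Ideal.eq_top_iff_one]
    have hcop : IsCoprime (p : ℤ) (n : ℤ) := by
      rw [Nat.isCoprime_iff_coprime]
      exact (Nat.Prime.coprime_iff_not_dvd hp).2 hn
    obtain ⟨a, b, hab⟩ := hcop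
    have h5 : (1 : 𝓞 K) = (a : 𝓞 K) * (p : 𝓞 K) + (b : 𝓞 K) * (n : 𝓞 K) := by
      exact_mod_cast congrArg (fun t : ℤ => (t : 𝓞 K)) hab.symm
    rw [h5]
    exact P.add_mem (P.mul_mem_left _ hpP) (P.mul_mem_left _ h4)
  have h5 : ε = 1 := by
    rcases mul_eq_zero.1 h2 with h | h
    · exact sub_eq_zero.1 h
    · exact absurd h h3
  calc rg σ ξ = (ξ ^ (n - 1) * ξ) * rg σ ξ := by rw [hinv, one_mul]
    _ = ξ * ε := by rw [hε]; ring
    _ = ξ := by rw [h5, mul_one]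

end cyc

omit [IsGalois ℚ K] in
/-- automorphisms which fix the roots of unity of `p`-power order and of order prime to `p` -/
lemma fix_all_roots {p v N' N : ℕ} (hp : p.Prime) (hN : N = p ^ v * N') (hpN : ¬ p ∣ N')
    {σ : K ≃ₐ[ℚ] K} (h1 : ∀ ξ : 𝓞 K, ξ ^ p ^ v = 1 → rg σ ξ = ξ)
    (h2 : ∀ ξ : 𝓞 K, ξ ^ N' = 1 → rg σ ξ = ξ) (ξ : 𝓞 K) (hξ : ξ ^ N = 1) : rg σ ξ = ξ := by
  have hcop : (p ^ v).Coprime N' := Nat.Coprime.pow_left _ ((Nat.Prime.coprime_iff_not_dvd hp).2 hpN)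
  obtain ⟨k, hk1, hk2⟩ := Nat.chineseRemainder hcop 0 1
  obtain ⟨l, hl1, hl2⟩ := Nat.chineseRemainder hcop 1 0
  have h4 : k + l ≡ 1 [MOD N] := by
    rw [hN, ← Nat.modEq_and_modEq_iff_modEq_mul hcop]
    exact ⟨by simpa using hk1.add hl1, by simpa using hk2.add hl2⟩
  obtain ⟨k', hk'⟩ := (Nat.modEq_zero_iff_dvd).1 hk1
  obtain ⟨l', hl'⟩ := (Nat.modEq_zero_iff_dvd).1 hl2
  have h2' : ∀ i : ℕ, ξ ^ i = ξ ^ (i % N) := by
    intro i
    conv_lhs => rw [← Nat.div_add_mod i N, pow_add, pow_mul, hξ, one_pow, one_mul]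
  have h5 : ξ = ξ ^ k * ξ ^ l := by
    rw [← pow_add, h2' (k + l), h4, ← h2' 1, pow_one]
  have e1 : (ξ ^ k) ^ N' = 1 := by
    rw [hk', ← pow_mul, show p ^ v * k' * N' = N * k' by rw [hN]; ring, pow_mul, hξ, one_pow]
  have e2 : (ξ ^ l) ^ p ^ v = 1 := by
    rw [hl', ← pow_mul, show N' * l' * p ^ v = N * l' by rw [hN]; ring, pow_mul, hξ, one_pow]
  rw [h5, map_mul, h2 _ e1, h1 _ e2]

end Pool.Agent.U218.RA
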