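import Mathlib
import Pool.Agent.U218.RA.Ram2

/-! # The order of the inertia groups -/

set_option autoImplicit false
set_option linter.all false

open Finset Module NumberField Polynomial IsDedekindDomain

namespace Pool.Agent.U218.RA

open Pool.Agent.U218.LD Pool.Agent.U218.UX

variable {K : Type*} [Field K] [NumberField K]

lemma mem_Fx1 {N : ℕ} {g : K ≃ₐ[ℚ] K} : g ∈ Fx K 1 N ↔ ∀ ζ : K, ζ ^ N = 1 → g ζ = ζ := by
  rw [mem_Fx]
  constructor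
  · exact fun h => h.2
  · intro h
    refine ⟨fun x hx => ?_, h⟩
    have := hx g
    rwa [pow_one] at this

lemma pow_eq_one_of_roots {m N : ℕ} (hFx : Fx K m N = ⊥) {g : K ≃ₐ[ℚ] K}
    (h : ∀ ζ : K, ζ ^ N = 1 → g ζ = ζ) : g ^ m = 1 := by
  have h1 : g ^ m ∈ Fx K m N := by
    refine ⟨fun x hx => hx g, fun ζ hζ => ?_⟩
    have h2 : ∀ j : ℕ, (g ^ j) ζ = ζ := by
      intro j
      induction j with
      | zero => rfl
      | succ j ih => rw [pow_succ', AlgEquiv.mul_apply, ih, h ζ hζ]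
    exact h2 m
  rw [hFx, Subgroup.mem_bot] at h1
  exact h1

variable [IsGalois ℚ K]

/-- the tame part of the inertia group -/
theorem card_theta {m N p : ℕ} (hp : p.Prime) (hpm : ¬ p ∣ m) (hFx : Fx K m N = ⊥)
    (P : Ideal (𝓞 K)) [hP : P.IsPrime] (hpP : (p : 𝓞 K) ∈ P) :
    Nat.card (Fx K 1 N ⊓ In P : Subgroup (K ≃ₐ[ℚ] K)) ∣ m := by
  have hP0 := ne_bot_of_mem hp hpP
  rw [card_ram (Fx K 1 N) P hP0]
  set C : IntermediateField ℚ K := FixedPoints.intermediateField (Fx K 1 N) with hC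
  have hq0 : P.under (𝓞 C) ≠ ⊥ := Ideal.under_ne_bot (𝓞 C) hP0
  let w : HeightOneSpectrum (𝓞 K) := ⟨P, hP, hP0⟩
  let v : HeightOneSpectrum (𝓞 C) := ⟨P.under (𝓞 C), inferInstance, hq0⟩
  have hl : w.asIdeal.LiesOver v.asIdeal := ⟨rfl⟩
  have hfin : Finite (𝓞 C ⧸ v.asIdeal) := Ideal.finiteQuotientOfFreeOfNeBot _ v.ne_bot
  have hn : ∀ g : K ≃ₐ[C] K, g ^ m = 1 := by
    intro g
    have h1 : ∀ ζ : K, ζ ^ N = 1 → (g.restrictScalars ℚ) ζ = ζ := by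
      intro ζ hζ
      have h2 : ζ ∈ C := by
        rw [hC]
        intro h
        exact (mem_Fx1.1 h.2) ζ hζ
      exact g.commutes ⟨ζ, h2⟩
    have h3 := pow_eq_one_of_roots hFx h1
    ext x
    have h4 := congrArg (fun t : K ≃ₐ[ℚ] K => t x) h3
    have h5 : ∀ j : ℕ, (g ^ j) x = ((g.restrictScalars ℚ) ^ j) x := by
      intro j
      induction j with
      | zero => rfl
      | succ j ih => rw [pow_succ', pow_succ', AlgEquiv.mul_apply, AlgEquiv.mul_apply, ih]; rfl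
    rw [h5]
    exact h4
  have hmv : ((m : ℕ) : 𝓞 C) ∉ v.asIdeal := by
    intro h
    have h1 : (m : 𝓞 K) ∈ P := by
      have h2 : algebraMap (𝓞 C) (𝓞 K) (m : 𝓞 C) ∈ P := h
      rwa [map_natCast] at h2
    apply hP.ne_top
    rw [Ideal.eq_top_iff_one]
    have hcop : IsCoprime (p : ℤ) (m : ℤ) := by
      rw [Nat.isCoprime_iff_coprime]
      exact (Nat.Prime.coprime_iff_not_dvd hp).2 hpm
    obtain ⟨a, b, hab⟩ := hcop
    have h5 : (1 : 𝓞 K) = (a : 𝓞 K) * (p : 𝓞 K) + (b : 𝓞 K) * (m : 𝓞 K) := by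
      exact_mod_cast congrArg (fun t : ℤ => (t : 𝓞 K)) hab.symm
    rw [h5]
    exact P.add_mem (P.mul_mem_left _ hpP) (P.mul_mem_left _ h1)
  exact tame (A := 𝓞 C) (B := 𝓞 K) (k := C) (E := K) m hn v w hmv

/-- a primitive root of unity in the ring of integers -/
lemma exists_root {n N : ℕ} (hN : 0 < N) (hn : n ∣ N) {θ : K} (hθ : IsPrimitiveRoot θ N) :
    ∃ ζ : 𝓞 K, IsPrimitiveRoot ζ n := by
  obtain ⟨r, hr⟩ := hn
  have hn0 : 0 < n := Nat.pos_of_ne_zero (fun h => by rw [h, zero_mul] at hr; omega)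
  have h1 : IsPrimitiveRoot (θ ^ r) n := hθ.pow hN (by rw [hr, mul_comm])
  have hint : IsIntegral ℤ (θ ^ r) := ⟨X ^ n - 1, monic_X_pow_sub_C 1 hn0.ne', by
    simp [h1.pow_eq_one]⟩
  obtain ⟨η, hη⟩ : ∃ η : 𝓞 K, (η : K) = θ ^ r := ⟨⟨θ ^ r, hint⟩, rfl⟩
  refine ⟨η, ?_⟩
  rw [← hη] at h1
  exact IsPrimitiveRoot.of_map_of_injective h1 RingOfIntegers.coe_injective

/-- **the order of the inertia group** -/
theorem card_In {m N N' p v : ℕ} (hm : 0 < m) (hp : p.Prime) (hpm : ¬ p ∣ m) (hN0 : 0 < N)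
    (hN : N = p ^ v * N') (hpN : ¬ p ∣ N') {θ : K} (hθ : IsPrimitiveRoot θ N)
    (hFx : Fx K m N = ⊥) (P : Ideal (𝓞 K)) [hP : P.IsPrime] (hpP : (p : 𝓞 K) ∈ P) :
    Nat.card (In P) ≤ m * Nat.totient (p ^ v) := by
  classical
  have hpv : 0 < p ^ v := pow_pos hp.pos v
  have hnz : NeZero (p ^ v) := ⟨hpv.ne'⟩
  obtain ⟨ζ, hζ⟩ := exists_root hN0 (Dvd.intro _ hN.symm) hθ
  have htame := Nat.le_of_dvd hm (card_theta hp hpm hFx P hpP)
  rw [← hζ.card_primitiveRoots]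
  have hfix : ∀ σ ∈ In P, rg σ ζ = ζ → σ ∈ Fx K 1 N := by
    intro σ hσ h
    rw [mem_Fx1]
    intro ξ hξ
    have hint : IsIntegral ℤ ξ := ⟨X ^ N - 1, monic_X_pow_sub_C 1 hN0.ne', by simp [hξ]⟩
    obtain ⟨η, hη⟩ : ∃ η : 𝓞 K, (η : K) = ξ := ⟨⟨ξ, hint⟩, rfl⟩
    have hηN : η ^ N = 1 := by
      apply RingOfIntegers.coe_injective
      rw [← hη] at hξ
      simpa using hξ
    have h1 := fix_all_roots hp hN hpN (σ := σ) (fun μ hμ => by
      obtain ⟨i, _, rfl⟩ := hζ.eq_pow_of_pow_eq_one hμ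
      rw [map_pow, h]) (fun μ hμ => In_root hp hpP hpN hμ hσ) η hηN
    rw [← hη, ← rg_coe, h1]
  have hfin : Fintype (In P) := Fintype.ofFinite _
  have h1 := Finset.card_le_mul_card_image (f := fun σ : In P => rg (σ : K ≃ₐ[ℚ] K) ζ)
    (Finset.univ : Finset (In P)) m (by
      intro a ha
      obtain ⟨σ0, _, hσ0⟩ := Finset.mem_image.1 ha
      refine le_trans ?_ htame
      have hfin2 : Fintype (Fx K 1 N ⊓ In P : Subgroup (K ≃ₐ[ℚ] K)) := Fintype.ofFinite _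
      rw [Nat.card_eq_fintype_card, ← Finset.card_univ]
      refine Finset.card_le_card_of_injOn (fun σ => if h : ((σ0 : K ≃ₐ[ℚ] K)⁻¹ * σ) ∈
        (Fx K 1 N ⊓ In P : Subgroup (K ≃ₐ[ℚ] K)) then ⟨_, h⟩ else 1) (fun _ _ => by simp) ?_
      have hin : ∀ σ : In P, rg (σ : K ≃ₐ[ℚ] K) ζ = a → ((σ0 : K ≃ₐ[ℚ] K)⁻¹ * σ) ∈
          (Fx K 1 N ⊓ In P : Subgroup (K ≃ₐ[ℚ] K)) := by
        intro σ hσ
        have hI : ((σ0 : K ≃ₐ[ℚ] K)⁻¹ * σ) ∈ In P := (In P).mul_mem ((In P).inv_mem σ0.2) σ.2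
        refine ⟨hfix _ hI ?_, hI⟩
        have hσ0' : rg (σ0 : K ≃ₐ[ℚ] K) ζ = a := hσ0
        rw [rg_mul, hσ, ← hσ0', ← rg_mul, inv_mul_cancel, rg_one]
      intro σ hσ σ' hσ' h
      have e1 := hin σ (by simpa using hσ)
      have e2 := hin σ' (by simpa using hσ')
      simp only [e1, e2, dif_pos, Subtype.mk.injEq, mul_right_inj] at h
      exact Subtype.ext h)
  rw [Finset.card_univ, ← Nat.card_eq_fintype_card] at h1
  refine h1.trans (Nat.mul_le_mul_left m ?_)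
  apply Finset.card_le_card
  intro y hy
  obtain ⟨σ, _, rfl⟩ := Finset.mem_image.1 hy
  rw [mem_primitiveRoots hpv]
  exact hζ.map_of_injective (rg (σ : K ≃ₐ[ℚ] K)).injective

end Pool.Agent.U218.RA
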