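import Mathlib
import Pool.Agent.U218.RA.Ram3

/-! # The levels of the automorphisms in the inertia groups -/

set_option autoImplicit false
set_option linter.all false

open Finset Module NumberField Polynomial IsDedekindDomain

namespace Pool.Agent.U218.RA

open Pool.Agent.U218.LD Pool.Agent.U218.UX

variable {K : Type*} [Field K] [NumberField K]

lemma In_stable {P : Ideal (𝓞 K)} {τ : K ≃ₐ[ℚ] K} (hτ : τ ∈ In P) {x : 𝓞 K} (hx : x ∈ P) :
    rg τ x ∈ P := by
  have := P.add_mem (mem_In.1 hτ x) hx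
  rwa [sub_add_cancel] at this

lemma In_stable_pow {P : Ideal (𝓞 K)} {τ : K ≃ₐ[ℚ] K} (hτ : τ ∈ In P) {x : 𝓞 K} {n : ℕ}
    (hx : x ∈ P ^ n) : rg τ x ∈ P ^ n := by
  have h1 : rg τ x ∈ (P ^ n).map ((rg τ : 𝓞 K ≃ₐ[ℤ] 𝓞 K) : 𝓞 K →+* 𝓞 K) :=
    Ideal.mem_map_of_mem ((rg τ : 𝓞 K ≃ₐ[ℤ] 𝓞 K) : 𝓞 K →+* 𝓞 K) hx
  rw [Ideal.map_pow] at h1
  refine Ideal.pow_right_mono ?_ n h1
  rw [Ideal.map_le_iff_le_comap]
  intro y hy
  exact In_stable hτ hy

/-- the first level -/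
theorem lev1 {p : ℕ} (hp : p.Prime) (P : Ideal (𝓞 K)) [hP : P.IsPrime] (hpP : (p : 𝓞 K) ∈ P)
    {τ : K ≃ₐ[ℚ] K} (hτ : τ ∈ In P) {r : ℕ} (hr : τ ^ p ^ r = 1) (x : 𝓞 K) :
    rg τ x - x ∈ P ^ 2 := by
  have hP0 := ne_bot_of_mem hp hpP
  have : Fact p.Prime := ⟨hp⟩
  have hchar : CharP (𝓞 K ⧸ P) p := by
    have hnt : Nontrivial (𝓞 K ⧸ P) := Ideal.Quotient.nontrivial_iff.2 hP.ne_top
    have h1 : ringChar (𝓞 K ⧸ P) = p := CharP.ringChar_of_prime_eq_zero hp (by
      rw [← map_natCast (Ideal.Quotient.mk P)]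
      exact Ideal.Quotient.eq_zero_iff_mem.2 hpP)
    exact h1 ▸ ringChar.charP (𝓞 K ⧸ P)
  -- a uniformiser
  obtain ⟨π, hπ, hπ2⟩ : ∃ π ∈ P, π ∉ P ^ 2 := by
    by_contra hcon
    push Not at hcon
    have h1 : P ≤ P ^ 2 := hcon
    have h2 : P ^ 2 < P := by
      have := Ideal.pow_succ_lt_pow (P := P) hP0 (i := 1)
      rwa [pow_one] at this
    exact absurd (lt_of_lt_of_le h2 h1) (lt_irrefl _)
  have hπ1 : π ∈ P ^ 1 := by rwa [pow_one]
  obtain ⟨t, y, hy, hty⟩ := Ideal.exists_mul_add_mem_pow_succ hP0 π (rg τ π) hπ1 hπ2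
    (by rw [pow_one]; exact In_stable hτ hπ)
  have hy' : y ∈ P ^ 2 := hy
  -- the action of the powers
  have h1 : ∀ j : ℕ, rg (τ ^ j) π - t ^ j * π ∈ P ^ 2 := by
    intro j
    induction j with
    | zero => rw [pow_zero, rg_one, pow_zero, one_mul, sub_self]; exact zero_mem _
    | succ j ih =>
      have h2 := In_stable_pow hτ ih
      rw [map_sub, map_mul, ← rg_mul, ← pow_succ', map_pow] at h2
      have h3 : (rg τ t) ^ j - t ^ j ∈ P := by
        rw [← Ideal.Quotient.eq, map_pow, map_pow]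
        congr 1
        rw [Ideal.Quotient.eq]
        exact mem_In.1 hτ t
      have h4 : ((rg τ t) ^ j - t ^ j) * rg τ π ∈ P ^ 2 := by
        rw [pow_two]
        exact Ideal.mul_mem_mul h3 (In_stable hτ hπ)
      have h5 : rg (τ ^ (j + 1)) π - t ^ (j + 1) * π =
          (rg (τ ^ (j + 1)) π - (rg τ t) ^ j * rg τ π) + ((rg τ t) ^ j - t ^ j) * rg τ π +
            t ^ j * y := by
        rw [← hty]; ring
      rw [h5]
      exact (P ^ 2).add_mem ((P ^ 2).add_mem h2 h4) ((P ^ 2).mul_mem_left _ hy')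
  have h2 := h1 (p ^ r)
  rw [hr, rg_one] at h2
  have h3 : π * (1 - t ^ p ^ r) ∈ P ^ 2 := by
    convert h2 using 1; ring
  have h4 : 1 - t ^ p ^ r ∈ P := by
    rcases Ideal.IsPrime.mem_pow_mul P h3 with h | h
    · exact absurd h hπ2
    · exact h
  have h5 : 1 - t ∈ P := by
    rw [← Ideal.Quotient.eq_zero_iff_mem, map_sub, map_one, map_pow] at h4
    rw [← Ideal.Quotient.eq_zero_iff_mem, map_sub, map_one]
    have h6 : (1 - Ideal.Quotient.mk P t) ^ p ^ r = 0 := by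
      rw [sub_pow_char_pow, one_pow]; exact h4
    exact pow_eq_zero_iff (pow_ne_zero _ hp.ne_zero) |>.1 h6
  -- elements of `P`
  have h6 : ∀ z ∈ P, rg τ z - z ∈ P ^ 2 := by
    intro z hz
    obtain ⟨a, b, hb, hab⟩ := Ideal.exists_mul_add_mem_pow_succ hP0 π z hπ1 hπ2
      (by rwa [pow_one])
    have hb' : b ∈ P ^ 2 := hb
    have h7 : rg τ z - z = (rg τ a - a) * rg τ π - a * ((1 - t) * π) + a * y +
        (rg τ b - b) := by
      rw [← hab, map_add, map_mul, ← hty]; ring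
    rw [h7]
    refine (P ^ 2).add_mem ((P ^ 2).add_mem ((P ^ 2).sub_mem ?_ ?_) ?_) ?_
    · rw [pow_two]; exact Ideal.mul_mem_mul (mem_In.1 hτ a) (In_stable hτ hπ)
    · apply (P ^ 2).mul_mem_left
      rw [pow_two]; exact Ideal.mul_mem_mul h5 hπ
    · exact (P ^ 2).mul_mem_left _ hy'
    · exact (P ^ 2).sub_mem (In_stable_pow hτ hb') hb'
  -- powers
  have hmax : P.IsMaximal := hP.isMaximal hP0
  have hfin : Finite (𝓞 K ⧸ P) := Ideal.finiteQuotientOfFreeOfNeBot P hP0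
  letI := Ideal.Quotient.field P
  letI : Fintype (𝓞 K ⧸ P) := Fintype.ofFinite _
  set q := Fintype.card (𝓞 K ⧸ P) with hq
  have hqx : ∀ x : 𝓞 K, x ^ q - x ∈ P := by
    intro x
    rw [← Ideal.Quotient.eq, map_pow, hq, FiniteField.pow_card]
  have hpq : (q : 𝓞 K ⧸ P) = 0 := by
    rw [hq]
    exact Nat.cast_card_eq_zero _
  have h8 : rg τ x ^ q - x ^ q ∈ P ^ 2 := by
    rw [← geom_sum₂_mul, pow_two]
    refine Ideal.mul_mem_mul ?_ (mem_In.1 hτ x)
    rw [← Ideal.Quotient.eq_zero_iff_mem, map_sum]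
    have h9 : Ideal.Quotient.mk P (rg τ x) = Ideal.Quotient.mk P x := by
      rw [Ideal.Quotient.eq]; exact mem_In.1 hτ x
    have h10 : ∀ i ∈ Finset.range q, Ideal.Quotient.mk P (rg τ x ^ i * x ^ (q - 1 - i)) =
        (Ideal.Quotient.mk P x) ^ (q - 1) := by
      intro i hi
      rw [map_mul, map_pow, map_pow, h9, ← pow_add]
      congr 1
      have := Finset.mem_range.1 hi
      omega
    rw [Finset.sum_congr rfl h10, Finset.sum_const, Finset.card_range, nsmul_eq_mul, hpq, zero_mul]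
  have h9 := h6 _ (hqx x)
  have h10 : rg τ x - x = (rg τ x ^ q - x ^ q) - (rg τ (x ^ q - x) - (x ^ q - x)) := by
    rw [map_sub, map_pow]; ring
  rw [h10]
  exact (P ^ 2).sub_mem h8 h9

/-- the level of the `p`-th power -/
theorem lev2 {p : ℕ} (hp : p.Prime) (P : Ideal (𝓞 K)) {τ : K ≃ₐ[ℚ] K} (hτ : τ ∈ In P) {l e n : ℕ}
    (hl : 0 < l) (h : ∀ x : 𝓞 K, rg τ x - x ∈ P ^ (l + 1)) (hpe : (p : 𝓞 K) ∈ P ^ e)
    (h1 : n ≤ p * l) (h2 : n ≤ l + e) (x : 𝓞 K) : rg (τ ^ p) x - x ∈ P ^ (n + 1) := by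
  -- the difference operator
  set T : Module.End ℤ (𝓞 K) := (rg τ).toLinearMap with hT
  set δ : Module.End ℤ (𝓞 K) := T - 1 with hδ
  have hδx : ∀ x : 𝓞 K, δ x = rg τ x - x := fun x => rfl
  have hTj : ∀ (j : ℕ) (x : 𝓞 K), (T ^ j) x = rg (τ ^ j) x := by
    intro j
    induction j with
    | zero => intro x; rw [pow_zero, pow_zero, rg_one]; rfl
    | succ j ih =>
      intro x
      rw [pow_succ', pow_succ', rg_mul, ← ih]
      rfl
  have hshift : ∀ (i : ℕ) (x : 𝓞 K), x ∈ P ^ i → δ x ∈ P ^ (i + l) := by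
    intro i
    induction i with
    | zero =>
      intro x _
      rw [hδx, zero_add]
      exact Ideal.pow_le_pow_right (Nat.le_succ l) (h x)
    | succ i ih =>
      intro x hx
      rw [pow_succ] at hx
      refine Submodule.mul_induction_on hx ?_ ?_
      · intro a ha b hb
        have e1 : δ (a * b) = δ a * rg τ b + a * δ b := by
          rw [hδx, hδx, hδx, map_mul]; ring
        rw [e1]
        refine (P ^ (i + 1 + l)).add_mem ?_ ?_
        · have := Ideal.mul_mem_mul (ih a ha) (In_stable hτ hb)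
          rwa [← pow_succ, show i + l + 1 = i + 1 + l by ring] at this
        · have := Ideal.mul_mem_mul ha (h b)
          rwa [← pow_add, show i + (l + 1) = i + 1 + l by ring] at this
      · intro a b ha hb
        rw [map_add]
        exact (P ^ (i + 1 + l)).add_mem ha hb
  have hδj : ∀ (j : ℕ) (x : 𝓞 K), (δ ^ (j + 1)) x ∈ P ^ ((j + 1) * l + 1) := by
    intro j
    induction j with
    | zero =>
      intro x
      rw [zero_add, pow_one, one_mul]
      exact h x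
    | succ j ih =>
      intro x
      have := hshift _ _ (ih x)
      rw [show (j + 1) * l + 1 + l = (j + 1 + 1) * l + 1 by ring] at this
      have e1 : (δ ^ (j + 1 + 1)) x = δ ((δ ^ (j + 1)) x) := by rw [pow_succ' δ (j + 1)]; rfl
      rw [e1]
      exact this
  have hT1 : T = 1 + δ := by rw [hδ]; abel
  have hcomm : Commute (1 : Module.End ℤ (𝓞 K)) δ := Commute.one_left δ
  have h3 := hcomm.add_pow_prime_eq hp
  rw [← hT1] at h3
  set S := ∑ k ∈ Finset.Ioo 0 p, (1 : Module.End ℤ (𝓞 K)) ^ (k - 1) * δ ^ (p - k - 1) *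
    ((p.choose k / p : ℕ) : Module.End ℤ (𝓞 K)) with hS
  have h4 : rg (τ ^ p) x - x = (δ ^ p) x + (p : 𝓞 K) * δ (S x) := by
    rw [← hTj, h3, one_pow, mul_one]
    simp only [LinearMap.add_apply, Module.End.one_apply]
    have h5 : ((p : Module.End ℤ (𝓞 K)) * δ * S) x = (p : 𝓞 K) * δ (S x) := by
      rw [mul_assoc]
      show ((p : Module.End ℤ (𝓞 K))) (δ (S x)) = _
      rw [Module.End.natCast_apply, nsmul_eq_mul]
    rw [h5]; ring
  rw [h4]
  refine (P ^ (n + 1)).add_mem ?_ ?_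
  · have h5 := hδj (p - 1) x
    rw [Nat.sub_add_cancel hp.one_lt.le] at h5
    exact Ideal.pow_le_pow_right (by omega) h5
  · have h5 := Ideal.mul_mem_mul hpe (h (S x))
    rw [← pow_add] at h5
    exact Ideal.pow_le_pow_right (by omega) h5

theorem lev {p : ℕ} (hp : p.Prime) (P : Ideal (𝓞 K)) [hP : P.IsPrime] (hpP : (p : 𝓞 K) ∈ P)
    {τ : K ≃ₐ[ℚ] K} (hτ : τ ∈ In P) {R : ℕ} (hR : τ ^ p ^ R = 1) {e : ℕ}
    (hpe : (p : 𝓞 K) ∈ P ^ e) (r : ℕ) (hr : p ^ r ≤ e) (x : 𝓞 K) :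
    rg (τ ^ p ^ r) x - x ∈ P ^ (p ^ r + 1) := by
  induction r generalizing x with
  | zero => simpa using lev1 hp P hpP hτ hR x
  | succ r ih =>
    have h1 : p ^ r ≤ p ^ (r + 1) := Nat.pow_le_pow_right hp.pos (Nat.le_succ r)
    have h2 := ih (h1.trans hr)
    have h3 := lev2 hp P (τ := τ ^ p ^ r) ((In P).pow_mem hτ _) (l := p ^ r) (e := e)
      (n := p ^ (r + 1)) (pow_pos hp.pos _) h2 hpe (by rw [pow_succ, mul_comm]) (by omega) x
    rwa [← pow_mul, ← pow_succ] at h3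

end Pool.Agent.U218.RA
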