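import Mathlib
import Pool.Agent.U218.RA.Ram4

/-! # The three kinds of primes -/

set_option autoImplicit false
set_option linter.all false

open Finset Module NumberField Polynomial IsDedekindDomain

namespace Pool.Agent.U218.RA

open Pool.Agent.U218.LD Pool.Agent.U218.UX

variable {K : Type*} [Field K] [NumberField K] [IsGalois ℚ K]

omit [IsGalois ℚ K] in
variable (K) in
lemma exists_prime_above {p : ℕ} (hp : p.Prime) :
    ∃ P : Ideal (𝓞 K), P.IsPrime ∧ (p : 𝓞 K) ∈ P := by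
  have hpr : (Ideal.span {(p : ℤ)}).IsPrime := by
    rw [Ideal.span_singleton_prime (by exact_mod_cast hp.ne_zero)]
    exact Nat.prime_iff_prime_int.mp hp
  obtain ⟨⟨P, hP1, hP2⟩⟩ := (Ideal.span {(p : ℤ)}).nonempty_primesOver (S := 𝓞 K)
  refine ⟨P, hP1, ?_⟩
  have h1 : (p : ℤ) ∈ P.under ℤ := by
    rw [← hP2.over]
    exact Ideal.mem_span_singleton_self _
  rw [Ideal.under_def, Ideal.mem_comap] at h1
  simpa using h1

/-- central automorphisms in all inertia groups above `p` -/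
theorem exists_c {m N N' p v : ℕ} (hp : p.Prime) (hN0 : 0 < N) (hN : N = p ^ (v + 1) * N')
    (hpN : ¬ p ∣ N') (hFx : Fx K m N = ⊥) {ζ : 𝓞 K} (hζ : IsPrimitiveRoot ζ (p ^ (v + 1)))
    {u : ℕ} (hu : u.Coprime p) :
    ∃ c : K ≃ₐ[ℚ] K, (∃ τ, c = τ ^ m) ∧ rg c ζ = ζ ^ (u ^ m) ∧
      (∀ ξ : 𝓞 K, ξ ^ N' = 1 → rg c ξ = ξ) ∧
      ∀ P : Ideal (𝓞 K), P.IsPrime → (p : 𝓞 K) ∈ P → c ∈ In P := by
  obtain ⟨P, hP, hpP⟩ := exists_prime_above K hp
  obtain ⟨σ, hσ, hσζ⟩ := inertia_surj hp hζ P hpP hu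
  have hpow : ∀ j : ℕ, rg (σ ^ j) ζ = ζ ^ (u ^ j) := by
    intro j
    induction j with
    | zero => rw [pow_zero, rg_one, pow_zero, pow_one]
    | succ j ih => rw [pow_succ', rg_mul, ih, map_pow, hσζ, ← pow_mul, pow_succ']
  refine ⟨σ ^ m, ⟨σ, rfl⟩, hpow m, ?_, ?_⟩
  · intro ξ hξ
    exact In_root hp hpP hpN hξ ((In P).pow_mem hσ m)
  · intro P' hP' hpP'
    exact In_all hN0 hFx hp hpP (fun x hx => hx σ) ((In P).pow_mem hσ m) P' hP' hpP'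

/-- primes which do not divide `N` -/
theorem good_J {m N p : ℕ} (hm : 0 < m) (hp : p.Prime) (hpm : ¬ p ∣ m) (hN0 : 0 < N)
    (hpN : ¬ p ∣ N) {θ : K} (hθ : IsPrimitiveRoot θ N) (hFx : Fx K m N = ⊥) :
    Jn K p 1 ^ m ≤ Ideal.span {(p : 𝓞 K)} := by
  apply Jn_pow hp
  intro P hP hpP
  have := card_In (N' := N) (v := 0) hm hp hpm hN0 (by simp) hpN hθ hFx P hpP
  simpa using this

/-- tame primes, one prime -/
theorem tame_J1 {m N N' p : ℕ} (hm : 0 < m) (hp : p.Prime) (hpm : ¬ p ∣ m) (hN0 : 0 < N)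
    (hN : N = p * N') (hpN : ¬ p ∣ N') {θ : K} (hθ : IsPrimitiveRoot θ N) (hFx : Fx K m N = ⊥) :
    Jn K p 1 ^ (p * m) ≤ Ideal.span {(p : 𝓞 K)} := by
  apply Jn_pow hp
  intro P hP hpP
  have := card_In (N' := N') (v := 1) hm hp hpm hN0 (by simpa using hN) hpN hθ hFx P hpP
  rw [pow_one, Nat.totient_prime hp] at this
  calc _ ≤ m * (p - 1) := this
    _ ≤ m * p := Nat.mul_le_mul_left m (Nat.sub_le p 1)
    _ = 1 * (p * m) := by ring

/-- tame primes with an additional fixed element -/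
theorem tame_Jk {m N N' p : ℕ} (hm : 0 < m) (hp : p.Prime) (hpm : ¬ p ∣ m) (hN0 : 0 < N)
    (hN : N = p * N') (hpN : ¬ p ∣ N') {θ : K} (hθ : IsPrimitiveRoot θ N) (hFx : Fx K m N = ⊥)
    {ζ : 𝓞 K} (hζ : IsPrimitiveRoot ζ p) {u : ℕ} (hu : ∀ j : ℕ, u ^ j ≡ 1 [MOD p] → p - 1 ∣ j)
    {c : K ≃ₐ[ℚ] K} (hc : rg c ζ = ζ ^ (u ^ m))
    (hcI : ∀ P : Ideal (𝓞 K), P.IsPrime → (p : 𝓞 K) ∈ P → c ∈ In P) {k : ℕ} (hk : 0 < k) :
    ∃ n : ℕ, (∀ b ∈ Jn K p 1, rg (c ^ k) b = b → b ∈ Jn K p n) ∧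
      Jn K p n ^ (m ^ 2 * k) ≤ Ideal.span {(p : 𝓞 K)} := by
  set n := Nat.card (Subgroup.zpowers (c ^ k)) with hn
  have hn0 : 0 < n := Nat.card_pos
  have hpow : ∀ j : ℕ, rg (c ^ j) ζ = ζ ^ (u ^ (m * j)) := by
    intro j
    induction j with
    | zero => rw [pow_zero, rg_one, mul_zero, pow_zero, pow_one]
    | succ j ih =>
      rw [pow_succ', rg_mul, ih, map_pow, hc, ← pow_mul, ← pow_add]
      congr 2
      ring
  have hdvd : p - 1 ∣ m * (k * n) := by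
    apply hu
    have h1 : (c ^ k) ^ n = 1 := by
      rw [hn, Nat.card_zpowers]
      exact pow_orderOf_eq_one _
    have h2 := hpow (k * n)
    rw [pow_mul, h1, rg_one] at h2
    by_cases hp2 : u ^ (m * (k * n)) % p = 1 % p
    · exact hp2
    · exfalso
      have e1 : ζ ^ (u ^ (m * (k * n)) % p) = ζ ^ (1 % p) := by
        have h3 : ∀ i : ℕ, ζ ^ i = ζ ^ (i % p) := by
          intro i
          conv_lhs => rw [← Nat.div_add_mod i p, pow_add, pow_mul, hζ.pow_eq_one, one_pow, one_mul]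
        rw [← h3, ← h3, ← h2, pow_one]
      exact hp2 (hζ.pow_inj (Nat.mod_lt _ hp.pos) (Nat.mod_lt _ hp.pos) e1)
  have hle : p - 1 ≤ m * (k * n) := Nat.le_of_dvd (by positivity) hdvd
  refine ⟨n, ?_, ?_⟩
  · intro b hb hfix
    rw [mem_Jn]
    intro P hP hpP
    have h1 := lemA (Subgroup.zpowers (c ^ k)) P (ne_bot_of_mem hp hpP) b (by
      have := mem_Jn.1 hb P hP hpP
      rwa [pow_one] at this) (by
      intro g hg
      obtain ⟨j, rfl⟩ := hg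
      have h2 : ∀ i : ℕ, rg ((c ^ k) ^ i) b = b := by
        intro i
        induction i with
        | zero => rw [pow_zero, rg_one]
        | succ i ih => rw [pow_succ', rg_mul, ih, hfix]
      obtain ⟨i, rfl | rfl⟩ := j.eq_nat_or_neg
      · simpa using h2 i
      · have h3 := congrArg (rg ((c ^ k) ^ i)⁻¹) (h2 i)
        rw [← rg_mul, inv_mul_cancel, rg_one] at h3
        simpa using h3.symm)
    have h2 : Subgroup.zpowers (c ^ k) ⊓ In P = Subgroup.zpowers (c ^ k) := by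
      rw [inf_eq_left, Subgroup.zpowers_le]
      exact (In P).pow_mem (hcI P hP hpP) k
    rwa [h2] at h1
  · apply Jn_pow hp
    intro P hP hpP
    have := card_In (N' := N') (v := 1) hm hp hpm hN0 (by simpa using hN) hpN hθ hFx P hpP
    rw [pow_one, Nat.totient_prime hp] at this
    calc _ ≤ m * (p - 1) := this
      _ ≤ m * (m * (k * n)) := Nat.mul_le_mul_left m hle
      _ = n * (m ^ 2 * k) := by ring

omit [IsGalois ℚ K] in
lemma p_mem_pow {p v : ℕ} (hp : p.Prime) {ζ : 𝓞 K} (hζ : IsPrimitiveRoot ζ (p ^ (v + 1)))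
    (P : Ideal (𝓞 K)) [hP : P.IsPrime] (hpP : (p : 𝓞 K) ∈ P) :
    (p : 𝓞 K) ∈ P ^ (p ^ v * (p - 1)) := by
  have hpos : 0 < p ^ (v + 1) := pow_pos hp.pos _
  have h1 : ∏ μ ∈ primitiveRoots (p ^ (v + 1)) (𝓞 K), (1 - μ) ∈
      ∏ _μ ∈ primitiveRoots (p ^ (v + 1)) (𝓞 K), P :=
    Ideal.prod_mem_prod fun μ hμ => one_sub_mem hp hζ P hpP μ ((mem_primitiveRoots hpos).1 hμ).pow_eq_one
  rw [prod_one_sub hp hζ, Finset.prod_const, hζ.card_primitiveRoots,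
    Nat.totient_prime_pow_succ hp] at h1
  exact h1

/-- wild primes -/
theorem wild_J {m N N' p v : ℕ} (hm : 0 < m) (hp : p.Prime) (hp2 : p ≠ 2) (hpm : ¬ p ∣ m)
    (hN0 : 0 < N) (hN : N = p ^ (v + 2) * N') (hpN : ¬ p ∣ N') {θ : K}
    (hθ : IsPrimitiveRoot θ N) (hFx : Fx K m N = ⊥) :
    ∃ γ : K ≃ₐ[ℚ] K, (∃ τ, γ = τ ^ m) ∧ γ ∈ Fx K m (N / p) ∧ (∀ k, 0 < k → k < p → γ ^ k ≠ 1) ∧
      (∀ x : 𝓞 K, rg γ x - x ∈ Jn K p (p ^ v)) ∧
      Jn K p (p ^ v) ^ (p ^ 2 * m) ≤ Ideal.span {(p : 𝓞 K)} := by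
  obtain ⟨ζ, hζ⟩ := exists_root (n := p ^ (v + 1 + 1)) hN0 ⟨N', hN⟩ hθ
  have hu : (1 + p).Coprime p := by simp
  obtain ⟨c, ⟨τ, hτ⟩, hcζ, hcN, hcI⟩ := exists_c (v := v + 1) hp hN0 hN hpN hFx hζ hu
  have hpow : ∀ j : ℕ, rg (c ^ j) ζ = ζ ^ ((1 + p) ^ (m * j)) := by
    intro j
    induction j with
    | zero => rw [pow_zero, rg_one, mul_zero, pow_zero, pow_one]
    | succ j ih =>
      rw [pow_succ', rg_mul, ih, map_pow, hcζ, ← pow_mul, ← pow_add]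
      congr 2
      ring
  have hζ2 : ∀ i : ℕ, ζ ^ i = ζ ^ (i % p ^ (v + 1 + 1)) := by
    intro i
    conv_lhs => rw [← Nat.div_add_mod i (p ^ (v + 1 + 1)), pow_add, pow_mul, hζ.pow_eq_one,
      one_pow, one_mul]
  have hfixj : ∀ j : ℕ, rg (c ^ j) ζ = ζ ↔ p ^ (v + 1) ∣ m * j := by
    intro j
    have hord := ZMod.orderOf_one_add_prime hp hp2 (v + 1)
    rw [← hord, orderOf_dvd_iff_pow_eq_one, hpow]
    have h1 : ((1 + p : ZMod (p ^ (v + 1 + 1))) ^ (m * j) = 1) ↔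
        (1 + p) ^ (m * j) ≡ 1 [MOD p ^ (v + 1 + 1)] := by
      rw [← ZMod.natCast_eq_natCast_iff]
      push_cast
      rfl
    rw [h1]
    have hpos : 0 < p ^ (v + 1 + 1) := pow_pos hp.pos _
    constructor
    · intro h
      have h2 : ζ ^ ((1 + p) ^ (m * j) % p ^ (v + 1 + 1)) = ζ ^ (1 % p ^ (v + 1 + 1)) := by
        rw [← hζ2, ← hζ2, pow_one, h]
      exact hζ.pow_inj (Nat.mod_lt _ hpos) (Nat.mod_lt _ hpos) h2
    · intro h
      rw [hζ2, h, ← hζ2, pow_one]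
  have hroot : ∀ j : ℕ, ∀ ξ : 𝓞 K, ξ ^ N' = 1 → rg (c ^ j) ξ = ξ := by
    intro j
    induction j with
    | zero => intro ξ _; rw [pow_zero, rg_one]
    | succ j ih => intro ξ hξ; rw [pow_succ', rg_mul, ih ξ hξ, hcN ξ hξ]
  have hc0 : ∀ (j : ℕ) (x : K), F0 m x → (c ^ j) x = x := by
    intro j x hx
    rw [hτ, ← pow_mul, mul_comm, pow_mul]
    exact hx (τ ^ j)
  have hlift : ∀ (n : ℕ), 0 < n → ∀ g : K ≃ₐ[ℚ] K, (∀ ξ : 𝓞 K, ξ ^ n = 1 → rg g ξ = ξ) →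
      ∀ ξ : K, ξ ^ n = 1 → g ξ = ξ := by
    intro n hn g hg ξ hξ
    have hint : IsIntegral ℤ ξ := ⟨X ^ n - 1, monic_X_pow_sub_C 1 hn.ne', by simp [hξ]⟩
    obtain ⟨η, hη⟩ : ∃ η : 𝓞 K, (η : K) = ξ := ⟨⟨ξ, hint⟩, rfl⟩
    have hηN : η ^ n = 1 := by
      apply RingOfIntegers.coe_injective
      rw [← hη] at hξ
      simpa using hξ
    rw [← hη, ← rg_coe, hg η hηN]
  -- the order of `c`
  have hcord : c ^ p ^ (v + 1) = 1 := by
    have h1 : c ^ p ^ (v + 1) ∈ Fx K m N := by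
      refine ⟨hc0 _, hlift N hN0 _ ?_⟩
      intro ξ hξ
      refine fix_all_roots hp (v := v + 2) hN hpN ?_ (hroot _) ξ hξ
      intro μ hμ
      have hnz : NeZero (p ^ (v + 1 + 1)) := ⟨(pow_pos hp.pos _).ne'⟩
      obtain ⟨i, _, rfl⟩ := hζ.eq_pow_of_pow_eq_one hμ
      rw [map_pow, (hfixj _).2 (Dvd.intro_left _ rfl)]
    rwa [hFx, Subgroup.mem_bot] at h1
  set γ := c ^ p ^ v with hγ
  have hNp : N / p = p ^ (v + 1) * N' := by
    rw [hN, pow_succ p (v + 1), show p ^ (v + 1) * p * N' = p * (p ^ (v + 1) * N') by ring,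
      Nat.mul_div_cancel_left _ hp.pos]
  have hN'0 : 0 < N' := Nat.pos_of_ne_zero (fun h => hpN (h ▸ dvd_zero p))
  refine ⟨γ, ⟨τ ^ p ^ v, by rw [hγ, hτ, ← pow_mul, ← pow_mul, mul_comm]⟩, ?_, ?_, ?_, ?_⟩
  · refine ⟨hc0 _, hlift (N / p) (by rw [hNp]; exact Nat.mul_pos (pow_pos hp.pos _) hN'0) _ ?_⟩
    intro ξ hξ
    refine fix_all_roots hp (v := v + 1) hNp hpN ?_ (hroot _) ξ hξ
    intro μ hμ
    -- `μ` is a power of `ζ ^ p`
    have hμ' : IsPrimitiveRoot (ζ ^ p) (p ^ (v + 1)) :=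
      hζ.pow (pow_pos hp.pos _) (by rw [pow_succ p (v + 1), mul_comm])
    have hnz : NeZero (p ^ (v + 1)) := ⟨(pow_pos hp.pos _).ne'⟩
    obtain ⟨i, _, rfl⟩ := hμ'.eq_pow_of_pow_eq_one hμ
    rw [map_pow, map_pow]
    congr 1
    rw [hpow, ← pow_mul]
    have hord := ZMod.orderOf_one_add_prime hp hp2 v
    have h1 : (1 + p) ^ (m * p ^ v) ≡ 1 [MOD p ^ (v + 1)] := by
      rw [← ZMod.natCast_eq_natCast_iff]
      push_cast
      rw [← orderOf_dvd_iff_pow_eq_one, hord]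
      exact Dvd.intro_left _ rfl
    have h2 : (1 + p) ^ (m * p ^ v) * p ≡ 1 * p [MOD p ^ (v + 1 + 1)] := by
      rw [pow_succ p (v + 1)]
      exact Nat.ModEq.mul_right' p h1
    rw [hζ2, h2, ← hζ2, one_mul]
  · intro k hk hkp h
    have h1 : rg (c ^ (p ^ v * k)) ζ = ζ := by
      rw [pow_mul, ← hγ, h, rg_one]
    rw [hfixj, pow_succ, show m * (p ^ v * k) = p ^ v * (m * k) by ring] at h1
    have h2 := Nat.dvd_of_mul_dvd_mul_left (pow_pos hp.pos v) h1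
    rcases (Nat.Prime.dvd_mul hp).1 h2 with h3 | h3
    · exact hpm h3
    · exact absurd (Nat.le_of_dvd hk h3) (not_le.2 hkp)
  · intro x
    rw [mem_Jn]
    intro P hP hpP
    have h1 := p_mem_pow hp hζ P hpP
    have h2 := lev hp P hpP (hcI P hP hpP) hcord h1 v (by
      calc p ^ v ≤ p ^ (v + 1) * 1 := by
            rw [mul_one]; exact Nat.pow_le_pow_right hp.pos (Nat.le_succ v)
        _ ≤ p ^ (v + 1) * (p - 1) := Nat.mul_le_mul_left _ (by have := hp.two_le; omega)) x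
    exact Ideal.pow_le_pow_right (Nat.le_succ _) h2
  · apply Jn_pow hp
    intro P hP hpP
    have := card_In (N' := N') (v := v + 2) hm hp hpm hN0 hN hpN hθ hFx P hpP
    calc _ ≤ m * Nat.totient (p ^ (v + 2)) := this
      _ ≤ m * p ^ (v + 2) := Nat.mul_le_mul_left m (Nat.totient_le _)
      _ = p ^ v * (p ^ 2 * m) := by ring

end Pool.Agent.U218.RA
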