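import Mathlib
import Pool.Agent.U218.RA.Ram5
import Pool.Agent.U218.RA.Orb3

/-! # Transfer to extensions -/

set_option autoImplicit false
set_option linter.all false

open Finset Module NumberField Polynomial IsDedekindDomain

namespace Pool.Agent.U218.RA

open Pool.Agent.U218.LD Pool.Agent.U218.UX

variable (M : Type*) [Field M] [NumberField M] [IsGalois ℚ M]

/-- the fixed field of `Fx M m N` -/
abbrev KF (m N : ℕ) : IntermediateField ℚ M := IntermediateField.fixedField (Fx M m N)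

instance (m N : ℕ) : IsGalois ℚ (KF M m N) := IsGalois.of_fixedField_normal_subgroup (Fx M m N)

variable {M}

lemma mem_KF {m N : ℕ} {x : M} : x ∈ KF M m N ↔ ∀ g ∈ Fx M m N, g x = x := by
  rw [IntermediateField.mem_fixedField_iff]

/-- the restriction -/
noncomputable abbrev rs (m N : ℕ) (g : M ≃ₐ[ℚ] M) : KF M m N ≃ₐ[ℚ] KF M m N :=
  AlgEquiv.restrictNormal g (KF M m N)

lemma rs_coe {m N : ℕ} (g : M ≃ₐ[ℚ] M) (x : KF M m N) : ((rs m N g x : KF M m N) : M) = g x :=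
  AlgEquiv.restrictNormal_commutes g (KF M m N) x

lemma rs_surj {m N : ℕ} (γ : KF M m N ≃ₐ[ℚ] KF M m N) : ∃ g : M ≃ₐ[ℚ] M, rs m N g = γ :=
  AlgEquiv.restrictNormalHom_surjective M γ

lemma rs_pow {m N : ℕ} (g : M ≃ₐ[ℚ] M) (k : ℕ) : rs m N (g ^ k) = (rs m N g) ^ k :=
  map_pow (AlgEquiv.restrictNormalHom (KF M m N)) g k

lemma F0_rs {m N : ℕ} {x : M} (hx : F0 m x) (h : x ∈ KF M m N) :
    F0 m (⟨x, h⟩ : KF M m N) := by
  intro γ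
  obtain ⟨g, rfl⟩ := rs_surj γ
  rw [← rs_pow]
  apply Subtype.ext
  rw [rs_coe]
  exact hx g

lemma F0_rs' {m N : ℕ} {x : KF M m N} (hx : F0 m x) : F0 m (x : M) := by
  intro g
  have := hx (rs m N g)
  rw [← rs_pow] at this
  rw [← rs_coe, this]

lemma mem_Fx_of_rs {m N n : ℕ} (hn : n ∣ N) {g : M ≃ₐ[ℚ] M} (h : rs m N g ∈ Fx (KF M m N) m n) :
    g ∈ Fx M m n := by
  refine ⟨fun x hx => ?_, fun ζ hζ => ?_⟩
  · have hmem : x ∈ KF M m N := mem_KF.2 fun g hg => (mem_Fx.1 hg).1 x hx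
    have h1 := (mem_Fx.1 h).1 ⟨x, hmem⟩ (F0_rs hx hmem)
    have h2 := congrArg (fun t : KF M m N => (t : M)) h1
    simp only [rs_coe] at h2
    exact h2
  · have hmem : ζ ∈ KF M m N := mem_KF.2 fun g hg => (mem_Fx.1 hg).2 ζ (by
      obtain ⟨k, rfl⟩ := hn
      rw [pow_mul, hζ, one_pow])
    have h1 := (mem_Fx.1 h).2 ⟨ζ, hmem⟩ (Subtype.ext hζ)
    have h2 := congrArg (fun t : KF M m N => (t : M)) h1
    simp only [rs_coe] at h2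
    exact h2

lemma rs_mem_Fx {m N n : ℕ} {g : M ≃ₐ[ℚ] M} (h : g ∈ Fx M m n) : rs m N g ∈ Fx (KF M m N) m n := by
  refine ⟨fun x hx => ?_, fun ζ hζ => ?_⟩
  · apply Subtype.ext
    rw [rs_coe]
    exact (mem_Fx.1 h).1 _ (F0_rs' hx)
  · apply Subtype.ext
    rw [rs_coe]
    exact (mem_Fx.1 h).2 _ (congrArg (fun t : KF M m N => (t : M)) hζ)

lemma rs_eq_one {m N : ℕ} {g : M ≃ₐ[ℚ] M} : rs m N g = 1 ↔ g ∈ Fx M m N := by
  constructor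
  · intro h
    apply mem_Fx_of_rs dvd_rfl
    rw [h]
    exact Subgroup.one_mem _
  · intro h
    ext x
    rw [AlgEquiv.one_apply, rs_coe]
    exact mem_KF.1 x.2 g h

lemma Fx_KF (m N : ℕ) : Fx (KF M m N) m N = ⊥ := by
  rw [eq_bot_iff]
  intro γ hγ
  obtain ⟨g, rfl⟩ := rs_surj γ
  rw [Subgroup.mem_bot, rs_eq_one]
  exact mem_Fx_of_rs dvd_rfl hγ

lemma exists_down {m N : ℕ} {x : 𝓞 M} (hx : ∀ g ∈ Fx M m N, rg g x = x) :
    ∃ x' : 𝓞 (KF M m N), algebraMap (𝓞 (KF M m N)) (𝓞 M) x' = x := by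
  have hxE : (x : M) ∈ KF M m N := mem_KF.2 fun g hg => coe_rg_eq.2 (hx g hg)
  have hint : IsIntegral ℤ (⟨(x : M), hxE⟩ : KF M m N) := by
    rw [← isIntegral_algebraMap_iff (B := M) (algebraMap (KF M m N) M).injective]
    exact RingOfIntegers.isIntegral_coe x
  exact ⟨⟨⟨(x : M), hxE⟩, hint⟩, RingOfIntegers.coe_injective rfl⟩

lemma rg_down {m N : ℕ} (g : M ≃ₐ[ℚ] M) (x : 𝓞 (KF M m N)) :
    rg g (algebraMap (𝓞 (KF M m N)) (𝓞 M) x) =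
      algebraMap (𝓞 (KF M m N)) (𝓞 M) (rg (rs m N g) x) := by
  apply RingOfIntegers.coe_injective
  show ((rg g (algebraMap (𝓞 (KF M m N)) (𝓞 M) x) : 𝓞 M) : M) =
    (((rg (rs m N g) x : 𝓞 (KF M m N)) : KF M m N) : M)
  rw [rg_coe, rg_coe, rs_coe]
  rfl

lemma exists_root_KF {m N N0 : ℕ} (hN0 : 0 < N0) (hNN : N ∣ N0) {θ : M}
    (hθ : IsPrimitiveRoot θ N0) : ∃ θ' : KF M m N, IsPrimitiveRoot θ' N := by
  obtain ⟨r, hr⟩ := hNN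
  have h1 : IsPrimitiveRoot (θ ^ r) N := hθ.pow hN0 (by rw [hr, mul_comm])
  have hmem : θ ^ r ∈ KF M m N := mem_KF.2 fun g hg => (mem_Fx.1 hg).2 _ h1.pow_eq_one
  refine ⟨⟨θ ^ r, hmem⟩, ?_⟩
  exact IsPrimitiveRoot.of_map_of_injective (f := algebraMap (KF M m N) M) h1
    (algebraMap (KF M m N) M).injective

lemma map_pow_le {m N p E : ℕ} {J : Ideal (𝓞 (KF M m N))}
    (h : J ^ E ≤ Ideal.span {(p : 𝓞 (KF M m N))}) :
    (J.map (algebraMap (𝓞 (KF M m N)) (𝓞 M))) ^ E ≤ Ideal.span {(p : 𝓞 M)} := by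
  rw [← Ideal.map_pow]
  refine (Ideal.map_mono h).trans ?_
  rw [Ideal.map_span, Set.image_singleton, map_natCast]

lemma p_mem_Jn {K : Type*} [Field K] [NumberField K] (p : ℕ) : (p : 𝓞 K) ∈ Jn K p 1 :=
  mem_Jn.2 fun P _ hpP => by rwa [pow_one]

/-- primes which do not divide `N` -/
theorem good_M {m N N0 p : ℕ} (hm : 0 < m) (hp : p.Prime) (hpm : ¬ p ∣ m) (hN : 0 < N)
    (hN0 : 0 < N0) (hNN : N ∣ N0) (hpN : ¬ p ∣ N) {θ : M} (hθ : IsPrimitiveRoot θ N0) :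
    ∃ (s : M ≃ₐ[ℚ] M) (J : Ideal (𝓞 M)), (p : 𝓞 M) ∈ J ∧ J ^ m ≤ Ideal.span {(p : 𝓞 M)} ∧
      ∀ x : 𝓞 M, (∀ g ∈ Fx M m N, rg g x = x) → x ^ p ^ m - rg s x ∈ J := by
  obtain ⟨θ', hθ'⟩ := exists_root_KF (m := m) hN0 hNN hθ
  have hFx := Fx_KF (M := M) m N
  obtain ⟨s', _, hs'⟩ := frobK (p := p) hN hFx hp
  obtain ⟨s, rfl⟩ := rs_surj s'
  refine ⟨s, (Jn (KF M m N) p 1).map (algebraMap (𝓞 (KF M m N)) (𝓞 M)), ?_,
    map_pow_le (good_J hm hp hpm hN hpN hθ' hFx), ?_⟩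
  · rw [← map_natCast (algebraMap (𝓞 (KF M m N)) (𝓞 M))]
    exact Ideal.mem_map_of_mem _ (p_mem_Jn p)
  · intro x hx
    obtain ⟨x', rfl⟩ := exists_down hx
    rw [rg_down, ← map_pow, ← map_sub]
    exact Ideal.mem_map_of_mem _ (hs' x')

/-- wild primes -/
theorem wild_M {m N N' N0 p v : ℕ} (hm : 0 < m) (hp : p.Prime) (hp2 : p ≠ 2) (hpm : ¬ p ∣ m)
    (hN : 0 < N) (hN0 : 0 < N0) (hNN : N ∣ N0) (hNp : N = p ^ (v + 2) * N') (hpN : ¬ p ∣ N')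
    {θ : M} (hθ : IsPrimitiveRoot θ N0) :
    ∃ (γ : M ≃ₐ[ℚ] M) (J : Ideal (𝓞 M)), γ ∈ Fx M m (N / p) ∧
      (∀ k, 0 < k → k < p → γ ^ k ∉ Fx M m N) ∧
      J ^ (p ^ 2 * m) ≤ Ideal.span {(p : 𝓞 M)} ∧
      ∀ x : 𝓞 M, (∀ g ∈ Fx M m N, rg g x = x) → rg γ x - x ∈ J := by
  obtain ⟨θ', hθ'⟩ := exists_root_KF (m := m) hN0 hNN hθ
  have hFx := Fx_KF (M := M) m N
  obtain ⟨γ', _, h2, h3, h4, h5⟩ := wild_J hm hp hp2 hpm hN hNp hpN hθ' hFx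
  obtain ⟨γ, rfl⟩ := rs_surj γ'
  have hpN1 : p ∣ N := by rw [hNp]; exact Dvd.dvd.mul_right (dvd_pow_self p (by omega)) _
  refine ⟨γ, (Jn (KF M m N) p (p ^ v)).map (algebraMap (𝓞 (KF M m N)) (𝓞 M)), ?_, ?_,
    map_pow_le h5, ?_⟩
  · exact mem_Fx_of_rs (Nat.div_dvd_of_dvd hpN1) h2
  · intro k hk hkp h
    rw [← rs_eq_one, rs_pow] at h
    exact h3 k hk hkp h
  · intro x hx
    obtain ⟨x', rfl⟩ := exists_down hx
    rw [rg_down, ← map_sub]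
    exact Ideal.mem_map_of_mem _ (h4 x')

/-- tame primes -/
theorem tame_M {m N N' N0 p u : ℕ} (hm : 0 < m) (hp : p.Prime) (hpm : ¬ p ∣ m)
    (hN : 0 < N) (hN0 : 0 < N0) (hNN : N ∣ N0) (hNp : N = p * N') (hpN : ¬ p ∣ N')
    {θ : M} (hθ : IsPrimitiveRoot θ N0) {π : 𝓞 M} (hπ : IsPrimitiveRoot π p)
    (hu : ∀ j : ℕ, u ^ j ≡ 1 [MOD p] → p - 1 ∣ j) (hup : u.Coprime p) :
    ∃ (c : M ≃ₐ[ℚ] M), (∀ x : M, F0 m x → c x = x) ∧ rg c π = π ^ (u ^ m) ∧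
      (∀ ξ : 𝓞 M, ξ ^ N' = 1 → rg c ξ = ξ) ∧
      (∃ J : Ideal (𝓞 M), J ^ (p * m) ≤ Ideal.span {(p : 𝓞 M)} ∧
        ∀ x : 𝓞 M, (∀ g ∈ Fx M m N, rg g x = x) → rg c x - x ∈ J) ∧
      ∀ k : ℕ, 0 < k → ∃ (s : M ≃ₐ[ℚ] M) (J : Ideal (𝓞 M)), (p : 𝓞 M) ∈ J ∧
        J ^ (m ^ 2 * k) ≤ Ideal.span {(p : 𝓞 M)} ∧
        ∀ x : 𝓞 M, (∀ g ∈ Fx M m N, rg g x = x) → rg (c ^ k) x = x → x ^ p ^ m - rg s x ∈ J := by
  obtain ⟨θ', hθ'⟩ := exists_root_KF (m := m) hN0 hNN hθ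
  have hFx := Fx_KF (M := M) m N
  have hpN1 : p ∣ N := ⟨N', hNp⟩
  have hN'N : N' ∣ N := ⟨p, by rw [hNp, mul_comm]⟩
  obtain ⟨π', hπ'⟩ := exists_down (m := m) (N := N) (x := π) (fun g hg => rg_root hg (by
    obtain ⟨j, hj⟩ := hpN1
    rw [hj, pow_mul, hπ.pow_eq_one, one_pow]))
  have hinj : Function.Injective (algebraMap (𝓞 (KF M m N)) (𝓞 M)) :=
    FaithfulSMul.algebraMap_injective _ _
  have hππ : IsPrimitiveRoot π' p :=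
    IsPrimitiveRoot.of_map_of_injective (f := algebraMap (𝓞 (KF M m N)) (𝓞 M)) (by rwa [hπ']) hinj
  obtain ⟨c', ⟨τ', hτ'⟩, hc1, hc2, hc3⟩ := exists_c (v := 0) (N' := N') hp hN (by simpa using hNp)
    hpN hFx (ζ := π') (by simpa using hππ) hup
  obtain ⟨τ, rfl⟩ := rs_surj τ'
  rw [← rs_pow] at hτ'
  obtain ⟨s', ⟨ρ, hρ⟩, hs'⟩ := frobK (p := p) hN hFx hp
  obtain ⟨s, rfl⟩ := rs_surj s'
  subst hτ'
  refine ⟨τ ^ m, fun x hx => hx τ, ?_, ?_, ?_, ?_⟩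
  · rw [← hπ', rg_down, hc1, map_pow]
  · intro ξ hξ
    obtain ⟨ξ', rfl⟩ := exists_down (m := m) (N := N) (x := ξ) (fun g hg => rg_root hg (by
      obtain ⟨j, hj⟩ := hN'N
      rw [hj, pow_mul, hξ, one_pow]))
    rw [rg_down, hc2 ξ' (hinj (by rw [map_pow, hξ, map_one]))]
  · refine ⟨(Jn (KF M m N) p 1).map (algebraMap (𝓞 (KF M m N)) (𝓞 M)),
      map_pow_le (tame_J1 hm hp hpm hN hNp hpN hθ' hFx), ?_⟩
    intro x hx
    obtain ⟨x', rfl⟩ := exists_down hx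
    rw [rg_down, ← map_sub]
    refine Ideal.mem_map_of_mem _ (mem_Jn.2 fun P hP hpP => ?_)
    rw [pow_one]
    exact mem_In.1 (hc3 P hP hpP) x'
  · intro k hk
    obtain ⟨n, hn1, hn2⟩ := tame_Jk hm hp hpm hN hNp hpN hθ' hFx hππ hu hc1 hc3 hk
    refine ⟨s, (Jn (KF M m N) p n).map (algebraMap (𝓞 (KF M m N)) (𝓞 M)), ?_, map_pow_le hn2, ?_⟩
    · rw [← map_natCast (algebraMap (𝓞 (KF M m N)) (𝓞 M))]
      exact Ideal.mem_map_of_mem _ (hn1 _ (p_mem_Jn p) (map_natCast _ _))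
    · intro x hx hfix
      obtain ⟨x', rfl⟩ := exists_down hx
      rw [rg_down, ← map_pow, ← map_sub]
      apply Ideal.mem_map_of_mem
      apply hn1 _ (hs' x')
      have h1 : rg ((rs m N (τ ^ m)) ^ k) x' = x' := by
        apply hinj
        rw [← rs_pow, ← rg_down]
        exact hfix
      -- `s` commutes with the powers of `c`
      have h2 : (rs m N (τ ^ m)) ^ k * rs m N s = rs m N s * (rs m N (τ ^ m)) ^ k := by
        have h3 : ∀ y : KF M m N, F0 m y → (rs m N s) y = y := by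
          intro y hy
          rw [hρ]
          exact hy ρ
        have h4 := cent hN hFx h3 ((rs m N (τ ^ m)) ^ k)
        calc _ = ((rs m N (τ ^ m)) ^ k * rs m N s * ((rs m N (τ ^ m)) ^ k)⁻¹) *
              (rs m N (τ ^ m)) ^ k := by group
          _ = _ := by rw [h4]
      rw [map_sub, map_pow, h1, ← rg_mul, h2, rg_mul, h1]

end Pool.Agent.U218.RA
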