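import Mathlib
import Pool.Agent.U218.RA.Tr

/-! # The core alternative -/

set_option autoImplicit false
set_option linter.all false

open Finset Module NumberField Polynomial IsDedekindDomain

namespace Pool.Agent.U218.RA

open Pool.Agent.H388SL Pool.Agent.U218.LD

variable {M : Type*} [Field M] [NumberField M]

lemma lam_root_mul {ω x : M} {n : ℕ} (hn : 0 < n) (hω : ω ^ n = 1) : lam (ω * x) = lam x := by
  rw [lam, lam]
  refine Finset.sum_congr rfl fun σ _ => ?_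
  have h1 : ‖σ ω‖ = 1 := by
    have h2 : (σ ω) ^ n = 1 := by rw [← map_pow, hω, map_one]
    exact Complex.norm_eq_one_of_pow_eq_one h2 hn.ne'
  rw [map_mul, norm_mul, h1, one_mul]

lemma powJ {m N : ℕ} {c : M ≃ₐ[ℚ] M} {J : Ideal (𝓞 M)}
    (h : ∀ x : 𝓞 M, (∀ g ∈ Fx M m N, rg g x = x) → rg c x - x ∈ J) (i : ℕ) (x : 𝓞 M)
    (hx : ∀ g ∈ Fx M m N, rg g x = x) : rg (c ^ i) x - x ∈ J := by
  induction i with
  | zero => rw [pow_zero, rg_one, sub_self]; exact J.zero_mem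
  | succ i ih =>
    have h1 : ∀ g ∈ Fx M m N, rg g (rg (c ^ i) x) = rg (c ^ i) x := by
      intro g hg
      have h2 : (c ^ i)⁻¹ * g * (c ^ i) ∈ Fx M m N := by
        have := Subgroup.Normal.conj_mem (H := Fx M m N) inferInstance g hg (c ^ i)⁻¹
        rwa [inv_inv] at this
      calc rg g (rg (c ^ i) x) = rg (c ^ i) (rg ((c ^ i)⁻¹ * g * (c ^ i)) x) := by
            rw [← rg_mul, ← rg_mul]; congr 1; group
        _ = _ := by rw [hx _ h2]
    have h2 := J.add_mem (h _ h1) ih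
    rw [pow_succ', rg_mul]
    convert h2 using 1
    ring

lemma exists_primroot {p : ℕ} (hp : p.Prime) :
    ∃ u : ℕ, u.Coprime p ∧ ∀ j : ℕ, u ^ j ≡ 1 [MOD p] → p - 1 ∣ j := by
  have : Fact p.Prime := ⟨hp⟩
  obtain ⟨g, hg⟩ := IsCyclic.exists_generator (α := (ZMod p)ˣ)
  refine ⟨(g : ZMod p).val, ZMod.val_coe_unit_coprime g, fun j hj => ?_⟩
  rw [← ZMod.natCast_eq_natCast_iff] at hj
  push_cast at hj
  rw [ZMod.natCast_val, ZMod.cast_id] at hj
  have h1 : g ^ j = 1 := Units.ext (by push_cast; exact hj)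
  have h2 := orderOf_eq_card_of_forall_mem_zpowers hg
  rw [Nat.card_eq_fintype_card, ZMod.card_units] at h2
  rw [← h2]
  exact orderOf_dvd_of_pow_eq_one h1

variable [IsGalois ℚ M]

/-- the alternative -/
theorem core {m : ℕ} (hm : 0 < m) {N0 : ℕ} (hN0 : 0 < N0) {θ : M} (hθ : IsPrimitiveRoot θ N0)
    (x0 : 𝓞 M) (hx0 : x0 ≠ 0) (hroot : ∀ n : ℕ, 0 < n → (x0 : M) ^ n ≠ 1) {t : ℕ} (ht : 2 ≤ t)
    (P : Finset ℕ) (hP : ∀ p ∈ P, p.Prime ∧ p ≠ 2 ∧ ¬ p ∣ m ∧ p ^ (m + 2) ∣ N0 ∧ m * t ≤ p - 1 ∧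
      Gd p (orb (Fx M m N0) x0)) :
    (∀ A N : ℝ, 0 ≤ A → 1 ≤ N → 2 * A / ((m ^ 2 * t : ℕ) : ℝ) * ∑ p ∈ P, Real.log p ≤
      2 * (A + P.card) * (A + ∑ p ∈ P, (p : ℝ) ^ m) *
        ((orb (Fx M m N0) x0).card * (lam (x0 : M) / finrank ℚ M)) +
        ((orb (Fx M m N0) x0).card * (A + P.card) ^ 2 / N + (A ^ 2 + P.card) * Real.log N)) ∨
    ∃ p ∈ P, ∃ v : ℕ, (v = 1 ∨ v = 2) ∧ ∀ N : ℝ, 1 ≤ N → (t : ℝ) * (t - 1) * (Real.log p / m) ≤
      2 * t * (t * p ^ v) * ((orb (Fx M m N0) x0).card * (lam (x0 : M) / finrank ℚ M)) +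
        ((orb (Fx M m N0) x0).card * t ^ 2 / N + t * Real.log N) := by
  classical
  obtain ⟨N, hN, hNN, ω, hω, horb, hmin⟩ := exists_min m hN0 x0
  set x1 := ω * x0 with hx1
  set O := orb (Fx M m N0) x1 with hO
  have hωω : ω ^ (N0 - 1) * ω = 1 := inv_root hN0 hω
  have hω0 : ω ≠ 0 := right_ne_zero_of_mul (hωω ▸ one_ne_zero)
  have hOtw : tw ω (orb (Fx M m N0) x0) = O := tw_orb (fun g hg => rg_root hg hω) x0
  have hcard : O.card = (orb (Fx M m N0) x0).card := by rw [← hOtw, tw_card hω0]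
  have hOfix : ∀ g ∈ Fx M m N, act g O = O := by
    intro g hg
    rw [← horb]
    exact act_orb_self hg x1
  have hgd : ∀ p ∈ P, Gd p O := by
    intro p hp
    rw [← hOtw]
    exact (hP p hp).2.2.2.2.2.tw hωω
  have hx10 : x1 ≠ 0 := mul_ne_zero hω0 hx0
  have hlamω : ∀ ξ : 𝓞 M, ξ ^ N0 = 1 → ∀ x ∈ orb (Fx M m N0) (ξ * x0),
      lam (x : M) = lam (x0 : M) := by
    intro ξ hξ x hx
    obtain ⟨g, _, rfl⟩ := mem_orb.1 hx
    rw [rg_coe, lam_algEquiv]
    show lam ((ξ : M) * (x0 : M)) = _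
    exact lam_root_mul hN0 (coe_pow_eq_one.2 hξ)
  have hcoef : ∀ k, ∀ g ∈ Fx M m N, rg g ((pol O).coeff k) = (pol O).coeff k := by
    intro k g hg
    exact pol_coeff (by
      have := hOfix g hg
      rw [act] at this
      convert this) k
  have hne0 : O.Nonempty := ⟨x1, self_mem_orb _ _⟩
  -- one prime
  have useB : ∀ p ∈ P, ∀ v : ℕ, (v = 1 ∨ v = 2) → ∀ (c : M ≃ₐ[ℚ] M) (J : Ideal (𝓞 M)),
      J ^ (p ^ v * m) ≤ Ideal.span {(p : 𝓞 M)} →
      (∀ x : 𝓞 M, (∀ g ∈ Fx M m N, rg g x = x) → rg c x - x ∈ J) →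
      (∀ k, 0 < k → k < t → ∀ ζ : 𝓞 M, ζ ^ N0 = 1 → ζ ^ p ^ v = 1 → act (c ^ k) O ≠ tw ζ O) →
      ∀ N : ℝ, 1 ≤ N → (t : ℝ) * (t - 1) * (Real.log p / m) ≤
      2 * t * (t * p ^ v) * ((orb (Fx M m N0) x0).card * (lam (x0 : M) / finrank ℚ M)) +
        ((orb (Fx M m N0) x0).card * t ^ 2 / N + t * Real.log N) := by
    intro p hp v hv c J hJ hcJ hdist R hR
    obtain ⟨hpp, hp2, hpm, hpN0, hmt, _⟩ := hP p hp
    have hpv : p ^ v ∣ N0 := (pow_dvd_pow p (by omega)).trans hpN0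
    rw [← hcard]
    refine stageB hne0 (hlamω ω hω) hpp v c t J hm hJ ?_ ?_ hR
    · intro i _ j _ k
      have h1 := powJ hcJ i _ (hcoef k)
      have h2 := powJ hcJ j _ (hcoef k)
      convert J.sub_mem h1 h2 using 1
      ring
    · intro i hi j hj x hx x' hx' h
      exact distinct hN0 hpv hx10 (hgd p hp) c hdist i j hi hj x x' hx hx' h
  by_cases hw : ∃ p ∈ P, p ^ 2 ∣ N
  · -- wild primes
    obtain ⟨p, hp, hpN⟩ := hw
    right
    obtain ⟨hpp, hp2, hpm, hpN0, hmt, _⟩ := hP p hp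
    obtain ⟨e, N', hN', hNe⟩ := Nat.exists_eq_pow_mul_and_not_dvd hN.ne' p hpp.ne_one
    have he : 2 ≤ e := by
      by_contra hcon
      have h1 : e = 0 ∨ e = 1 := by omega
      rcases h1 with rfl | rfl
      · apply hN'
        rw [pow_zero, one_mul] at hNe
        rw [← hNe]
        exact (dvd_pow_self p two_ne_zero).trans hpN
      · apply hN'
        rw [hNe, pow_one, pow_two] at hpN
        exact Nat.dvd_of_mul_dvd_mul_left hpp.pos hpN
    obtain ⟨v, rfl⟩ : ∃ v, e = v + 2 := ⟨e - 2, by omega⟩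
    obtain ⟨γ, J, hγ1, hγ2, hJ, hγJ⟩ := wild_M hm hpp hp2 hpm hN hN0 hNN hNe hN' hθ
    refine ⟨p, hp, 2, Or.inr rfl, useB p hp 2 (Or.inr rfl) γ J hJ hγJ ?_⟩
    intro k hk hkt ζ hζ hζp
    have hkp : k < p := by
      have h1 : t ≤ m * t := Nat.le_mul_of_pos_left t hm
      have := hpp.two_le
      omega
    refine wild (k := 2) hpp hp2 hpm hN hN0 hNN hpN hθ horb ?_ (hgd p hp)
      (Subgroup.pow_mem _ hγ1 k) (hγ2 k hk hkp) hζ hζp
    intro ω' hω'
    rw [← hO, hcard, hx1, ← mul_assoc]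
    have hpN1 : p ∣ N := (dvd_pow_self p two_ne_zero).trans hpN
    refine hmin (N / p) (Nat.div_lt_self hN hpp.one_lt)
      (Nat.div_pos (Nat.le_of_dvd hN hpN1) hpp.pos)
      ((Nat.div_dvd_of_dvd hpN1).trans hNN) (ω' * ω) ?_
    rw [mul_pow, hω', hω, one_mul]
  push Not at hw
  by_cases hBB : ∃ p ∈ P, ∃ v : ℕ, (v = 1 ∨ v = 2) ∧ ∀ N : ℝ, 1 ≤ N →
      (t : ℝ) * (t - 1) * (Real.log p / m) ≤
      2 * t * (t * p ^ v) * ((orb (Fx M m N0) x0).card * (lam (x0 : M) / finrank ℚ M)) +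
        ((orb (Fx M m N0) x0).card * t ^ 2 / N + t * Real.log N)
  · exact Or.inr hBB
  left
  -- the data for the primes
  have hdata : ∀ p : P, ∃ (w : 𝓞 M) (g s : M ≃ₐ[ℚ] M) (J : Ideal (𝓞 M)),
      w ^ (p : ℕ) = 1 ∧ w ^ N = 1 ∧ (∀ x, F0 m x → g x = x) ∧ act g (tw w O) = tw w O ∧
      (∀ q : ℕ, q.Prime → q ≠ p → ∀ ξ : 𝓞 M, ξ ^ q = 1 → ξ ^ N = 1 → rg g ξ = ξ) ∧
      ((p : ℕ) : 𝓞 M) ∈ J ∧ J ^ (m ^ 2 * t) ≤ Ideal.span {((p : ℕ) : 𝓞 M)} ∧
      ∀ x : 𝓞 M, (∀ g ∈ Fx M m N, rg g x = x) → rg g x = x → x ^ (p : ℕ) ^ m - rg s x ∈ J := by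
    rintro ⟨p, hp⟩
    obtain ⟨hpp, hp2, hpm, hpN0, hmt, _⟩ := hP p hp
    dsimp only
    by_cases hpN : p ∣ N
    · obtain ⟨N', hN'⟩ := hpN
      have hpN' : ¬ p ∣ N' := by
        intro h
        apply hw p hp
        rw [hN', pow_two]
        exact Nat.mul_dvd_mul_left p h
      obtain ⟨u, hup, hu⟩ := exists_primroot hpp
      obtain ⟨π, hπ⟩ := exists_root (n := p) hN0 ((dvd_pow_self p (by omega)).trans hpN0) hθ
      obtain ⟨c, hc0, hcπ, hcN, ⟨J, hJ, hcJ⟩, hck⟩ :=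
        tame_M hm hpp hpm hN hN0 hNN hN' hpN' hθ hπ hu hup
      by_cases hco : ∀ k, 0 < k → k < t → ∀ ζ : 𝓞 M, ζ ^ N0 = 1 → ζ ^ p ^ 1 = 1 →
          act (c ^ k) O ≠ tw ζ O
      · exact absurd ⟨p, hp, 1, Or.inl rfl,
          useB p hp 1 (Or.inl rfl) c J (by rwa [pow_one]) hcJ hco⟩ hBB
      push Not at hco
      obtain ⟨k, hk, hkt, ζ, hζ, hζp, hact⟩ := hco
      have hpowπ : ∀ j : ℕ, rg (c ^ j) π = π ^ (u ^ (m * j)) := by
        intro j
        induction j with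
        | zero => rw [pow_zero, rg_one, mul_zero, pow_zero, pow_one]
        | succ j ih =>
          rw [pow_succ', rg_mul, ih, map_pow, hcπ, ← pow_mul, ← pow_add]
          congr 2
          ring
      obtain ⟨w, hwp, hwact⟩ := tame_twist (k := 1) (a := u ^ (m * k)) hpp hpm hN hN0 hNN
        ⟨N', hN'⟩ (hw p hp) hθ hOfix (hgd p hp) hπ (hpowπ k) (by
          intro h
          have h1 := Nat.le_of_dvd (by positivity) (hu _ h)
          have h2 : m * k < m * t := Nat.mul_lt_mul_of_pos_left hkt hm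
          omega) hζ hζp hact
      obtain ⟨s, J', hpJ', hJ', hs⟩ := hck k hk
      refine ⟨w, c ^ k, s, J', hwp, ?_, ?_, hwact, ?_, hpJ', ?_, hs⟩
      · rw [hN', pow_mul, hwp, one_pow]
      · intro x hx
        have h1 : ∀ j : ℕ, (c ^ j) x = x := by
          intro j
          induction j with
          | zero => rfl
          | succ j ih => rw [pow_succ', AlgEquiv.mul_apply, ih, hc0 x hx]
        exact h1 k
      · intro q hq hqp ξ hξ1 hξ2
        have h1 : ξ ^ N' = 1 := by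
          rw [← orderOf_dvd_iff_pow_eq_one] at hξ1 hξ2 ⊢
          rcases (Nat.dvd_prime hq).1 hξ1 with h | h
          · rw [h]; exact one_dvd _
          · rw [h] at hξ2 ⊢
            rw [hN'] at hξ2
            rcases (Nat.Prime.dvd_mul hq).1 hξ2 with h2 | h2
            · exact absurd ((Nat.prime_dvd_prime_iff_eq hq hpp).1 h2) hqp
            · exact h2
        have h2 : ∀ j : ℕ, rg (c ^ j) ξ = ξ := by
          intro j
          induction j with
          | zero => rw [pow_zero, rg_one]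
          | succ j ih => rw [pow_succ', rg_mul, ih, hcN ξ h1]
        exact h2 k
      · exact (Ideal.pow_le_pow_right (Nat.mul_le_mul_left _ hkt.le)).trans hJ'
    · obtain ⟨s, J, hpJ, hJ, hs⟩ := good_M hm hpp hpm hN hN0 hNN hpN hθ
      refine ⟨1, 1, s, J, one_pow _, one_pow _, fun _ _ => rfl, ?_, ?_, hpJ, ?_, ?_⟩
      · rw [tw_one, act_one]
      · intro q _ _ ξ _ _
        exact rg_one ξ
      · refine (Ideal.pow_le_pow_right ?_).trans hJ
        calc m = m * 1 * 1 := by ring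
          _ ≤ m * m * t := Nat.mul_le_mul (Nat.mul_le_mul_left m hm) (by omega)
          _ = m ^ 2 * t := by ring
      · intro x hx _
        exact hs x hx
  choose w g s J hw1 hw2 hg0 hgact hgroot hpJ hJ hs using hdata
  -- the total twist
  set Ω : 𝓞 M := ∏ p : P, w p with hΩ
  have hΩN : Ω ^ N = 1 := by
    rw [hΩ, ← Finset.prod_pow]
    exact Finset.prod_eq_one fun p _ => hw2 p
  have hΩN0 : Ω ^ N0 = 1 := by
    obtain ⟨r, hr⟩ := hNN
    rw [hr, pow_mul, hΩN, one_pow]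
  have hΩΩ : Ω ^ (N0 - 1) * Ω = 1 := inv_root hN0 hΩN0
  have hΩ0 : Ω ≠ 0 := right_ne_zero_of_mul (hΩΩ ▸ one_ne_zero)
  set O' := tw Ω O with hO'
  have hO'orb : O' = orb (Fx M m N0) (Ω * x1) := tw_orb (fun g hg => rg_root hg hΩN0) x1
  have hO'orb2 : O' = orb (Fx M m N0) (Ω * ω * x0) := by rw [hO'orb, hx1, mul_assoc]
  have hcard' : O'.card = (orb (Fx M m N0) x0).card := by rw [hO', tw_card hΩ0, hcard]
  have hgO' : ∀ p : P, act (g p) O' = O' := by
    intro p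
    have h1 : Ω = (∏ q ∈ Finset.univ.erase p, w q) * w p := by
      rw [hΩ, Finset.prod_erase_mul _ _ (Finset.mem_univ p)]
    have h2 : rg (g p) (∏ q ∈ Finset.univ.erase p, w q) = ∏ q ∈ Finset.univ.erase p, w q := by
      rw [map_prod]
      refine Finset.prod_congr rfl fun q hq => ?_
      have hqp : q ≠ p := (Finset.mem_erase.1 hq).1
      exact hgroot p q (hP q q.2).1 (fun h => hqp (Subtype.ext h)) (w q) (hw1 q) (hw2 q)
    rw [hO', h1, ← tw_tw, act_tw, h2, hgact p]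
  have hNO' : ∀ k ∈ Fx M m N, act k O' = O' := by
    intro k hk
    rw [hO', act_tw, rg_root hk hΩN, hOfix k hk]
  -- the normal subgroup
  let H : Subgroup (M ≃ₐ[ℚ] M) :=
    { carrier := {k | (∀ x : M, F0 m x → k x = x) ∧ act k O' = O'}
      mul_mem' := by
        rintro a b ⟨ha1, ha2⟩ ⟨hb1, hb2⟩
        refine ⟨fun x hx => ?_, ?_⟩
        · rw [AlgEquiv.mul_apply, hb1 x hx, ha1 x hx]
        · rw [act_mul, hb2, ha2]
      one_mem' := ⟨fun _ _ => rfl, act_one _⟩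
      inv_mem' := by
        rintro a ⟨ha1, ha2⟩
        refine ⟨fun x hx => ?_, ?_⟩
        · conv_lhs => rw [← ha1 x hx]
          rw [← AlgEquiv.mul_apply, inv_mul_cancel, AlgEquiv.one_apply]
        · conv_lhs => rw [← ha2]
          rw [← act_mul, inv_mul_cancel, act_one] }
  have hHmem : ∀ k, k ∈ H ↔ (∀ x : M, F0 m x → k x = x) ∧ act k O' = O' := fun k => Iff.rfl
  have hHn : H.Normal := by
    constructor
    intro a ha b
    rw [hHmem] at ha ⊢
    obtain ⟨ha1, ha2⟩ := ha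
    refine ⟨fun x hx => ?_, ?_⟩
    · rw [AlgEquiv.mul_apply, AlgEquiv.mul_apply, ha1 _ (F0_map hx b⁻¹), ← AlgEquiv.mul_apply,
        mul_inv_cancel, AlgEquiv.one_apply]
    · have h1 := comm_mem (m := m) hN0 ha1 b
      have h2 : act (a⁻¹ * (b * a * b⁻¹)) O' = O' := by
        rw [hO'orb]
        exact act_orb_self h1 _
      calc act (b * a * b⁻¹) O' = act a (act (a⁻¹ * (b * a * b⁻¹)) O') := by
            rw [← act_mul, mul_inv_cancel_left]
        _ = O' := by rw [h2, ha2]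
  have hFxH : Fx M m N ≤ H := fun k hk => ⟨hk.1, hNO' k hk⟩
  have hgH : ∀ p : P, g p ∈ H := fun p => ⟨hg0 p, hgO' p⟩
  have hlam' : ∀ x ∈ O', lam (x : M) = lam (x0 : M) := by
    rw [hO'orb2]
    exact hlamω (Ω * ω) (by rw [mul_pow, hΩN0, hω, one_mul])
  have hgd' : ∀ p ∈ P, Gd p O' := fun p hp => (hgd p hp).tw hΩΩ
  have hlampos : 0 < lam (x0 : M) := lam_pos (RingOfIntegers.isIntegral_coe x0) (by
    intro h
    exact hx0 (RingOfIntegers.coe_injective (by simpa using h))) hroot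
  intro A R hA hR
  rw [← hcard']
  have hne' : O'.Nonempty := ⟨Ω * x1, by rw [hO'orb]; exact self_mem_orb _ _⟩
  have hmt0 : 0 < m ^ 2 * t := by positivity
  refine stageA hne' hlam' H hHn (fun k hk => ?_) m P (fun p hp => (hP p hp).1)
    (fun p => if hp : p ∈ P then s ⟨p, hp⟩ else 1)
    (fun p => if hp : p ∈ P then J ⟨p, hp⟩ else ⊤) hmt0 ?_ ?_ ?_ ?_ ?_ hm.ne' hA hR
  · have := ((hHmem k).1 hk).2
    rw [act] at this
    convert this
  · intro p hp
    simp only [hp, dif_pos]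
    exact hpJ ⟨p, hp⟩
  · intro p hp
    simp only [hp, dif_pos]
    exact hJ ⟨p, hp⟩
  · intro p hp c hc
    simp only [hp, dif_pos]
    exact hs ⟨p, hp⟩ c (fun k hk => hc k (hFxH hk)) (hc _ (hgH ⟨p, hp⟩))
  · intro p hp x hx x' hx' h
    have hpm' : p ^ m ∣ N0 := (pow_dvd_pow p (by omega)).trans (hP p hp).2.2.2.1
    rw [hO'orb] at hx hx'
    have hgd'' := hgd' p hp
    rw [hO'orb] at hgd''
    exact (distinct (t := 1) hN0 hpm' (mul_ne_zero hΩ0 hx10) hgd'' 1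
      (fun k hk hk1 => by omega) 0 0 one_pos one_pos x x' hx hx' (by
        rw [pow_zero, rg_one, rg_one]; exact h)).2
  · intro k a b hab x hx x' hx' h
    have h1 := congrArg lam h
    rw [lam_pow, lam_pow, lam_algEquiv, hlam' x hx, hlam' x' hx'] at h1
    have h2 := mul_right_cancel₀ hlampos.ne' h1
    exact hab (by exact_mod_cast h2)

end Pool.Agent.U218.RA
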