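import Mathlib
import Pool.Agent.U218.LD.Final

/-! # The real-variable part -/

set_option autoImplicit false
set_option linter.all false

open Finset Polynomial Module NumberField

namespace Pool.Agent.U218.RA

lemma one_add_log_pow {L : ℝ} (hL : 1 ≤ L) (k : ℕ) (hk : 0 < k) :
    (1 + Real.log L) ^ k ≤ (k : ℝ) ^ k * L := by
  have hL0 : 0 < L := by linarith
  have hkR : (1 : ℝ) ≤ k := by exact_mod_cast hk
  have hk0 : (0 : ℝ) < k := by linarith
  set r := L ^ ((1 : ℝ) / k) with hr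
  have hr0 : 0 < r := Real.rpow_pos_of_pos hL0 _
  have hrk : r ^ k = L := by
    rw [hr, ← Real.rpow_natCast, ← Real.rpow_mul hL0.le]
    rw [one_div, inv_mul_cancel₀ hk0.ne', Real.rpow_one]
  have h1 : Real.log L = k * Real.log r := by rw [← hrk, Real.log_pow]
  have h2 := Real.log_le_sub_one_of_pos hr0
  have h3 : 1 + Real.log L ≤ k * r := by
    rw [h1]
    have := mul_le_mul_of_nonneg_left h2 hk0.le
    have e : (k : ℝ) * (r - 1) = k * r - k := by ring
    linarith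
  have h4 : 0 ≤ 1 + Real.log L := by
    have := Real.log_nonneg hL
    linarith
  calc (1 + Real.log L) ^ k ≤ (k * r) ^ k := pow_le_pow_left₀ h4 h3 k
    _ = (k : ℝ) ^ k * L := by rw [mul_pow, hrk]

/-- many primes -/
lemma real_A {m : ℕ} (hm : 1 ≤ m) {K L W Y s S Q D h e0 : ℝ} (hK : 1 ≤ K) (hL : 1 ≤ L)
    (hW : W = 1 + Real.log L) (hYlog : 1 ≤ Real.log Y)
    (hY2 : Y ≤ 2 * K * L ^ 4 * W) (he0 : e0 = 64 * (m : ℝ) ^ 4 * L)
    (hs1 : 1 ≤ s) (hsY : s ≤ Y) (hslog : s * Real.log Y ≤ 3 * Y)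
    (hs2 : 7680 * (m : ℝ) ^ 4 * L ^ 2 ≤ Real.sqrt s)
    (hS : Y / 4 ≤ S) (hQ0 : 0 ≤ Q) (hQ : Q ≤ s * Y ^ m)
    (hD : 1 ≤ D) (hDL : Real.log D ≤ L) (hh : 0 ≤ h)
    (hmain : 2 * Real.sqrt s / e0 * S ≤ 2 * (Real.sqrt s + s) * (Real.sqrt s + Q) * (D * h) +
      (D * (Real.sqrt s + s) ^ 2 / (4 * D * s ^ 2) +
        (Real.sqrt s ^ 2 + s) * Real.log (4 * D * s ^ 2))) :
    1 ≤ 2048 * (m : ℝ) ^ 4 * (2 * K) ^ (m + 1) * ((m + 1 : ℕ) : ℝ) ^ (m + 1) * L ^ (4 * m + 4) *
      (D * h) := by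
  have hmR : (1 : ℝ) ≤ m := by exact_mod_cast hm
  have hm4 : (1 : ℝ) ≤ (m : ℝ) ^ 4 := one_le_pow₀ hmR
  have hlogL : 0 ≤ Real.log L := Real.log_nonneg hL
  have hW1 : 1 ≤ W := by rw [hW]; linarith
  have hL0 : 0 < L := by linarith
  have hY1 : 1 ≤ Y := hs1.trans hsY
  have hY0 : 0 < Y := by linarith
  have hs0 : 0 < s := by linarith
  have he00 : 0 < e0 := by rw [he0]; positivity
  set r := Real.sqrt s with hr
  have hr2 : r ^ 2 = s := Real.sq_sqrt hs0.le
  have hr1 : 1 ≤ r := by rw [hr]; exact Real.one_le_sqrt.2 hs1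
  have hrs : r ≤ s := by nlinarith
  have hDh : 0 ≤ D * h := by positivity
  have hYm : 1 ≤ Y ^ m := one_le_pow₀ hY1
  -- the second part of the right side
  have t1 : D * (r + s) ^ 2 / (4 * D * s ^ 2) ≤ 1 := by
    rw [div_le_one (by positivity)]
    have h1 : (r + s) ^ 2 ≤ (2 * s) ^ 2 := pow_le_pow_left₀ (by linarith) (by linarith) 2
    nlinarith
  have hlog4 : Real.log 4 ≤ 1.4 := by
    have : Real.log 4 = 2 * Real.log 2 := by
      rw [show (4:ℝ) = 2 ^ 2 by norm_num, Real.log_pow]; norm_num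
    rw [this]
    have := Real.log_two_lt_d9
    linarith
  have hlogs : Real.log s ≤ Real.log Y := Real.log_le_log hs0 hsY
  have hlogN : Real.log (4 * D * s ^ 2) ≤ 4.4 * (L * Real.log Y) := by
    rw [Real.log_mul (by positivity) (by positivity), Real.log_mul (by norm_num) (by positivity),
      Real.log_pow]
    push_cast
    have h1 : 1 ≤ L * Real.log Y := by nlinarith
    have h2 : L ≤ L * Real.log Y := by nlinarith
    have h3 : Real.log Y ≤ L * Real.log Y := by nlinarith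
    linarith
  have t2 : (r ^ 2 + s) * Real.log (4 * D * s ^ 2) ≤ 26.4 * (Y * L) := by
    rw [hr2]
    have h1 : (s + s) * Real.log (4 * D * s ^ 2) ≤ (s + s) * (4.4 * (L * Real.log Y)) :=
      mul_le_mul_of_nonneg_left hlogN (by linarith)
    have h2 : (s + s) * (4.4 * (L * Real.log Y)) = 8.8 * L * (s * Real.log Y) := by ring
    have h3 : 8.8 * L * (s * Real.log Y) ≤ 8.8 * L * (3 * Y) :=
      mul_le_mul_of_nonneg_left hslog (by positivity)
    have h4 : 8.8 * L * (3 * Y) = 26.4 * (Y * L) := by ring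
    linarith
  have hYL : 1 ≤ Y * L := by nlinarith
  -- the left side
  have t3 : r * Y / (2 * e0) ≤ 2 * r / e0 * S := by
    have h1 : 2 * r / e0 * (Y / 4) ≤ 2 * r / e0 * S :=
      mul_le_mul_of_nonneg_left hS (by positivity)
    have h2 : 2 * r / e0 * (Y / 4) = r * Y / (2 * e0) := by field_simp; ring
    linarith
  have t4 : 60 * (Y * L) ≤ r * Y / (2 * e0) := by
    rw [le_div_iff₀ (by positivity), he0]
    have h1 : 60 * (Y * L) * (2 * (64 * (m : ℝ) ^ 4 * L)) = (7680 * (m : ℝ) ^ 4 * L ^ 2) * Y := by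
      ring
    rw [h1]
    exact mul_le_mul_of_nonneg_right hs2 hY0.le
  have t5 : r * Y / (4 * e0) ≤ 2 * (r + s) * (r + Q) * (D * h) := by
    have h1 : r * Y / (4 * e0) = r * Y / (2 * e0) / 2 := by field_simp; ring
    rw [h1]
    linarith
  have t6 : 2 * (r + s) * (r + Q) * (D * h) ≤ 8 * s ^ 2 * Y ^ m * (D * h) := by
    apply mul_le_mul_of_nonneg_right _ hDh
    have h1 : r + s ≤ 2 * s := by linarith
    have h2 : r + Q ≤ 2 * (s * Y ^ m) := by
      have : s * 1 ≤ s * Y ^ m := mul_le_mul_of_nonneg_left hYm hs0.le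
      linarith
    calc 2 * (r + s) * (r + Q) ≤ 2 * (2 * s) * (2 * (s * Y ^ m)) := by
          apply mul_le_mul (by linarith) h2 (by positivity) (by positivity)
      _ = 8 * s ^ 2 * Y ^ m := by ring
  have t7 : r * Y ≤ 32 * e0 * (s ^ 2 * Y ^ m * (D * h)) := by
    have h1 := t5.trans t6
    rw [div_le_iff₀ (by positivity)] at h1
    have e : 8 * s ^ 2 * Y ^ m * (D * h) * (4 * e0) = 32 * e0 * (s ^ 2 * Y ^ m * (D * h)) := by ring
    linarith
  -- `s ^ 2 = r ^ 4`
  set q := Real.sqrt Y with hq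
  have hq2 : q ^ 2 = Y := Real.sq_sqrt hY0.le
  have hrq : r ≤ q := Real.sqrt_le_sqrt hsY
  have hq1 : 1 ≤ q := hr1.trans hrq
  have t8 : 1 ≤ 32 * e0 * (q * Y ^ m * (D * h)) := by
    have h1 : s ^ 2 * Y ^ m * (D * h) = r * (s * (r * Y ^ m * (D * h))) := by
      have : s ^ 2 = s * r ^ 2 := by rw [hr2]; ring
      rw [this]; ring
    rw [h1] at t7
    have h2 : 32 * e0 * (r * (s * (r * Y ^ m * (D * h)))) ≤
        32 * e0 * (r * (Y * (q * Y ^ m * (D * h)))) := by
      apply mul_le_mul_of_nonneg_left _ (by positivity)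
      apply mul_le_mul_of_nonneg_left _ (by positivity)
      apply mul_le_mul hsY _ (by positivity) hY0.le
      apply mul_le_mul_of_nonneg_right _ hDh
      exact mul_le_mul_of_nonneg_right hrq (by positivity)
    have h3 : (r * Y) * 1 ≤ (r * Y) * (32 * e0 * (q * Y ^ m * (D * h))) := by
      have e : 32 * e0 * (r * (Y * (q * Y ^ m * (D * h)))) =
        (r * Y) * (32 * e0 * (q * Y ^ m * (D * h))) := by ring
      rw [mul_one]; linarith
    exact le_of_mul_le_mul_left h3 (by positivity)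
  -- bounds for `q`
  have hK2 : 1 ≤ 2 * K := by linarith
  have hWW : 1 ≤ W := hW1
  have t9 : q ≤ 2 * K * L ^ 2 * W := by
    rw [hq]
    apply Real.sqrt_le_iff.2
    refine ⟨by positivity, hY2.trans ?_⟩
    have h1 : 2 * K * L ^ 4 * W ≤ (2 * K) ^ 2 * L ^ 4 * W ^ 2 := by
      have a1 : 2 * K ≤ (2 * K) ^ 2 := by nlinarith
      have a2 : W ≤ W ^ 2 := by nlinarith
      have a3 : 0 ≤ L ^ 4 := by positivity
      calc 2 * K * L ^ 4 * W ≤ (2 * K) ^ 2 * L ^ 4 * W := by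
            apply mul_le_mul_of_nonneg_right _ (by linarith)
            exact mul_le_mul_of_nonneg_right a1 a3
        _ ≤ (2 * K) ^ 2 * L ^ 4 * W ^ 2 := mul_le_mul_of_nonneg_left a2 (by positivity)
    calc 2 * K * L ^ 4 * W ≤ (2 * K) ^ 2 * L ^ 4 * W ^ 2 := h1
      _ = (2 * K * L ^ 2 * W) ^ 2 := by ring
  have t10 : Y ^ m ≤ (2 * K * L ^ 4 * W) ^ m := pow_le_pow_left₀ hY0.le hY2 m
  have t11 : q * Y ^ m ≤ (2 * K) ^ (m + 1) * L ^ (4 * m + 2) * W ^ (m + 1) := by
    calc q * Y ^ m ≤ (2 * K * L ^ 2 * W) * (2 * K * L ^ 4 * W) ^ m :=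
          mul_le_mul t9 t10 (by positivity) (by positivity)
      _ = (2 * K) ^ (m + 1) * L ^ (4 * m + 2) * W ^ (m + 1) := by
          rw [mul_pow, mul_pow, ← pow_mul]; ring
  have t12 : W ^ (m + 1) ≤ ((m + 1 : ℕ) : ℝ) ^ (m + 1) * L := by
    rw [hW]
    exact one_add_log_pow hL (m + 1) (Nat.succ_pos m)
  calc (1 : ℝ) ≤ 32 * e0 * (q * Y ^ m * (D * h)) := t8
    _ ≤ 32 * e0 * ((2 * K) ^ (m + 1) * L ^ (4 * m + 2) * (((m + 1 : ℕ) : ℝ) ^ (m + 1) * L) *
        (D * h)) := by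
        apply mul_le_mul_of_nonneg_left _ (by positivity)
        apply mul_le_mul_of_nonneg_right _ hDh
        exact t11.trans (mul_le_mul_of_nonneg_left t12 (by positivity))
    _ = _ := by rw [he0]; ring

/-- one prime -/
lemma real_B {m : ℕ} (hm : 1 ≤ m) {K L W Y D h t p : ℝ} {v : ℕ} (hK : 1 ≤ K) (hL : 1 ≤ L)
    (hW : W = 1 + Real.log L) (hY1 : 1 ≤ Y)
    (hY2 : Y ≤ 2 * K * L ^ 4 * W) (ht : t = 64 * (m : ℝ) ^ 2 * L)
    (hp3 : 3 ≤ p) (hpY : p ≤ Y) (hv : v = 1 ∨ v = 2)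
    (hD : 1 ≤ D) (hDL : Real.log D ≤ L) (hh : 0 ≤ h)
    (hmain : t * (t - 1) * (Real.log p / m) ≤ 2 * t * (t * p ^ v) * (D * h) +
      (D * t ^ 2 / (D * t) + t * Real.log (D * t))) :
    1 ≤ 64 * (m : ℝ) * K ^ 2 * L ^ 9 * (D * h) := by
  have hmR : (1 : ℝ) ≤ m := by exact_mod_cast hm
  have hm0 : (0 : ℝ) < m := by linarith
  have hL0 : 0 < L := by linarith
  have ht64 : 64 ≤ t := by
    rw [ht]
    have : (1 : ℝ) ≤ (m : ℝ) ^ 2 * L := by nlinarith [one_le_pow₀ hmR (n := 2)]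
    linarith
  have ht0 : 0 < t := by linarith
  have hlogL : 0 ≤ Real.log L := Real.log_nonneg hL
  have hlogp : 1 ≤ Real.log p := by
    have h1 : Real.log (Real.exp 1) ≤ Real.log p := by
      apply Real.log_le_log (Real.exp_pos 1)
      have := Real.exp_one_lt_d9
      linarith
    rwa [Real.log_exp] at h1
  have hD0 : 0 < D := by linarith
  have e1 : D * t ^ 2 / (D * t) = t := by field_simp
  have h1 : (t - 1) * (Real.log p / m) ≤ 2 * t * p ^ v * (D * h) + (1 + Real.log (D * t)) := by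
    rw [e1] at hmain
    have h2 : t * ((t - 1) * (Real.log p / m)) ≤
        t * (2 * t * p ^ v * (D * h) + (1 + Real.log (D * t))) := by
      have e2 : t * ((t - 1) * (Real.log p / m)) = t * (t - 1) * (Real.log p / m) := by ring
      have e3 : t * (2 * t * p ^ v * (D * h) + (1 + Real.log (D * t))) =
        2 * t * (t * p ^ v) * (D * h) + (t + t * Real.log (D * t)) := by ring
      rw [e2, e3]
      exact hmain
    exact le_of_mul_le_mul_left h2 ht0
  have hlogt : Real.log t ≤ 4.2 + 2 * m + L := by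
    rw [ht, Real.log_mul (by positivity) hL0.ne', Real.log_mul (by norm_num) (by positivity),
      Real.log_pow]
    have a1 : Real.log 64 ≤ 4.2 := by
      have : Real.log 64 = 6 * Real.log 2 := by
        rw [show (64:ℝ) = 2 ^ 6 by norm_num, Real.log_pow]; norm_num
      rw [this]
      have := Real.log_two_lt_d9
      linarith
    have a2 : Real.log m ≤ m := by
      have := Real.log_le_sub_one_of_pos hm0
      linarith
    have a3 : Real.log L ≤ L := by
      have := Real.log_le_sub_one_of_pos hL0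
      linarith
    push_cast
    linarith
  have hlogDt : Real.log (D * t) ≤ 2 * L + 4.2 + 2 * m := by
    rw [Real.log_mul hD0.ne' ht0.ne']
    linarith
  have h3 : 64 * m * L - 1 ≤ (t - 1) * (Real.log p / m) := by
    have a1 : (t - 1) * (1 / m) ≤ (t - 1) * (Real.log p / m) := by
      apply mul_le_mul_of_nonneg_left _ (by linarith)
      exact div_le_div_of_nonneg_right hlogp hm0.le
    have a2 : (t - 1) * (1 / m) = 64 * m * L - 1 / m := by
      rw [ht]; field_simp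
    have a3 : 1 / (m : ℝ) ≤ 1 := by rw [div_le_one hm0]; exact hmR
    linarith
  have hmL : (m : ℝ) ≤ m * L := by nlinarith
  have hLm : L ≤ m * L := by nlinarith
  have h1mL : 1 ≤ m * L := by nlinarith
  have h4 : 32 * (m * L) ≤ 2 * t * p ^ v * (D * h) := by linarith
  have hDh : 0 ≤ D * h := by positivity
  have hpv : p ^ v ≤ Y ^ 2 := by
    rcases hv with rfl | rfl
    · rw [pow_one]; nlinarith
    · exact pow_le_pow_left₀ (by linarith) hpY 2
  have h5 : 1 ≤ 4 * m * (p ^ v * (D * h)) := by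
    have e : 2 * t * p ^ v * (D * h) = (32 * (m * L)) * (4 * m * (p ^ v * (D * h))) := by
      rw [ht]; ring
    rw [e] at h4
    have h6 : 32 * ((m : ℝ) * L) * 1 ≤ (32 * (m * L)) * (4 * m * (p ^ v * (D * h))) := by
      rw [mul_one]; exact h4
    exact le_of_mul_le_mul_left h6 (by positivity)
  have hY22 : Y ^ 2 ≤ 16 * K ^ 2 * L ^ 9 := by
    have a1 : Y ^ 2 ≤ (2 * K * L ^ 4 * W) ^ 2 := pow_le_pow_left₀ (by linarith) hY2 2
    have a2 : W ^ 2 ≤ ((2 : ℕ) : ℝ) ^ 2 * L := by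
      rw [hW]
      exact one_add_log_pow hL 2 two_pos
    push_cast at a2
    calc Y ^ 2 ≤ (2 * K * L ^ 4 * W) ^ 2 := a1
      _ = 4 * K ^ 2 * L ^ 8 * W ^ 2 := by ring
      _ ≤ 4 * K ^ 2 * L ^ 8 * (2 ^ 2 * L) := mul_le_mul_of_nonneg_left a2 (by positivity)
      _ = 16 * K ^ 2 * L ^ 9 := by ring
  calc (1 : ℝ) ≤ 4 * m * (p ^ v * (D * h)) := h5
    _ ≤ 4 * m * ((16 * K ^ 2 * L ^ 9) * (D * h)) := by
        apply mul_le_mul_of_nonneg_left _ (by positivity)
        exact mul_le_mul_of_nonneg_right (hpv.trans hY22) hDh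
    _ = _ := by ring

end Pool.Agent.U218.RA
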