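import Mathlib
import Pool.Agent.U218.RA.Core
import Pool.Agent.U218.RA.Num

/-! # The choice of the primes -/

set_option autoImplicit false
set_option linter.all false

open Finset Polynomial Module NumberField

namespace Pool.Agent.U218.RA

open Pool.Agent.H388SL Pool.Agent.U218.LD

universe u

/-- the lower bound in terms of the number of conjugates over the field generated by the elements
with `F0` and by the roots of unity -/
theorem num : ∃ C : ℝ, 1 ≤ C ∧ ∀ m : ℕ, 0 < m → ∀ D : ℕ, 0 < D → ∃ Y : ℕ,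
    ∀ (M : Type u) [Field M] [NumberField M] [IsGalois ℚ M] (N0 : ℕ), 0 < N0 →
      (∀ p : ℕ, p.Prime → p ≤ Y → p ^ (m + 2) ∣ N0) →
      ∀ θ : M, IsPrimitiveRoot θ N0 → ∀ x0 : 𝓞 M, x0 ≠ 0 → (∀ n : ℕ, 0 < n → (x0 : M) ^ n ≠ 1) →
      (orb (Fx M m N0) x0).card ≤ D →
      1 ≤ (C * m) ^ (26 * m) * (1 + Real.log D) ^ (4 * m + 5) *
        (D * (lam (x0 : M) / finrank ℚ M)) := by
  obtain ⟨Y0, hY01, hY0⟩ := exists_Y0
  obtain ⟨C0, hC0M, hC01, hC0ev⟩ := ev (4 * 7680 ^ 2 * 16) (max (max (Y0 : ℝ) 10000) 4225)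
  obtain ⟨hlogC0, hC0log⟩ := hC0ev C0 le_rfl
  have hC0Y0 : (Y0 : ℝ) ≤ C0 := ((le_max_left _ _).trans (le_max_left _ _)).trans hC0M
  have hC010000 : (10000 : ℝ) ≤ C0 := ((le_max_right _ _).trans (le_max_left _ _)).trans hC0M
  refine ⟨4096 * C0, by linarith, ?_⟩
  intro m hm
  have hm1 : 1 ≤ m := hm
  have hmR : (1 : ℝ) ≤ m := by exact_mod_cast hm
  have hm0 : (0 : ℝ) < m := by linarith
  have hC00 : 0 < C0 := by linarith
  set K : ℝ := C0 * (m : ℝ) ^ 9 with hKdef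
  have hm9 : (1 : ℝ) ≤ (m : ℝ) ^ 9 := one_le_pow₀ hmR
  have hC0K : C0 ≤ K := by rw [hKdef]; nlinarith
  have hK1 : 1 ≤ K := hC01.trans hC0K
  have hKY0 : (Y0 : ℝ) ≤ K := hC0Y0.trans hC0K
  have hK10000 : (10000 : ℝ) ≤ K := hC010000.trans hC0K
  have hKm : 4225 * (m : ℝ) ^ 6 ≤ K := by
    rw [hKdef]
    have h1 : (m : ℝ) ^ 6 ≤ (m : ℝ) ^ 9 := pow_le_pow_right₀ hmR (by norm_num)
    have h2 : (0 : ℝ) ≤ (m : ℝ) ^ 6 := by positivity
    nlinarith
  have hK0 : 0 < K := by linarith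
  have hlogK : 1 ≤ Real.log K := hlogC0.trans (Real.log_le_log hC00 hC0K)
  set G : ℝ := Real.log (2 * K) + 5 with hG
  have hG16 : G ≤ 16 * Real.log C0 ^ 2 * m := by
    have h1 : Real.log (2 * K) = Real.log 2 + (Real.log C0 + 9 * Real.log m) := by
      rw [Real.log_mul (by norm_num) hK0.ne', hKdef, Real.log_mul hC00.ne' (by positivity),
        Real.log_pow]
      push_cast
      ring
    have h2 := Real.log_two_lt_d9
    have h3 : Real.log m ≤ m - 1 := Real.log_le_sub_one_of_pos hm0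
    have h4 : Real.log C0 ≤ Real.log C0 ^ 2 := by nlinarith
    have h5 : 1 ≤ Real.log C0 ^ 2 := by nlinarith
    rw [hG, h1]
    nlinarith
  have hG5 : 5 ≤ G := by
    have : 0 ≤ Real.log (2 * K) := Real.log_nonneg (by linarith)
    linarith
  have hKG : 4 * G * (7680 * (m : ℝ) ^ 4) ^ 2 ≤ K := by
    have h1 : 4 * G * (7680 * (m : ℝ) ^ 4) ^ 2 ≤
        4 * (16 * Real.log C0 ^ 2 * m) * (7680 * (m : ℝ) ^ 4) ^ 2 := by
      apply mul_le_mul_of_nonneg_right _ (by positivity)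
      linarith
    have e : 4 * (16 * Real.log C0 ^ 2 * m) * (7680 * (m : ℝ) ^ 4) ^ 2 =
      (4 * 7680 ^ 2 * 16 * Real.log C0 ^ 2) * (m : ℝ) ^ 9 := by ring
    have h2 : (4 * 7680 ^ 2 * 16 * Real.log C0 ^ 2) * (m : ℝ) ^ 9 ≤ C0 * (m : ℝ) ^ 9 :=
      mul_le_mul_of_nonneg_right hC0log (by positivity)
    linarith
  set C1 : ℝ := 2048 * (m : ℝ) ^ 4 * (2 * K) ^ (m + 1) * ((m + 1 : ℕ) : ℝ) ^ (m + 1) with hC1
  set C2 : ℝ := 64 * (m : ℝ) * K ^ 2 with hC2
  have hC10 : 0 < C1 := by positivity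
  have hC20 : 0 < C2 := by positivity
  -- the constant
  have hconst : (C1 + C2) * 2 ^ (4 * m + 5) ≤ (4096 * C0 * m) ^ (26 * m) := by
    set b : ℝ := 4096 * C0 * m with hb
    have hmb : (m : ℝ) ≤ b := by rw [hb]; nlinarith
    have hb4096 : 4096 ≤ b := by rw [hb]; nlinarith
    have hb1 : 1 ≤ b := by linarith
    have hb0 : 0 < b := by linarith
    have e1 : 2 * K ≤ b ^ 9 := by
      have h1 : 2 * C0 * m ≤ b := by rw [hb]; nlinarith
      have h2 : (m : ℝ) ^ 8 ≤ b ^ 8 := pow_le_pow_left₀ hm0.le hmb 8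
      calc 2 * K = (2 * C0 * m) * (m : ℝ) ^ 8 := by rw [hKdef]; ring
        _ ≤ b * b ^ 8 := mul_le_mul h1 h2 (by positivity) hb0.le
        _ = b ^ 9 := by ring
    have e2 : ((m + 1 : ℕ) : ℝ) ≤ b := by
      push_cast
      rw [hb]
      nlinarith
    have e3 : (2 : ℝ) ^ (4 * m + 5) ≤ b ^ m := by
      calc (2 : ℝ) ^ (4 * m + 5) ≤ 2 ^ (12 * m) := pow_le_pow_right₀ (by norm_num) (by omega)
        _ = 4096 ^ m := by rw [pow_mul]; norm_num
        _ ≤ b ^ m := pow_le_pow_left₀ (by norm_num) hb4096 m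
    have e4 : 2048 * (m : ℝ) ^ 4 ≤ b ^ 4 := by
      have h1 : b ^ 4 = (4096 * C0) ^ 4 * (m : ℝ) ^ 4 := by rw [hb]; ring
      rw [h1]
      apply mul_le_mul_of_nonneg_right _ (by positivity)
      have h2 : (1:ℝ) ≤ 4096 * C0 := by linarith
      have h3 : (4096 * C0) ≤ (4096 * C0) ^ 4 := le_self_pow₀ h2 (by norm_num)
      linarith
    have e5 : C1 ≤ b ^ (10 * m + 14) := by
      calc C1 ≤ b ^ 4 * (b ^ 9) ^ (m + 1) * b ^ (m + 1) := by
            rw [hC1]
            apply mul_le_mul (mul_le_mul e4 (pow_le_pow_left₀ (by positivity) e1 _) (by positivity)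
              (by positivity)) (pow_le_pow_left₀ (by positivity) e2 _) (by positivity)
              (by positivity)
        _ = b ^ (10 * m + 14) := by rw [← pow_mul, ← pow_add, ← pow_add]; congr 1; ring
    have e6 : C2 ≤ b ^ 19 := by
      have h1 : 64 * (m : ℝ) * K ^ 2 = (16 * (m : ℝ)) * (2 * K) ^ 2 := by ring
      have h2 : 16 * (m : ℝ) ≤ b := by rw [hb]; nlinarith
      calc C2 = (16 * (m : ℝ)) * (2 * K) ^ 2 := by rw [hC2, h1]
        _ ≤ b * (b ^ 9) ^ 2 := mul_le_mul h2 (pow_le_pow_left₀ (by positivity) e1 _) (by positivity)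
            hb0.le
        _ = b ^ 19 := by rw [← pow_mul, ← pow_succ']
    have e7 : C1 + C2 ≤ b * b ^ (24 * m) := by
      have h1 : b ^ (10 * m + 14) ≤ b ^ (24 * m) := pow_le_pow_right₀ hb1 (by omega)
      have h2 : b ^ 19 ≤ b ^ (24 * m) := pow_le_pow_right₀ hb1 (by omega)
      have h3 : 0 ≤ b ^ (24 * m) := by positivity
      nlinarith
    calc (C1 + C2) * 2 ^ (4 * m + 5) ≤ (b * b ^ (24 * m)) * b ^ m :=
          mul_le_mul e7 e3 (by positivity) (by positivity)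
      _ = b ^ (25 * m + 1) := by rw [← pow_succ', ← pow_add]; congr 1; ring
      _ ≤ b ^ (26 * m) := pow_le_pow_right₀ hb1 (by omega)
  intro D hD
  have hD1 : (1 : ℝ) ≤ D := by exact_mod_cast hD
  -- the parameter `L`
  set Ln : ℕ := 1 + Nat.log 2 D with hLn
  set L : ℝ := (Ln : ℝ) with hLdef
  have hLn1 : 1 ≤ Ln := by omega
  have hL1 : 1 ≤ L := by rw [hLdef]; exact_mod_cast hLn1
  have hL0 : 0 < L := by linarith
  have hDL2 : D < 2 ^ Ln := by
    rw [hLn, add_comm]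
    exact Nat.lt_pow_succ_log_self (by norm_num) D
  have hDL : Real.log D ≤ L := by
    have h1 : (D : ℝ) ≤ 2 ^ Ln := by exact_mod_cast hDL2.le
    have h2 := Real.log_le_log (by linarith) h1
    rw [Real.log_pow] at h2
    have h3 := Real.log_two_lt_d9
    have h4 : (Ln : ℝ) * Real.log 2 ≤ Ln * 1 := mul_le_mul_of_nonneg_left (by linarith) (by positivity)
    rw [hLdef]
    linarith
  have hLD : L ≤ 2 * (1 + Real.log D) := by
    have h1 : 2 ^ Nat.log 2 D ≤ D := Nat.pow_log_le_self 2 hD.ne'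
    have h2 : ((2 : ℝ) ^ Nat.log 2 D) ≤ D := by exact_mod_cast h1
    have h3 := Real.log_le_log (by positivity) h2
    rw [Real.log_pow] at h3
    have h4 := Real.log_two_gt_d9
    have h5 : (0:ℝ) ≤ Nat.log 2 D := Nat.cast_nonneg _
    have h6 : L = 1 + (Nat.log 2 D : ℝ) := by rw [hLdef, hLn]; push_cast; ring
    rw [h6]
    nlinarith
  set W : ℝ := 1 + Real.log L with hW
  have hlogL : 0 ≤ Real.log L := Real.log_nonneg hL1
  have hW1 : 1 ≤ W := by rw [hW]; linarith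
  have hWL : W ≤ L := by
    have := Real.log_le_sub_one_of_pos hL0
    rw [hW]; linarith
  have hKLW : 1 ≤ K * L ^ 4 * W := by
    have h1 : 1 ≤ L ^ 4 := one_le_pow₀ hL1
    have h2 : 1 ≤ K * L ^ 4 := by nlinarith
    nlinarith
  refine ⟨⌈K * L ^ 4 * W⌉₊, ?_⟩
  set Y : ℕ := ⌈K * L ^ 4 * W⌉₊ with hYdef
  have hY1 : K * L ^ 4 * W ≤ Y := Nat.le_ceil _
  have hY2 : (Y : ℝ) ≤ 2 * K * L ^ 4 * W := by
    have h1 : (Y : ℝ) < K * L ^ 4 * W + 1 := Nat.ceil_lt_add_one (by positivity)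
    have e : 2 * K * L ^ 4 * W = K * L ^ 4 * W + K * L ^ 4 * W := by ring
    rw [e]; linarith
  have hL4 : 1 ≤ L ^ 4 := one_le_pow₀ hL1
  have hKY : K ≤ Y := by
    have h1 : K * 1 ≤ K * (L ^ 4 * W) := mul_le_mul_of_nonneg_left (by nlinarith) hK0.le
    have e : K * (L ^ 4 * W) = K * L ^ 4 * W := by ring
    linarith
  have hYR1 : (1 : ℝ) ≤ Y := by linarith
  have hY0Y : Y0 ≤ Y := by exact_mod_cast hKY0.trans hKY
  have h10000 : 10000 ≤ Y := by exact_mod_cast hK10000.trans hKY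
  have hlogY : Real.log Y ≤ G * W := by
    have h1 := Real.log_le_log (by linarith) hY2
    rw [Real.log_mul (by positivity) (by positivity), Real.log_mul (by positivity) (by positivity),
      Real.log_pow] at h1
    have h2 : Real.log W ≤ Real.log L := Real.log_le_log (by linarith) hWL
    push_cast at h1
    have h3 : 0 ≤ Real.log (2 * K) * Real.log L :=
      mul_nonneg (Real.log_nonneg (by linarith)) hlogL
    have e : G * W = Real.log (2 * K) + 5 + 5 * Real.log L + Real.log (2 * K) * Real.log L := by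
      rw [hG, hW]; ring
    rw [e]
    linarith
  have hlogY1 : 1 ≤ Real.log Y := by
    have h1 := Real.log_le_log hK0 hKY
    linarith
  intro M _ _ _ N0 hN0 hN0p θ hθ x0 hx0 hroot hcard
  set O := orb (Fx M m N0) x0 with hO
  have hOne : O.Nonempty := ⟨x0, self_mem_orb _ _⟩
  have h0O : (0 : 𝓞 M) ∉ O := by
    intro h
    obtain ⟨g, _, hg⟩ := mem_orb.1 h
    exact hx0 ((map_eq_zero_iff _ (rg g).injective).1 hg)
  -- the primes
  obtain ⟨P, hP, hPS, hPc⟩ := primes_set hY0 Y hY0Y h10000 (fun p => ¬ Gd p O) (B := L) hL0.le (by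
      intro T hT
      have h1 := (card_bad hOne h0O T hT).trans hcard
      have h2 : ((2:ℝ) ^ T.card) ≤ D := by exact_mod_cast h1
      have h3 := Real.log_le_log (by positivity) h2
      rw [Real.log_pow] at h3
      linarith) (by
      have h1 : 16 * L * Real.log Y ≤ 16 * L * (G * W) :=
        mul_le_mul_of_nonneg_left hlogY (by positivity)
      have h2 : 16 * G ≤ K := by
        have h3 : (1 : ℝ) ≤ (7680 * (m : ℝ) ^ 4) ^ 2 / 4 := by
          have : (1:ℝ) ≤ (m : ℝ) ^ 4 := one_le_pow₀ hmR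
          nlinarith
        nlinarith
      have h3 : 16 * L * (G * W) = 16 * G * (L * W) := by ring
      have h4 : 16 * G * (L * W) ≤ K * (L ^ 4 * W) := by
        apply mul_le_mul h2 _ (by positivity) hK0.le
        apply mul_le_mul_of_nonneg_right _ (by linarith)
        calc L = L ^ 1 := (pow_one L).symm
          _ ≤ L ^ 4 := pow_le_pow_right₀ hL1 (by norm_num)
      have e : K * (L ^ 4 * W) = K * L ^ 4 * W := by ring
      linarith)
  set s : ℝ := (P.card : ℝ) with hs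
  have hPY : s ≤ Y := by
    have h1 : P.card ≤ (Finset.Ioc 0 Y).card := by
      apply Finset.card_le_card
      intro p hp
      rw [Finset.mem_Ioc]
      exact ⟨(hP p hp).1.pos, (hP p hp).2.2.2⟩
    rw [Nat.card_Ioc] at h1
    rw [hs]
    exact_mod_cast (by omega : P.card ≤ Y)
  have hSs : ∑ p ∈ P, Real.log p ≤ s * Real.log Y := by
    rw [hs, ← nsmul_eq_mul]
    apply Finset.sum_le_card_nsmul
    intro p hp
    apply Real.log_le_log
    · exact_mod_cast (hP p hp).1.pos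
    · exact_mod_cast (hP p hp).2.2.2
  have hs2 : (7680 * (m : ℝ) ^ 4 * L ^ 2) ^ 2 ≤ s := by
    have h1 : K * L ^ 4 * W / 4 ≤ s * (G * W) := by
      have h2 : s * Real.log Y ≤ s * (G * W) :=
        mul_le_mul_of_nonneg_left hlogY (Nat.cast_nonneg _)
      linarith
    have h2 : K * L ^ 4 ≤ 4 * G * s := by
      have h3 : (K * L ^ 4) * W ≤ (4 * G * s) * W := by
        have e : (4 * G * s) * W = 4 * (s * (G * W)) := by ring
        rw [e]; linarith
      exact le_of_mul_le_mul_right h3 (by linarith)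
    have h4 : (4 * G) * (7680 * (m : ℝ) ^ 4 * L ^ 2) ^ 2 ≤ (4 * G) * s := by
      calc (4 * G) * (7680 * (m : ℝ) ^ 4 * L ^ 2) ^ 2 = 4 * G * (7680 * (m : ℝ) ^ 4) ^ 2 * L ^ 4 := by
            ring
        _ ≤ K * L ^ 4 := mul_le_mul_of_nonneg_right hKG (by positivity)
        _ ≤ 4 * G * s := h2
    exact le_of_mul_le_mul_left h4 (by linarith)
  have hs2' : 7680 * (m : ℝ) ^ 4 * L ^ 2 ≤ Real.sqrt s := Real.le_sqrt_of_sq_le hs2
  have hs1 : 1 ≤ s := by
    refine le_trans ?_ hs2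
    apply one_le_pow₀
    have h1 : (1 : ℝ) ≤ (m : ℝ) ^ 4 := one_le_pow₀ hmR
    have h2 : (1 : ℝ) ≤ L ^ 2 := one_le_pow₀ hL1
    nlinarith
  set t : ℕ := 64 * m ^ 2 * Ln with ht
  have htR : (t : ℝ) = 64 * (m : ℝ) ^ 2 * L := by rw [ht, hLdef]; push_cast; ring
  have ht2 : 2 ≤ t := by
    rw [ht]
    have : 1 ≤ m ^ 2 * Ln := Nat.mul_pos (pow_pos hm 2) hLn1
    calc 2 ≤ 64 * (m ^ 2 * Ln) := by omega
      _ = 64 * m ^ 2 * Ln := by ring
  have hmtY : (m * t + 1) ^ 2 ≤ Y := by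
    have h1 : ((m : ℝ) * t + 1) ^ 2 ≤ Y := by
      have h2 : (m : ℝ) * t + 1 ≤ 65 * (m : ℝ) ^ 3 * L := by
        rw [htR]
        have h3 : (1 : ℝ) ≤ (m : ℝ) ^ 3 * L := by
          have := one_le_pow₀ hmR (n := 3)
          nlinarith
        have e : (m : ℝ) * (64 * (m : ℝ) ^ 2 * L) = 64 * ((m : ℝ) ^ 3 * L) := by ring
        have e2 : 65 * (m : ℝ) ^ 3 * L = 65 * ((m : ℝ) ^ 3 * L) := by ring
        rw [e, e2]; linarith
      have h4 : ((m : ℝ) * t + 1) ^ 2 ≤ (65 * (m : ℝ) ^ 3 * L) ^ 2 :=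
        pow_le_pow_left₀ (by positivity) h2 2
      have h5 : (65 * (m : ℝ) ^ 3 * L) ^ 2 = 4225 * (m : ℝ) ^ 6 * L ^ 2 := by ring
      have h6 : 4225 * (m : ℝ) ^ 6 * L ^ 2 ≤ K * (L ^ 4 * W) := by
        apply mul_le_mul hKm _ (by positivity) hK0.le
        have h7 : L ^ 2 ≤ L ^ 4 := pow_le_pow_right₀ hL1 (by norm_num)
        nlinarith
      have e : K * (L ^ 4 * W) = K * L ^ 4 * W := by ring
      linarith
    exact_mod_cast h1
  have hcore := core hm hN0 hθ x0 hx0 hroot ht2 P (by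
    intro p hp
    obtain ⟨hpp, hgd, hp2, hpY⟩ := hP p hp
    have h1 : m * t + 1 < p := lt_of_pow_lt_pow_left₀ 2 (Nat.zero_le _) (hmtY.trans_lt hp2)
    have hmt : m ≤ m * t := Nat.le_mul_of_pos_right m (by omega)
    refine ⟨hpp, ?_, ?_, hN0p p hpp hpY, by omega, not_not.1 hgd⟩
    · intro h
      have : 2 ≤ m * t := by
        calc 2 ≤ t := ht2
          _ ≤ m * t := Nat.le_mul_of_pos_left t hm
      omega
    · intro h
      have := Nat.le_of_dvd hm h
      omega)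
  set h := lam (x0 : M) / finrank ℚ M with hh
  have hd : (0 : ℝ) < finrank ℚ M := by
    have : 0 < finrank ℚ M := finrank_pos
    exact_mod_cast this
  have hh0 : 0 ≤ h := div_nonneg (lam_nonneg _) hd.le
  have hcardR : ((O.card : ℕ) : ℝ) ≤ D := by exact_mod_cast hcard
  have hcardh : (O.card : ℝ) * h ≤ D * h := mul_le_mul_of_nonneg_right hcardR hh0
  have hDh0 : 0 ≤ (D : ℝ) * h := by positivity
  -- the final form
  have hfin : ∀ C' : ℝ, 0 < C' → C' ≤ C1 + C2 → ∀ k : ℕ, k ≤ 4 * m + 5 →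
      1 ≤ C' * L ^ k * (D * h) →
      1 ≤ (4096 * C0 * m) ^ (26 * m) * (1 + Real.log D) ^ (4 * m + 5) * (D * h) := by
    intro C' hC' hC'C k hk h1
    refine h1.trans ?_
    apply mul_le_mul_of_nonneg_right _ hDh0
    have hlD : 0 ≤ 1 + Real.log D := by
      have := Real.log_nonneg hD1
      linarith
    refine le_trans ?_ (mul_le_mul_of_nonneg_right hconst (pow_nonneg hlD _))
    have h2 : L ^ k ≤ (2 * (1 + Real.log D)) ^ (4 * m + 5) := by
      calc L ^ k ≤ L ^ (4 * m + 5) := pow_le_pow_right₀ hL1 hk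
        _ ≤ _ := pow_le_pow_left₀ hL0.le hLD _
    calc C' * L ^ k ≤ (C1 + C2) * (2 * (1 + Real.log D)) ^ (4 * m + 5) :=
          mul_le_mul hC'C h2 (by positivity) (by positivity)
      _ = _ := by rw [mul_pow]; ring
  rcases hcore with hA | ⟨p, hp, v, hv, hB⟩
  · have hQ0 : 0 ≤ ∑ p ∈ P, (p : ℝ) ^ m := Finset.sum_nonneg fun _ _ => by positivity
    have hQ : ∑ p ∈ P, (p : ℝ) ^ m ≤ s * (Y : ℝ) ^ m := by
      rw [hs, ← nsmul_eq_mul]
      apply Finset.sum_le_card_nsmul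
      intro p hp
      have : (p : ℝ) ≤ Y := by exact_mod_cast (hP p hp).2.2.2
      exact pow_le_pow_left₀ (Nat.cast_nonneg _) this m
    have hN1 : (1 : ℝ) ≤ 4 * D * s ^ 2 := by
      have : (1 : ℝ) ≤ s ^ 2 := one_le_pow₀ hs1
      nlinarith
    have h1 := hA (Real.sqrt s) (4 * D * s ^ 2) (Real.sqrt_nonneg s) hN1
    have hN00 : 0 ≤ Real.log (4 * D * s ^ 2) := Real.log_nonneg hN1
    have h2 : 2 * Real.sqrt s / (((m ^ 2 * t : ℕ) : ℝ)) * ∑ p ∈ P, Real.log p ≤
        2 * (Real.sqrt s + s) * (Real.sqrt s + ∑ p ∈ P, (p : ℝ) ^ m) * (D * h) +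
        (D * (Real.sqrt s + s) ^ 2 / (4 * D * s ^ 2) +
          (Real.sqrt s ^ 2 + s) * Real.log (4 * D * s ^ 2)) := by
      refine h1.trans ?_
      apply add_le_add
      · apply mul_le_mul_of_nonneg_left hcardh
        have := Real.sqrt_nonneg s
        positivity
      · apply add_le_add _ le_rfl
        apply div_le_div_of_nonneg_right _ (by positivity)
        exact mul_le_mul_of_nonneg_right hcardR (by positivity)
    have he0 : (((m ^ 2 * t : ℕ) : ℝ)) = 64 * (m : ℝ) ^ 4 * L := by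
      push_cast
      rw [htR]; ring
    have h3 := real_A hm1 hK1 hL1 hW hlogY1 hY2 he0 hs1 hPY hPc hs2' hPS hQ0 hQ hD1 hDL hh0 h2
    exact hfin C1 hC10 (by linarith) (4 * m + 4) (by omega) h3
  · obtain ⟨hpp, hgd, hp2, hpY⟩ := hP p hp
    have hp3 : (3 : ℝ) ≤ p := by
      have h1 : 2 < p := by
        by_contra hcon
        have : p ^ 2 ≤ 2 ^ 2 := Nat.pow_le_pow_left (by omega) 2
        omega
      exact_mod_cast h1
    have ht0 : (0 : ℝ) < t := by
      have : 0 < t := by omega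
      exact_mod_cast this
    have ht1 : (1 : ℝ) ≤ t := by
      have : 1 ≤ t := by omega
      exact_mod_cast this
    have hN1 : (1 : ℝ) ≤ D * t := by nlinarith
    have h1 := hB (D * t) hN1
    have h2 : (t : ℝ) * (t - 1) * (Real.log p / m) ≤ 2 * t * (t * (p : ℝ) ^ v) * (D * h) +
        (D * (t : ℝ) ^ 2 / (D * t) + t * Real.log (D * t)) := by
      refine h1.trans ?_
      apply add_le_add
      · exact mul_le_mul_of_nonneg_left hcardh (by positivity)
      · apply add_le_add _ le_rfl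
        apply div_le_div_of_nonneg_right _ (by positivity)
        exact mul_le_mul_of_nonneg_right hcardR (by positivity)
    have hpY' : (p : ℝ) ≤ Y := by exact_mod_cast hpY
    have h3 := real_B hm1 hK1 hL1 hW hYR1 hY2 htR hp3 hpY' hv hD1 hDL hh0 h2
    exact hfin C2 hC20 (by linarith) 9 (by omega) h3

end Pool.Agent.U218.RA
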