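import Mathlib
import Pool.Agent.U218.RA.Fin
import Pool.Agent.U218.LD.Poly

/-! # From polynomials to number fields -/

set_option autoImplicit false
set_option linter.all false

open Finset Polynomial Module NumberField IntermediateField

namespace Pool.Agent.U218.RA

open Pool.Agent.H388SL Pool.Agent.U218.LD

universe u

section closure

variable {E : Type u} [Field E] [CharZero E] (F : IntermediateField ℚ E) [IsGalois ℚ F]

/-- the roots of unity -/
def mu (E : Type u) [Field E] : Set E := {ζ | ∃ n : ℕ, 0 < n ∧ ζ ^ n = 1}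

lemma adjoin_eq (hE : F ⊔ adjoin ℚ (mu E) = ⊤) : adjoin ℚ ((F : Set E) ∪ mu E) = ⊤ := by
  rw [← top_le_iff, ← hE]
  exact sup_le (fun x hx => IntermediateField.subset_adjoin ℚ _ (Or.inl hx))
    (IntermediateField.adjoin.mono ℚ _ _ Set.subset_union_right)

lemma alg_E (hE : F ⊔ adjoin ℚ (mu E) = ⊤) : Algebra.IsAlgebraic ℚ E := by
  constructor
  intro x
  have hx : x ∈ adjoin ℚ ((F : Set E) ∪ mu E) := by rw [adjoin_eq F hE]; trivial
  induction hx using IntermediateField.adjoin_induction with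
  | mem x hx =>
    rcases hx with hx | ⟨n, hn, hx⟩
    · have h1 : IsAlgebraic ℚ (⟨x, hx⟩ : F) := Algebra.IsAlgebraic.isAlgebraic _
      exact h1.algebraMap (A := E)
    · exact ⟨X ^ n - 1, (monic_X_pow_sub_C 1 hn.ne').ne_zero, by simp [hx]⟩
  | algebraMap x => exact isAlgebraic_algebraMap x
  | add x y _ _ hx hy => exact hx.add hy
  | mul x y _ _ hx hy => exact hx.mul hy
  | inv x _ hx => exact hx.inv

/-- every element is fixed by the automorphisms which fix a finite subset of `F` and the roots of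
unity of some order -/
lemma exists_level {Ω : Type u} [Field Ω] [CharZero Ω] [Algebra E Ω]
    (hE : F ⊔ adjoin ℚ (mu E) = ⊤) (x : E) :
    ∃ (S : Finset E) (N : ℕ), (S : Set E) ⊆ F ∧ 0 < N ∧ ∀ σ : Ω ≃ₐ[ℚ] Ω,
      (∀ y ∈ S, σ (algebraMap E Ω y) = algebraMap E Ω y) → (∀ ζ : Ω, ζ ^ N = 1 → σ ζ = ζ) →
      σ (algebraMap E Ω x) = algebraMap E Ω x := by
  classical
  have hx : x ∈ adjoin ℚ ((F : Set E) ∪ mu E) := by rw [adjoin_eq F hE]; trivial
  have two : ∀ (S S' : Finset E) (N N' : ℕ), (S : Set E) ⊆ F → (S' : Set E) ⊆ F → 0 < N → 0 < N' →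
      ((S ∪ S' : Finset E) : Set E) ⊆ F ∧ 0 < N * N' ∧ ∀ σ : Ω ≃ₐ[ℚ] Ω,
        (∀ y ∈ S ∪ S', σ (algebraMap E Ω y) = algebraMap E Ω y) →
        (∀ ζ : Ω, ζ ^ (N * N') = 1 → σ ζ = ζ) →
        ((∀ y ∈ S, σ (algebraMap E Ω y) = algebraMap E Ω y) ∧ (∀ ζ : Ω, ζ ^ N = 1 → σ ζ = ζ)) ∧
        ((∀ y ∈ S', σ (algebraMap E Ω y) = algebraMap E Ω y) ∧ (∀ ζ : Ω, ζ ^ N' = 1 → σ ζ = ζ)) := by
    intro S S' N N' hS hS' hN hN'
    refine ⟨?_, Nat.mul_pos hN hN', ?_⟩
    · rw [Finset.coe_union]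
      exact Set.union_subset hS hS'
    · intro σ h1 h2
      refine ⟨⟨fun y hy => h1 y (Finset.mem_union_left _ hy), fun ζ hζ => h2 ζ ?_⟩,
        ⟨fun y hy => h1 y (Finset.mem_union_right _ hy), fun ζ hζ => h2 ζ ?_⟩⟩
      · rw [pow_mul, hζ, one_pow]
      · rw [mul_comm, pow_mul, hζ, one_pow]
  induction hx using IntermediateField.adjoin_induction with
  | mem x hx =>
    rcases hx with hx | ⟨n, hn, hx⟩
    · refine ⟨{x}, 1, by simpa using hx, one_pos, fun σ h _ => h x (Finset.mem_singleton_self x)⟩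
    · refine ⟨∅, n, by simp, hn, fun σ _ h => h _ ?_⟩
      rw [← map_pow, hx, map_one]
  | algebraMap x =>
    refine ⟨∅, 1, by simp, one_pos, fun σ _ _ => ?_⟩
    rw [← IsScalarTower.algebraMap_apply ℚ E Ω]
    exact σ.commutes x
  | add x y _ _ hx hy =>
    obtain ⟨S, N, hS, hN, h⟩ := hx
    obtain ⟨S', N', hS', hN', h'⟩ := hy
    obtain ⟨a, b, c⟩ := two S S' N N' hS hS' hN hN'
    refine ⟨S ∪ S', N * N', a, b, fun σ h1 h2 => ?_⟩
    obtain ⟨⟨d1, d2⟩, d3, d4⟩ := c σ h1 h2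
    rw [map_add, map_add, h σ d1 d2, h' σ d3 d4]
  | mul x y _ _ hx hy =>
    obtain ⟨S, N, hS, hN, h⟩ := hx
    obtain ⟨S', N', hS', hN', h'⟩ := hy
    obtain ⟨a, b, c⟩ := two S S' N N' hS hS' hN hN'
    refine ⟨S ∪ S', N * N', a, b, fun σ h1 h2 => ?_⟩
    obtain ⟨⟨d1, d2⟩, d3, d4⟩ := c σ h1 h2
    rw [map_mul, map_mul, h σ d1 d2, h' σ d3 d4]
  | inv x _ hx =>
    obtain ⟨S, N, hS, hN, h⟩ := hx
    refine ⟨S, N, hS, hN, fun σ h1 h2 => ?_⟩
    rw [map_inv₀, map_inv₀, h σ h1 h2]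

lemma exists_level_finset {Ω : Type u} [Field Ω] [CharZero Ω] [Algebra E Ω]
    (hE : F ⊔ adjoin ℚ (mu E) = ⊤) (T : Finset E) :
    ∃ (S : Finset E) (N : ℕ), (S : Set E) ⊆ F ∧ 0 < N ∧ ∀ σ : Ω ≃ₐ[ℚ] Ω,
      (∀ y ∈ S, σ (algebraMap E Ω y) = algebraMap E Ω y) → (∀ ζ : Ω, ζ ^ N = 1 → σ ζ = ζ) →
      ∀ x ∈ T, σ (algebraMap E Ω x) = algebraMap E Ω x := by
  classical
  induction T using Finset.induction_on with
  | empty => exact ⟨∅, 1, by simp, one_pos, fun σ _ _ x hx => absurd hx (Finset.notMem_empty x)⟩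
  | insert x T _ ih =>
    obtain ⟨S, N, hS, hN, h⟩ := ih
    obtain ⟨S', N', hS', hN', h'⟩ := exists_level F (Ω := Ω) hE x
    refine ⟨S ∪ S', N * N', ?_, Nat.mul_pos hN hN', fun σ h1 h2 y hy => ?_⟩
    · rw [Finset.coe_union]
      exact Set.union_subset hS hS'
    · rcases Finset.mem_insert.1 hy with rfl | hy
      · refine h' σ (fun y hy => h1 y (Finset.mem_union_right _ hy)) (fun ζ hζ => h2 ζ ?_)
        rw [mul_comm, pow_mul, hζ, one_pow]
      · refine h σ (fun y hy => h1 y (Finset.mem_union_left _ hy)) (fun ζ hζ => h2 ζ ?_) y hy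
        rw [pow_mul, hζ, one_pow]

end closure

/-- the monic case -/
theorem monic_case : ∃ C : ℝ, 1 ≤ C ∧ ∀ m : ℕ, 0 < m →
    ∀ f : ℤ[X], Irreducible f → f.Monic → 1 < (f.map (Int.castRingHom ℂ)).mahlerMeasure →
    ∀ (E : Type u) [Field E] [CharZero E] (F : IntermediateField ℚ E) [IsGalois ℚ F],
      (∀ σ : F ≃ₐ[ℚ] F, σ ^ m = 1) → F ⊔ adjoin ℚ (mu E) = ⊤ →
    ∀ g : E[X], g ∣ f.map (Int.castRingHom E) → 0 < g.natDegree →
      f.natDegree / ((C * m) ^ (26 * m) * g.natDegree *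
        (1 + Real.log g.natDegree) ^ (4 * m + 5)) ≤
        Real.log (f.map (Int.castRingHom ℂ)).mahlerMeasure := by
  classical
  obtain ⟨C, hC, hmain⟩ := num.{u}
  refine ⟨C, hC, ?_⟩
  intro m hm f hf hfm hM E _ _ F _ hF hE g hgf hg
  obtain ⟨Y, hY⟩ := hmain m hm g.natDegree hg
  have hEalg := alg_E F hE
  let Ω : Type u := AlgebraicClosure E
  have hΩ0 : CharZero Ω := charZero_of_injective_algebraMap (algebraMap E Ω).injective
  have hΩE : Algebra.IsAlgebraic E Ω := inferInstance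
  have hΩalg : Algebra.IsAlgebraic ℚ Ω := Algebra.IsAlgebraic.trans ℚ E Ω
  have hΩcl : IsAlgClosed Ω := inferInstance
  have hΩac : IsAlgClosure ℚ Ω := ⟨hΩcl, hΩalg⟩
  have hΩn : Normal ℚ Ω := IsAlgClosure.normal ℚ Ω
  have hΩg : IsGalois ℚ Ω := ⟨⟩
  -- a root
  set gΩ := g.map (algebraMap E Ω) with hgΩ
  have hgdeg : gΩ.natDegree = g.natDegree := natDegree_map _
  have hg0 : g ≠ 0 := by rintro rfl; simp at hg
  have hgΩ0 : gΩ ≠ 0 := (Polynomial.map_ne_zero_iff (algebraMap E Ω).injective).2 hg0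
  obtain ⟨α, hα⟩ : ∃ α : Ω, gΩ.IsRoot α := by
    apply IsAlgClosed.exists_root
    rw [Polynomial.degree_eq_natDegree hgΩ0, hgdeg]
    exact_mod_cast hg.ne'
  have hαf : aeval α f = 0 := by
    obtain ⟨q, hq⟩ := hgf
    have h1 := congrArg (fun t : E[X] => (t.map (algebraMap E Ω)).eval α) hq
    simp only [Polynomial.map_mul, eval_mul] at h1
    rw [show (g.map (algebraMap E Ω)).eval α = 0 from hα, zero_mul, Polynomial.map_map,
      eval_map] at h1
    rw [Polynomial.aeval_def, ← h1]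
    congr 1
  have hαint : IsIntegral ℤ α := ⟨f, hfm, by rw [← Polynomial.aeval_def]; exact hαf⟩
  -- the level
  obtain ⟨S, N1, hS, hN1, hSN⟩ := exists_level_finset F (Ω := Ω) hE g.coeffs
  set N0 := N1 * Y.factorial ^ (m + 2) with hN0
  have hN0pos : 0 < N0 := Nat.mul_pos hN1 (pow_pos (Nat.factorial_pos Y) _)
  obtain ⟨θ, hθ⟩ : ∃ θ : Ω, IsPrimitiveRoot θ N0 := by
    have hne : NeZero ((N0 : ℕ) : Ω) := ⟨by exact_mod_cast hN0pos.ne'⟩
    obtain ⟨θ, hθ⟩ := IsAlgClosed.exists_root (cyclotomic N0 Ω) (by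
      rw [degree_cyclotomic]
      exact_mod_cast (Nat.totient_pos.2 hN0pos).ne')
    exact ⟨θ, isRoot_cyclotomic_iff.1 hθ⟩
  -- the number field
  set T : Set Ω := {α, θ} ∪ ((fun x => algebraMap E Ω x) '' (g.coeffs : Set E)) ∪
    ((fun x => algebraMap E Ω x) '' (S : Set E)) with hT
  have hTfin : T.Finite := by
    rw [hT]
    exact ((Set.toFinite _).union ((Finset.finite_toSet _).image _)).union
      ((Finset.finite_toSet _).image _)
  have hTfin' : Finite T := hTfin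
  obtain ⟨M, hfd, hgal, hsub⟩ : ∃ M : IntermediateField ℚ Ω, FiniteDimensional ℚ M ∧
      IsGalois ℚ M ∧ T ⊆ (M : Set Ω) :=
    ⟨(FiniteGaloisIntermediateField.adjoin ℚ T).toIntermediateField,
      inferInstance, by
        have h := (FiniteGaloisIntermediateField.adjoin ℚ T).isGalois
        convert h
        exact Subsingleton.elim _ _, FiniteGaloisIntermediateField.subset_adjoin ℚ _⟩
  have hnf : NumberField M := { to_charZero := inferInstance, to_finiteDimensional := hfd }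
  have hαM : α ∈ M := hsub (by rw [hT]; simp)
  have hθM : θ ∈ M := hsub (by rw [hT]; simp)
  have hSM : ∀ x ∈ S, algebraMap E Ω x ∈ M := by
    intro x hx
    apply hsub
    rw [hT]
    exact Or.inr ⟨x, hx, rfl⟩
  set αM : M := ⟨α, hαM⟩ with hαMdef
  set θM : M := ⟨θ, hθM⟩ with hθMdef
  have hθM' : IsPrimitiveRoot θM N0 :=
    IsPrimitiveRoot.of_map_of_injective (f := algebraMap M Ω) hθ (algebraMap M Ω).injective
  have hαMf : aeval αM f = 0 := by
    apply (algebraMap M Ω).injective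
    rw [map_zero, ← Polynomial.aeval_algebraMap_apply]
    exact hαf
  have hαMint : IsIntegral ℤ αM := ⟨f, hfm, by rw [← Polynomial.aeval_def]; exact hαMf⟩
  obtain ⟨x0, hx0⟩ : ∃ x0 : 𝓞 M, (x0 : M) = αM := ⟨⟨αM, hαMint⟩, rfl⟩
  -- the elements of `S` are fixed by `m`-th powers
  have hF0 : ∀ x ∈ S, ∀ h : algebraMap E Ω x ∈ M, F0 m (⟨algebraMap E Ω x, h⟩ : M) := by
    intro x hx h τ
    have hxF : x ∈ F := hS hx
    -- the restriction to `F`
    let FΩ : IntermediateField ℚ Ω := F.map (IsScalarTower.toAlgHom ℚ E Ω)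
    have hFn : Normal ℚ F := inferInstance
    have e : F ≃ₐ[ℚ] FΩ := IntermediateField.equivMap F (IsScalarTower.toAlgHom ℚ E Ω)
    have hFΩn : Normal ℚ FΩ := Normal.of_algEquiv e
    have hxFΩ : algebraMap E Ω x ∈ FΩ := ⟨x, hxF, rfl⟩
    have hτ : ∀ ρ : FΩ ≃ₐ[ℚ] FΩ, ρ ^ m = 1 := by
      intro ρ
      have h1 := hF ((e.trans ρ).trans e.symm)
      have h2 : ∀ j : ℕ, ((e.trans ρ).trans e.symm) ^ j = (e.trans (ρ ^ j)).trans e.symm := by
        intro j
        induction j with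
        | zero => ext y; simp
        | succ j ih =>
          rw [pow_succ', ih]
          ext y
          simp [pow_succ', AlgEquiv.mul_apply]
      rw [h2] at h1
      ext y
      have h3 := congrArg (fun t : F ≃ₐ[ℚ] F => e (t (e.symm y))) h1
      simp only [AlgEquiv.trans_apply, AlgEquiv.apply_symm_apply, AlgEquiv.one_apply] at h3
      rw [h3, AlgEquiv.one_apply]
    let T' : Ω ≃ₐ[ℚ] Ω := AlgEquiv.liftNormal τ Ω
    have hT' : ∀ y : M, T' (y : Ω) = ((τ y : M) : Ω) := fun y => AlgEquiv.liftNormal_commutes τ Ω y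
    have hT'j : ∀ (j : ℕ) (y : M), (T' ^ j) (y : Ω) = (((τ ^ j) y : M) : Ω) := by
      intro j
      induction j with
      | zero => intro y; rfl
      | succ j ih =>
        intro y
        rw [pow_succ', AlgEquiv.mul_apply, ih, hT', pow_succ', AlgEquiv.mul_apply]
    have h4 := hτ (AlgEquiv.restrictNormal T' FΩ)
    have h5 : ∀ (j : ℕ) (y : FΩ), (T' ^ j) (y : Ω) =
        ((((AlgEquiv.restrictNormal T' FΩ) ^ j) y : FΩ) : Ω) := by
      intro j
      induction j with
      | zero => intro y; rfl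
      | succ j ih =>
        intro y
        rw [pow_succ', AlgEquiv.mul_apply, ih, pow_succ', AlgEquiv.mul_apply]
        exact (AlgEquiv.restrictNormal_commutes T' FΩ _).symm
    apply Subtype.ext
    rw [← hT'j]
    have h6 := h5 m ⟨algebraMap E Ω x, hxFΩ⟩
    rw [h4, AlgEquiv.one_apply] at h6
    exact h6
  -- the orbit
  have horb : (orb (Fx M m N0) x0).card ≤ g.natDegree := by
    have hinj : Function.Injective (fun y : 𝓞 M => ((y : M) : Ω)) :=
      fun a b h => RingOfIntegers.coe_injective (Subtype.ext h)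
    rw [← hgdeg, ← Finset.card_image_of_injective _ hinj]
    have hsub2 : (orb (Fx M m N0) x0).image (fun y : 𝓞 M => ((y : M) : Ω)) ⊆ gΩ.roots.toFinset := by
      intro z hz
      obtain ⟨y, hy, rfl⟩ := Finset.mem_image.1 hz
      obtain ⟨h, hh, rfl⟩ := mem_orb.1 hy
      rw [Multiset.mem_toFinset, Polynomial.mem_roots hgΩ0]
      rw [rg_coe, hx0]
      let σ : Ω ≃ₐ[ℚ] Ω := AlgEquiv.liftNormal h Ω
      have hσ : ∀ y : M, σ (y : Ω) = ((h y : M) : Ω) := fun y => AlgEquiv.liftNormal_commutes h Ω y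
      rw [← hσ]
      have hfix : ∀ x ∈ g.coeffs, σ (algebraMap E Ω x) = algebraMap E Ω x := by
        apply hSN σ
        · intro y hy
          have h1 := hσ ⟨algebraMap E Ω y, hSM y hy⟩
          have h2 := (mem_Fx.1 hh).1 _ (hF0 y hy (hSM y hy))
          rw [h2] at h1
          exact h1
        · intro ζ hζ
          have hζ' : ζ ^ N0 = 1 := by rw [hN0, pow_mul, hζ, one_pow]
          have hnz : NeZero N0 := ⟨hN0pos.ne'⟩
          obtain ⟨i, _, hi⟩ := hθ.eq_pow_of_pow_eq_one hζ'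
          have h1 : σ θ = θ := by
            have h2 := hσ θM
            have h3 := (mem_Fx.1 hh).2 θM hθM'.pow_eq_one
            rw [h3] at h2
            exact h2
          rw [← hi, map_pow, h1]
      have hmap : gΩ.map (σ : Ω →+* Ω) = gΩ := by
        ext n
        rw [coeff_map, hgΩ, coeff_map]
        by_cases hn : g.coeff n = 0
        · rw [hn, map_zero, map_zero]
        · exact hfix _ (Polynomial.coeff_mem_coeffs hn)
      show eval (σ α) gΩ = 0
      rw [← hmap]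
      have h7 : eval ((σ : Ω →+* Ω) α) (gΩ.map (σ : Ω →+* Ω)) = (σ : Ω →+* Ω) (eval α gΩ) :=
        Polynomial.eval_map_apply (f := (σ : Ω →+* Ω)) (p := gΩ) (x := α)
      refine h7.trans ?_
      rw [show eval α gΩ = 0 from hα, map_zero]
    exact (Finset.card_le_card hsub2).trans
      ((Multiset.toFinset_card_le _).trans (Polynomial.card_roots' gΩ))
  -- heights
  obtain ⟨hr1, hr2⟩ := rsum_eq hf hfm hαMf
  have hlogM : 0 < Real.log (f.map (Int.castRingHom ℂ)).mahlerMeasure := Real.log_pos hM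
  have hlm := lam_mul αM
  rw [hr1, hr2] at hlm
  have hn0 : 0 < f.natDegree := by
    rw [← hr2]; exact minpoly.natDegree_pos (Algebra.IsIntegral.isIntegral αM)
  have hn0' : (0 : ℝ) < f.natDegree := by exact_mod_cast hn0
  have hd0 : 0 < finrank ℚ M := finrank_pos
  have hd0' : (0 : ℝ) < finrank ℚ M := by exact_mod_cast hd0
  have hlam : 0 < lam αM := by
    by_contra h
    have h1 : lam αM ≤ 0 := not_lt.1 h
    have h2 : (f.natDegree : ℝ) * lam αM ≤ 0 := mul_nonpos_of_nonneg_of_nonpos hn0'.le h1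
    have h3 : 0 < (finrank ℚ M : ℝ) * Real.log (f.map (Int.castRingHom ℂ)).mahlerMeasure := by
      positivity
    linarith
  have hone : lam (1 : M) = 0 := by
    rw [lam]
    simp
  have hα0 : αM ≠ 0 := by
    intro h
    rw [h, lam] at hlam
    simp at hlam
  have hroot : ∀ n : ℕ, 0 < n → αM ^ n ≠ 1 := by
    intro n hn h
    have h1 := lam_pow αM n
    rw [h, hone] at h1
    have : 0 < (n : ℝ) * lam αM := by
      have : (0 : ℝ) < n := by exact_mod_cast hn
      positivity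
    linarith
  have hx00 : x0 ≠ 0 := by
    rintro rfl
    exact hα0 (by rw [← hx0]; rfl)
  have key := hY M N0 hN0pos (by
    intro p hp hpY
    rw [hN0]
    refine Dvd.dvd.mul_left (pow_dvd_pow_of_dvd ?_ _) _
    exact (Nat.Prime.dvd_factorial hp).2 hpY) θM hθM' x0 hx00 (by rw [hx0]; exact hroot) horb
  rw [hx0] at key
  have hh : lam αM / finrank ℚ M = Real.log (f.map (Int.castRingHom ℂ)).mahlerMeasure /
      f.natDegree := by
    rw [div_eq_div_iff hd0'.ne' hn0'.ne']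
    linarith
  rw [hh] at key
  have hgR : (1 : ℝ) ≤ g.natDegree := by exact_mod_cast hg
  have hlog : 0 ≤ Real.log g.natDegree := Real.log_nonneg hgR
  have hgR0 : (0 : ℝ) < g.natDegree := by linarith
  have hmR0 : (0 : ℝ) < m := by exact_mod_cast hm
  have hC0 : 0 < C := by linarith
  rw [div_le_iff₀ (by positivity)]
  have h1 := mul_le_mul_of_nonneg_left key hn0'.le
  rw [mul_one] at h1
  refine h1.trans (le_of_eq ?_)
  field_simp

end Pool.Agent.U218.RA
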