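import Mathlib
import Pool.Agent.U218.RA.Poly

/-! # The final form -/

set_option autoImplicit false
set_option linter.all false

universe u

open Finset Polynomial Module NumberField IntermediateField

namespace Pool.Agent.U218.RA

open Pool.Agent.H388SL Pool.Agent.U218.LD

/-- the theorem, also for polynomials which are not monic -/
theorem final : ∃ C : ℝ, 1 ≤ C ∧ ∀ m : ℕ, 0 < m →
    ∀ f : ℤ[X], Irreducible f → 1 < (f.map (Int.castRingHom ℂ)).mahlerMeasure →
    ∀ (E : Type u) [Field E] [CharZero E] (F : IntermediateField ℚ E) [IsGalois ℚ F],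
      (∀ σ : F ≃ₐ[ℚ] F, σ ^ m = 1) → F ⊔ adjoin ℚ (mu E) = ⊤ →
    ∀ g : E[X], g ∣ f.map (Int.castRingHom E) → 0 < g.natDegree →
      (f.Monic → Real.exp (f.natDegree / ((C * m) ^ (26 * m) * g.natDegree *
        (1 + Real.log g.natDegree) ^ (4 * m + 5))) ≤
          (f.map (Int.castRingHom ℂ)).mahlerMeasure) ∧
      min 2 (Real.exp (f.natDegree / ((C * m) ^ (26 * m) * g.natDegree *
        (1 + Real.log g.natDegree) ^ (4 * m + 5)))) ≤
          (f.map (Int.castRingHom ℂ)).mahlerMeasure := by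
  obtain ⟨C, hC, hmain⟩ := monic_case.{u}
  refine ⟨C, hC, ?_⟩
  intro m hm f hf hM E _ _ F _ hF hE g hgf hg
  have hmon : ∀ f : ℤ[X], Irreducible f → 1 < (f.map (Int.castRingHom ℂ)).mahlerMeasure →
      g ∣ f.map (Int.castRingHom E) → f.Monic →
      Real.exp (f.natDegree / ((C * m) ^ (26 * m) * g.natDegree *
        (1 + Real.log g.natDegree) ^ (4 * m + 5))) ≤
          (f.map (Int.castRingHom ℂ)).mahlerMeasure := by
    intro f hf hM hgf hfm
    rw [← Real.le_log_iff_exp_le (by linarith)]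
    exact hmain m hm f hf hfm hM E F hF hE g hgf hg
  refine ⟨hmon f hf hM hgf, ?_⟩
  rcases le_or_gt 2 (f.map (Int.castRingHom ℂ)).mahlerMeasure with h2 | h2
  · exact (min_le_left _ _).trans h2
  refine (min_le_right _ _).trans ?_
  have hlc : |f.leadingCoeff| = 1 := by
    have h3 := leadingCoeff_le_mahlerMeasure (f.map (Int.castRingHom ℂ))
    rw [Polynomial.leadingCoeff_map_of_injective (RingHom.injective_int _), eq_intCast,
      Complex.norm_intCast] at h3
    have h4 : (|f.leadingCoeff| : ℝ) < 2 := by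
      have : ((|f.leadingCoeff| : ℤ) : ℝ) = |(f.leadingCoeff : ℝ)| := by push_cast; rfl
      exact h3.trans_lt h2
    have h5 : |f.leadingCoeff| < 2 := by exact_mod_cast h4
    have h6 := Int.one_le_abs (leadingCoeff_ne_zero.mpr hf.ne_zero)
    omega
  rcases (abs_eq (zero_le_one' ℤ)).mp hlc with h3 | h3
  · exact hmon f hf hM hgf h3
  · have h4 := hmon (-f) ((Associated.irreducible_iff
      (Associated.neg_left (Associated.refl f))).mpr hf) (by rw [MM_neg']; exact hM)
      (by rw [Polynomial.map_neg]; exact (dvd_neg).2 hgf)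
      (by rw [Monic, leadingCoeff_neg, h3]; rfl)
    rwa [MM_neg', natDegree_neg] at h4

lemma real_cor {C ε : ℝ} (hC : 1 ≤ C) (hε : 0 < ε) : ∃ c : ℝ, 0 < c ∧ ∃ κ : ℝ, 0 < κ ∧
    ∀ (m : ℕ) (n D : ℝ), 0 < m → 1 ≤ D → 1 ≤ n → D ≤ n ^ (1 - ε) →
      m * Real.log (Real.log (3 * n)) ≤ c * Real.log (3 * n) →
      κ * n ^ (ε / 2) ≤ n / ((C * m) ^ (26 * m) * D * (1 + Real.log D) ^ (4 * m + 5)) := by
  set K := Real.log (2 * C) with hK
  have hK0 : 0 ≤ K := Real.log_nonneg (by linarith)
  set c : ℝ := min (1 / 20) (ε / (4 * (600 * K + 30))) with hc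
  have hc0 : 0 < c := by positivity
  have hc1 : c ≤ 1 / 20 := min_le_left _ _
  have hc2 : c * (600 * K + 30) ≤ ε / 4 := by
    have h1 : c ≤ ε / (4 * (600 * K + 30)) := min_le_right _ _
    have h2 := mul_le_mul_of_nonneg_right h1 (by positivity : 0 ≤ 600 * K + 30)
    have h3 : ε / (4 * (600 * K + 30)) * (600 * K + 30) = ε / 4 := by
      field_simp
    linarith
  refine ⟨c, hc0, Real.exp (5 + 5 * Real.log (ε / 20) - 5 * K - ε / 2 * Real.log 3),
    Real.exp_pos _, ?_⟩
  intro m n D hm hD hn hDn hmn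
  have hmR : (1 : ℝ) ≤ m := by exact_mod_cast hm
  set l := Real.log (3 * n) with hl
  set lam := Real.log l with hlam
  have hln : l = Real.log 3 + Real.log n := Real.log_mul (by norm_num) (by linarith)
  have hlogn : 0 ≤ Real.log n := Real.log_nonneg hn
  have hlog3 : (1.0986 : ℝ) ≤ Real.log 3 := by
    rw [Real.le_log_iff_exp_le (by norm_num)]
    have h1 : Real.exp 1.0986 = Real.exp 1 * Real.exp 0.0986 := by
      rw [← Real.exp_add]; norm_num
    have h2 := Real.exp_one_lt_d9
    have h3 : Real.exp 0.0986 ≤ 1.10363 := by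
      have := Real.exp_bound' (x := 0.0986) (by norm_num) (by norm_num) (n := 5) (by norm_num)
      refine this.trans ?_
      norm_num [Finset.sum_range_succ, Nat.factorial]
    rw [h1]
    have h4 : (0 : ℝ) < Real.exp 0.0986 := Real.exp_pos _
    nlinarith
  have hl1 : 1.0986 ≤ l := by linarith
  have hlam0 : (1 / 20 : ℝ) ≤ lam := by
    have h1 : 1 - l⁻¹ ≤ Real.log l := Real.one_sub_inv_le_log_of_pos (by linarith)
    have h2 : l⁻¹ ≤ (1.0986 : ℝ)⁻¹ := inv_anti₀ (by norm_num) hl1
    have h3 : (1.0986 : ℝ)⁻¹ ≤ 0.95 := by norm_num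
    linarith
  have hm20 : (m : ℝ) ≤ 20 * c * l := by
    have h1 : (m : ℝ) * (1 / 20) ≤ m * lam := mul_le_mul_of_nonneg_left hlam0 (by linarith)
    linarith
  have hml : (m : ℝ) ≤ l := by
    have : 20 * c * l ≤ 1 * l := mul_le_mul_of_nonneg_right (by linarith) (by linarith)
    linarith
  have hDlog0 : 0 ≤ Real.log D := Real.log_nonneg hD
  have hDlog : 1 + Real.log D ≤ 2 * l := by
    have h1 : Real.log D ≤ Real.log n := by
      apply Real.log_le_log (by linarith)
      refine hDn.trans ?_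
      have h2 : n ^ (1 - ε) ≤ n ^ (1 : ℝ) := Real.rpow_le_rpow_of_exponent_le hn (by linarith)
      rwa [Real.rpow_one] at h2
    linarith
  set V := 2 * C * l with hV
  have hV1 : 1 ≤ V := by nlinarith
  have hV0 : 0 < V := by linarith
  have hden : (C * m) ^ (26 * m) * (1 + Real.log D) ^ (4 * m + 5) ≤ V ^ (30 * m + 5) := by
    have e : V ^ (30 * m + 5) = V ^ (26 * m) * V ^ (4 * m + 5) := by rw [← pow_add]; congr 1; ring
    rw [e]
    have h1 : C * m ≤ V := by
      rw [hV]
      nlinarith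
    have h2 : 1 + Real.log D ≤ V := by
      rw [hV]
      nlinarith
    exact mul_le_mul (pow_le_pow_left₀ (by positivity) h1 _) (pow_le_pow_left₀ (by linarith) h2 _)
      (by positivity) (by positivity)
  have hC0 : 0 < C := by linarith
  have hm0 : (0 : ℝ) < m := by linarith
  have hnD : n ^ ε ≤ n / D := by
    rw [le_div_iff₀ (by linarith)]
    calc n ^ ε * D ≤ n ^ ε * n ^ (1 - ε) := mul_le_mul_of_nonneg_left hDn (by positivity)
      _ = n := by
        rw [← Real.rpow_add (by linarith)]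
        simp
  have hlow : n ^ ε * (1 / V ^ (30 * m + 5)) ≤
      n / ((C * m) ^ (26 * m) * D * (1 + Real.log D) ^ (4 * m + 5)) := by
    have e : n / ((C * m) ^ (26 * m) * D * (1 + Real.log D) ^ (4 * m + 5)) =
        n / D * (1 / ((C * m) ^ (26 * m) * (1 + Real.log D) ^ (4 * m + 5))) := by
      field_simp
    rw [e]
    apply mul_le_mul hnD _ (by positivity) (by positivity)
    exact div_le_div_of_nonneg_left zero_le_one (by positivity) hden
  refine le_trans ?_ hlow
  have hlogV : Real.log V = K + lam := by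
    rw [hV, Real.log_mul (by linarith) (by positivity)]
  have e1 : n ^ ε * (1 / V ^ (30 * m + 5)) =
      Real.exp (ε * Real.log n - (30 * m + 5) * (K + lam)) := by
    rw [Real.exp_sub, Real.rpow_def_of_pos (by linarith), mul_comm (Real.log n) ε, ← hlogV]
    have : Real.exp ((30 * (m : ℝ) + 5) * Real.log V) = V ^ (30 * m + 5) := by
      have h1 : ((30 * (m : ℝ) + 5)) = ((30 * m + 5 : ℕ) : ℝ) := by push_cast; ring
      rw [h1, ← Real.log_pow, Real.exp_log (by positivity)]
    rw [this]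
    ring
  have e2 : Real.exp (5 + 5 * Real.log (ε / 20) - 5 * K - ε / 2 * Real.log 3) * n ^ (ε / 2) =
      Real.exp ((5 + 5 * Real.log (ε / 20) - 5 * K - ε / 2 * Real.log 3) + ε / 2 * Real.log n) := by
    rw [Real.exp_add, Real.rpow_def_of_pos (by linarith), mul_comm (Real.log n) (ε / 2)]
  rw [e1, e2]
  apply Real.exp_le_exp.mpr
  -- the final estimate
  have h4 : 5 * lam ≤ ε / 4 * l - 5 - 5 * Real.log (ε / 20) := by
    have h1 := Real.log_le_sub_one_of_pos (show 0 < ε / 20 * l by positivity)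
    rw [Real.log_mul (by positivity) (by linarith)] at h1
    linarith
  have h5 : (30 * (m : ℝ) + 5) * (K + lam) = 30 * m * K + 30 * (m * lam) + 5 * K + 5 * lam := by
    ring
  have h6 : 30 * (m : ℝ) * K ≤ 600 * K * (c * l) := by
    have := mul_le_mul_of_nonneg_right hm20 (by positivity : 0 ≤ 30 * K)
    linarith
  have h7 : 30 * ((m : ℝ) * lam) ≤ 30 * (c * l) := by linarith
  have h8 : 600 * K * (c * l) + 30 * (c * l) ≤ ε / 4 * l := by
    have := mul_le_mul_of_nonneg_right hc2 (by linarith : 0 ≤ l)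
    linarith
  have h9 : ε * Real.log n = ε / 2 * Real.log n + (ε / 2 * l - ε / 2 * Real.log 3) := by
    rw [hln]; ring
  rw [h5, h9]
  linarith

/-- a power saving in the degree -/
theorem power_saving (ε : ℝ) (hε : 0 < ε) : ∃ c : ℝ, 0 < c ∧ ∃ κ : ℝ, 0 < κ ∧ ∀ m : ℕ, 0 < m →
    ∀ f : ℤ[X], Irreducible f → 1 < (f.map (Int.castRingHom ℂ)).mahlerMeasure →
    m * Real.log (Real.log (3 * f.natDegree)) ≤ c * Real.log (3 * f.natDegree) →
    ∀ (E : Type u) [Field E] [CharZero E] (F : IntermediateField ℚ E) [IsGalois ℚ F],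
      (∀ σ : F ≃ₐ[ℚ] F, σ ^ m = 1) → F ⊔ adjoin ℚ (mu E) = ⊤ →
    ∀ g : E[X], g ∣ f.map (Int.castRingHom E) → 0 < g.natDegree →
      (g.natDegree : ℝ) ≤ (f.natDegree : ℝ) ^ (1 - ε) →
      min 2 (Real.exp (κ * (f.natDegree : ℝ) ^ (ε / 2))) ≤
        (f.map (Int.castRingHom ℂ)).mahlerMeasure := by
  obtain ⟨C, hC, hfin⟩ := final.{u}
  obtain ⟨c, hc, κ, hκ, h⟩ := real_cor hC hε
  refine ⟨c, hc, κ, hκ, ?_⟩
  intro m hm f hf hM hmn E _ _ F _ hF hE g hgf hg hgn
  have hn : 1 ≤ f.natDegree := by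
    have h1 := natDegree_le_of_dvd hgf ((Polynomial.map_ne_zero_iff (RingHom.injective_int _)).mpr
      hf.ne_zero)
    rw [natDegree_map_eq_of_injective (RingHom.injective_int _)] at h1
    omega
  have h1 := h m f.natDegree g.natDegree hm (by exact_mod_cast hg) (by exact_mod_cast hn) hgn hmn
  refine le_trans ?_ (hfin m hm f hf hM E F hF hE g hgf hg).2
  exact min_le_min_left 2 (Real.exp_le_exp.mpr h1)

end Pool.Agent.U218.RA
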