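import Mathlib
import Pool.Agent.U218.RA.Cor

/-! # Bridge: abstract fields -/

set_option autoImplicit false
set_option linter.all false

universe u

open Finset Polynomial Module NumberField IntermediateField

namespace Pool.Agent.U218.RA

theorem bridge {m : ℕ} {F E : Type u} [Field F] [CharZero F] [Field E] [Algebra F E] [CharZero E]
    (hG : IsGalois ℚ F) (hF : ∀ σ : F ≃ₐ[ℚ] F, σ ^ m = 1)
    (hE : adjoin F {ζ : E | ∃ k : ℕ, 0 < k ∧ ζ ^ k = 1} = ⊤) :
    ∃ F' : IntermediateField ℚ E, IsGalois ℚ F' ∧ (∀ σ : F' ≃ₐ[ℚ] F', σ ^ m = 1) ∧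
      F' ⊔ adjoin ℚ (mu E) = ⊤ := by
  let ι : F →ₐ[ℚ] E := IsScalarTower.toAlgHom ℚ F E
  let e : F ≃ₐ[ℚ] ι.fieldRange := AlgEquiv.ofInjectiveField ι
  refine ⟨ι.fieldRange, IsGalois.of_algEquiv e, ?_, ?_⟩
  · intro ρ
    have h1 := hF ((e.trans ρ).trans e.symm)
    have h2 : ∀ j : ℕ, ((e.trans ρ).trans e.symm) ^ j = (e.trans (ρ ^ j)).trans e.symm := by
      intro j
      induction j with
      | zero => ext y; simp
      | succ j ih =>
        rw [pow_succ', ih]
        ext y
        simp [pow_succ', AlgEquiv.mul_apply]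
    rw [h2] at h1
    ext y
    have h3 := congrArg (fun t : F ≃ₐ[ℚ] F => e (t (e.symm y))) h1
    simp only [AlgEquiv.trans_apply, AlgEquiv.apply_symm_apply, AlgEquiv.one_apply] at h3
    rw [h3, AlgEquiv.one_apply]
  · rw [← top_le_iff]
    intro x _
    have hx : x ∈ adjoin F {ζ : E | ∃ k : ℕ, 0 < k ∧ ζ ^ k = 1} := by rw [hE]; trivial
    induction hx using IntermediateField.adjoin_induction with
    | mem x hx =>
      exact (le_sup_right : adjoin ℚ (mu E) ≤ ι.fieldRange ⊔ adjoin ℚ (mu E))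
        (IntermediateField.subset_adjoin ℚ _ hx)
    | algebraMap x =>
      exact (le_sup_left : ι.fieldRange ≤ ι.fieldRange ⊔ adjoin ℚ (mu E)) ⟨x, rfl⟩
    | add x y _ _ hx hy => exact add_mem (hx trivial) (hy trivial)
    | mul x y _ _ hx hy => exact mul_mem (hx trivial) (hy trivial)
    | inv x _ hx => exact inv_mem (hx trivial)

end Pool.Agent.U218.RA
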